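import Mathlib
import Pool.Agent.Lib.MP_d87a8f_pr.Defs

/-!
Definitions used in the statement of the universal cutoff theorem.
-/

namespace Pool.Agent.Lib.MP_d87a8f_pr

/-- The number of permutations of the entries of `g` that leave the ordered product unchanged. -/
def rearr {G : Type} [Group G] [DecidableEq G] {m : ℕ} (g : Fin m → G) : ℕ :=
  (Finset.univ.filter (fun s : Equiv.Perm (Fin m) =>
    (List.ofFn (fun j => g (s j))).prod = (List.ofFn g).prod)).card

/-- The mean of `log (rearr g)`, where `g` lists the first `m` steps of the walk: `g j = Z (w j)`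
with `w` uniform among the words of length `m` and `Z` uniform among the generator tuples. -/
noncomputable def meanLog (G : Type) [Group G] [Fintype G] [DecidableEq G] (k m : ℕ) : ℝ :=
  (∑ w : Fin m → Fin k, ∑ Z : Fin k → G, Real.log (rearr (fun j => Z (w j)))) /
    ((k : ℝ) ^ m * (Fintype.card G : ℝ) ^ k)

/-- The least `m` with `log |G| + meanLog G k m ≤ m log k`. -/
noncomputable def cutTime (G : Type) [Group G] [Fintype G] [DecidableEq G] (k : ℕ) : ℕ :=
  sInf {m : ℕ | Real.log (Fintype.card G) + meanLog G k m ≤ m * Real.log k}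

/-- The probability of `p` for a uniformly random generator tuple. -/
noncomputable def prob {G : Type} [Fintype G] {k : ℕ} (p : (Fin k → G) → Prop) : ℝ :=
  (Set.ncard {Z | p Z} : ℝ) / (Fintype.card G : ℝ) ^ k

/-- Cutoff with high probability at the times `τ n`: for all `ε` in `(0, 1)` the distance to
uniform tends in probability to `1` at time `(1 - ε) τ n` and to `0` at time `(1 + ε) τ n`. -/
def CutoffAt (G : ℕ → Type) [∀ n, Group (G n)] [∀ n, Fintype (G n)] [∀ n, DecidableEq (G n)]
    (k : ℕ → ℕ) (τ : ℕ → ℝ) : Prop :=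
  ∀ ε δ : ℝ, 0 < ε → ε < 1 → 0 < δ →
    Filter.Tendsto (fun n => prob (fun Z : Fin (k n) → G n =>
      δ < |tvDist Z ((1 - ε) * τ n) - 1|)) Filter.atTop (nhds 0) ∧
    Filter.Tendsto (fun n => prob (fun Z : Fin (k n) → G n =>
      δ < |tvDist Z ((1 + ε) * τ n)|)) Filter.atTop (nhds 0)

end Pool.Agent.Lib.MP_d87a8f_pr
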