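import Mathlib

/-!
The Efron-Stein inequality for the uniform law on a finite product, with plain finite sums.
-/

namespace Pool.Agent.Lib.MP_d87a8f_pr

open Finset

/-- Sum of squared deviations from the mean. -/
noncomputable def ssd {X : Type} [Fintype X] (f : X → ℝ) : ℝ :=
  ∑ x, (f x - (∑ y, f y) / (Fintype.card X : ℝ)) ^ 2

lemma ssd_eq {X : Type} [Fintype X] [Nonempty X] (f : X → ℝ) :
    ssd f = ∑ x, f x ^ 2 - (∑ y, f y) ^ 2 / (Fintype.card X : ℝ) := by
  have hN : (0 : ℝ) < Fintype.card X := by exact_mod_cast Fintype.card_pos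
  unfold ssd
  set S := ∑ y, f y with hS
  have h1 : ∀ x, (f x - S / (Fintype.card X : ℝ)) ^ 2
      = f x ^ 2 - 2 * (S / (Fintype.card X : ℝ)) * f x + (S / (Fintype.card X : ℝ)) ^ 2 := by
    intro x; ring
  simp only [h1, sum_add_distrib, sum_sub_distrib, ← mul_sum, sum_const, card_univ, nsmul_eq_mul,
    ← hS]
  field_simp
  ring

lemma ssd_pair {X : Type} [Fintype X] [Nonempty X] (f : X → ℝ) :
    ∑ x, ∑ y, (f x - f y) ^ 2 = 2 * (Fintype.card X : ℝ) * ssd f := by
  have hN : (0 : ℝ) < Fintype.card X := by exact_mod_cast Fintype.card_pos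
  rw [ssd_eq]
  have h1 : ∀ x y, (f x - f y) ^ 2 = f x ^ 2 - 2 * f x * f y + f y ^ 2 := by
    intro x y; ring
  simp only [h1, sum_add_distrib, sum_sub_distrib, ← mul_sum, ← sum_mul, sum_const, card_univ,
    nsmul_eq_mul]
  field_simp
  ring

lemma ssd_equiv {X Y : Type} [Fintype X] [Fintype Y] (e : X ≃ Y) (f : Y → ℝ) :
    ssd (fun x => f (e x)) = ssd f := by
  unfold ssd
  rw [Fintype.card_congr e, e.sum_comp f]
  exact e.sum_comp (fun y => (f y - (∑ y, f y) / (Fintype.card Y : ℝ)) ^ 2)

/-- Tensorisation of the variance over a product of two finite sets. -/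
lemma ssd_prod {X Y : Type} [Fintype X] [Fintype Y] [Nonempty X] [Nonempty Y] (f : X × Y → ℝ) :
    ssd f ≤ ∑ x, ssd (fun y => f (x, y)) + ∑ y, ssd (fun x => f (x, y)) := by
  have ha : (0 : ℝ) < Fintype.card X := by exact_mod_cast Fintype.card_pos
  have hb : (0 : ℝ) < Fintype.card Y := by exact_mod_cast Fintype.card_pos
  have key : ∑ y, (∑ x, f (x, y) - (∑ y', ∑ x, f (x, y')) / (Fintype.card Y : ℝ)) ^ 2
      ≤ (Fintype.card X : ℝ) * ∑ x, ssd (fun y => f (x, y)) := by
    unfold ssd
    rw [sum_comm (f := fun x y => (f (x, y) - (∑ y', f (x, y')) / (Fintype.card Y : ℝ)) ^ 2),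
      mul_sum]
    refine sum_le_sum fun y _ => ?_
    have h := sq_sum_le_card_mul_sum_sq (s := (univ : Finset X))
      (f := fun x => f (x, y) - (∑ y', f (x, y')) / (Fintype.card Y : ℝ))
    rw [sum_sub_distrib, ← sum_div, sum_comm (f := fun x y' => f (x, y')), card_univ] at h
    exact h
  have k2 := ssd_eq (fun y => ∑ x, f (x, y))
  unfold ssd at k2
  rw [k2] at key
  rw [ssd_eq f]
  simp only [ssd_eq, sum_sub_distrib, ← sum_div] at key ⊢
  rw [Fintype.sum_prod_type_right, Fintype.sum_prod_type_right (f := f), Fintype.card_prod]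
  rw [sum_comm (f := fun x y => f (x, y) ^ 2)] at key ⊢
  push_cast
  set Q := ∑ y, ∑ x, f (x, y) ^ 2
  set S := ∑ y, ∑ x, f (x, y)
  set C := ∑ y, (∑ x, f (x, y)) ^ 2
  set R := ∑ x, (∑ y, f (x, y)) ^ 2
  have h3 : (C - S ^ 2 / (Fintype.card Y : ℝ)) / (Fintype.card X : ℝ)
      ≤ Q - R / (Fintype.card Y : ℝ) := by
    rw [div_le_iff₀ ha]; linarith
  have h4 : (C - S ^ 2 / (Fintype.card Y : ℝ)) / (Fintype.card X : ℝ)
      = C / (Fintype.card X : ℝ) - S ^ 2 / ((Fintype.card X : ℝ) * (Fintype.card Y : ℝ)) := by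
    field_simp
  linarith

/-- Efron-Stein, symmetric form. -/
theorem efron_stein {A : Type} [Fintype A] [Nonempty A] :
    ∀ (n : ℕ) (f : (Fin n → A) → ℝ), 2 * (Fintype.card A : ℝ) * ssd f
      ≤ ∑ i : Fin n, ∑ x : Fin n → A, ∑ a : A, (f x - f (Function.update x i a)) ^ 2 := by
  have hA : (0 : ℝ) < Fintype.card A := by exact_mod_cast Fintype.card_pos
  intro n
  induction n with
  | zero =>
    intro f
    have : ssd f = 0 := by
      unfold ssd
      simp
    simp [this]
  | succ n ih =>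
    intro f
    let e : A × (Fin n → A) ≃ (Fin (n + 1) → A) := Fin.consEquiv (fun _ => A)
    have he : ∀ a x, e (a, x) = Fin.cons a x := fun a x => rfl
    have h1 := ssd_prod (fun p => f (e p))
    rw [ssd_equiv e f] at h1
    rw [Fin.sum_univ_succ]
    have h2 : ∑ x : Fin (n + 1) → A, ∑ a : A, (f x - f (Function.update x 0 a)) ^ 2
        = 2 * (Fintype.card A : ℝ) * ∑ y : Fin n → A, ssd (fun a => f (e (a, y))) := by
      rw [← e.sum_comp, Fintype.sum_prod_type_right, mul_sum]
      refine sum_congr rfl fun y _ => ?_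
      rw [← ssd_pair]
      refine sum_congr rfl fun a _ => sum_congr rfl fun b _ => ?_
      rw [he, he, Fin.update_cons_zero]
    have h3 : 2 * (Fintype.card A : ℝ) * ∑ a : A, ssd (fun y => f (e (a, y)))
        ≤ ∑ i : Fin n, ∑ x : Fin (n + 1) → A, ∑ a : A,
          (f x - f (Function.update x i.succ a)) ^ 2 := by
      rw [mul_sum]
      refine le_trans (sum_le_sum fun a _ => ih (fun y => f (e (a, y)))) (le_of_eq ?_)
      rw [sum_comm]
      refine sum_congr rfl fun i _ => ?_
      rw [← e.sum_comp, Fintype.sum_prod_type]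
      refine sum_congr rfl fun a _ => sum_congr rfl fun y _ => sum_congr rfl fun b _ => ?_
      rw [he, he, Fin.cons_update]
    rw [h2]
    have h4 := mul_le_mul_of_nonneg_left h1 (by positivity : (0 : ℝ) ≤ 2 * (Fintype.card A : ℝ))
    linarith

/-- Resampling one coordinate is symmetric. -/
lemma sum_update_swap {A : Type} [Fintype A] {n : ℕ} (i : Fin n)
    (F : (Fin n → A) → (Fin n → A) → ℝ) :
    ∑ x : Fin n → A, ∑ a : A, F x (Function.update x i a)
      = ∑ x : Fin n → A, ∑ a : A, F (Function.update x i a) x := by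
  rw [← Fintype.sum_prod_type', ← Fintype.sum_prod_type']
  let e : (Fin n → A) × A ≃ (Fin n → A) × A :=
    { toFun := fun p => (Function.update p.1 i p.2, p.1 i)
      invFun := fun p => (Function.update p.1 i p.2, p.1 i)
      left_inv := fun p => by simp
      right_inv := fun p => by simp }
  rw [← e.sum_comp]
  refine sum_congr rfl fun p _ => ?_
  simp [e]

/-- Efron-Stein, one sided form. -/
theorem efron_stein_pos {A : Type} [Fintype A] [Nonempty A] (n : ℕ) (f : (Fin n → A) → ℝ) :
    (Fintype.card A : ℝ) * ssd f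
      ≤ ∑ i : Fin n, ∑ x : Fin n → A, ∑ a : A, max (f x - f (Function.update x i a)) 0 ^ 2 := by
  have h := efron_stein n f
  have h2 : ∀ i : Fin n, ∑ x : Fin n → A, ∑ a : A, (f x - f (Function.update x i a)) ^ 2
      = 2 * ∑ x : Fin n → A, ∑ a : A, max (f x - f (Function.update x i a)) 0 ^ 2 := by
    intro i
    have h3 := sum_update_swap i (fun x y => max (f x - f y) 0 ^ 2)
    rw [two_mul]
    nth_rewrite 2 [h3]
    rw [← sum_add_distrib]
    refine sum_congr rfl fun x _ => ?_
    rw [← sum_add_distrib]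
    refine sum_congr rfl fun a _ => ?_
    rcases le_total (f x) (f (Function.update x i a)) with h | h
    · rw [max_eq_right (by linarith), max_eq_left (by linarith)]; ring
    · rw [max_eq_left (by linarith), max_eq_right (by linarith)]; ring
  simp only [h2, ← mul_sum] at h
  linarith

/-- Efron-Stein on a product of two blocks of coordinates, symmetric form. -/
theorem efron_stein_two {A B : Type} [Fintype A] [Nonempty A] [Fintype B] [Nonempty B]
    (m k : ℕ) (f : (Fin m → A) × (Fin k → B) → ℝ) :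
    ssd f ≤ (∑ i : Fin m, ∑ p : (Fin m → A) × (Fin k → B), ∑ a : A,
          (f p - f (Function.update p.1 i a, p.2)) ^ 2) / (2 * (Fintype.card A : ℝ))
      + (∑ j : Fin k, ∑ p : (Fin m → A) × (Fin k → B), ∑ b : B,
          (f p - f (p.1, Function.update p.2 j b)) ^ 2) / (2 * (Fintype.card B : ℝ)) := by
  have hA : (0 : ℝ) < Fintype.card A := by exact_mod_cast Fintype.card_pos
  have hB : (0 : ℝ) < Fintype.card B := by exact_mod_cast Fintype.card_pos
  have h1 := ssd_prod f
  have h2 : ∑ y, ssd (fun x => f (x, y)) ≤ (∑ i : Fin m, ∑ p : (Fin m → A) × (Fin k → B), ∑ a : A,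
          (f p - f (Function.update p.1 i a, p.2)) ^ 2) / (2 * (Fintype.card A : ℝ)) := by
    rw [le_div_iff₀ (by positivity), mul_comm, mul_sum]
    refine le_trans (sum_le_sum fun y _ => efron_stein m (fun x => f (x, y))) (le_of_eq ?_)
    rw [sum_comm]
    refine sum_congr rfl fun i _ => ?_
    rw [Fintype.sum_prod_type_right]
  have h3 : ∑ x, ssd (fun y => f (x, y)) ≤ (∑ j : Fin k, ∑ p : (Fin m → A) × (Fin k → B), ∑ b : B,
          (f p - f (p.1, Function.update p.2 j b)) ^ 2) / (2 * (Fintype.card B : ℝ)) := by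
    rw [le_div_iff₀ (by positivity), mul_comm, mul_sum]
    refine le_trans (sum_le_sum fun x _ => efron_stein k (fun y => f (x, y))) (le_of_eq ?_)
    rw [sum_comm]
    refine sum_congr rfl fun i _ => ?_
    rw [Fintype.sum_prod_type]
  linarith

/-- Chebyshev with plain sums. -/
lemma card_dev_le {X : Type} [Fintype X] (f : X → ℝ) {t : ℝ} (ht : 0 < t) :
    (((univ.filter (fun x => t ≤ |f x - (∑ y, f y) / (Fintype.card X : ℝ)|)).card : ℕ) : ℝ)
      ≤ ssd f / t ^ 2 := by
  rw [le_div_iff₀ (by positivity)]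
  unfold ssd
  refine le_trans ?_ (sum_le_sum_of_subset_of_nonneg (filter_subset
    (fun x => t ≤ |f x - (∑ y, f y) / (Fintype.card X : ℝ)|) univ) (fun _ _ _ => sq_nonneg _))
  rw [← nsmul_eq_mul, ← sum_const]
  refine sum_le_sum fun x hx => ?_
  have h := (mem_filter.1 hx).2
  rw [← sq_abs (f x - _)]
  exact pow_le_pow_left₀ ht.le h 2

end Pool.Agent.Lib.MP_d87a8f_pr
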