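import Mathlib
import Pool.Agent.Lib.MP_d87a8f_pr.U.ES

/-!
Uniform averages on finite types, Markov, Chebyshev and the Efron-Stein inequality.
-/

namespace Pool.Agent.Lib.MP_d87a8f_pr.U

open Finset

/-- uniform average -/
noncomputable def av {α : Type} [Fintype α] (f : α → ℝ) : ℝ := (∑ x, f x) / Fintype.card α

open Classical in
/-- indicator -/
noncomputable def ind (p : Prop) : ℝ := if p then 1 else 0

/-- variance -/
noncomputable def var {α : Type} [Fintype α] (f : α → ℝ) : ℝ := av (fun x => (f x - av f) ^ 2)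

variable {α β : Type} [Fintype α] [Fintype β]

theorem ind_nonneg (p : Prop) : 0 ≤ ind p := by unfold ind; split_ifs <;> norm_num

theorem ind_le_one (p : Prop) : ind p ≤ 1 := by unfold ind; split_ifs <;> norm_num

theorem ind_pos {p : Prop} (h : p) : ind p = 1 := by unfold ind; rw [if_pos h]

theorem ind_neg {p : Prop} (h : ¬ p) : ind p = 0 := by unfold ind; rw [if_neg h]

theorem ind_mono {p q : Prop} (h : p → q) : ind p ≤ ind q := by
  by_cases hp : p
  · rw [ind_pos hp, ind_pos (h hp)]
  · rw [ind_neg hp]; exact ind_nonneg q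

theorem ind_or_le (p q : Prop) : ind (p ∨ q) ≤ ind p + ind q := by
  by_cases hp : p
  · rw [ind_pos (Or.inl hp), ind_pos hp]; linarith [ind_nonneg q]
  · rw [ind_neg hp, zero_add]; exact ind_mono (fun h => h.resolve_left hp)

theorem sum_ind (p : α → Prop) [DecidablePred p] :
    ∑ x, ind (p x) = ((univ.filter p).card : ℝ) := by
  rw [Finset.card_filter]; push_cast
  refine Finset.sum_congr rfl (fun x _ => ?_)
  by_cases h : p x
  · rw [ind_pos h, if_pos h]
  · rw [ind_neg h, if_neg h]

theorem av_mono {f g : α → ℝ} (h : ∀ x, f x ≤ g x) : av f ≤ av g :=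
  div_le_div_of_nonneg_right (Finset.sum_le_sum (fun x _ => h x)) (Nat.cast_nonneg _)

theorem av_nonneg {f : α → ℝ} (h : ∀ x, 0 ≤ f x) : 0 ≤ av f :=
  div_nonneg (Finset.sum_nonneg (fun x _ => h x)) (Nat.cast_nonneg _)

theorem av_add (f g : α → ℝ) : av (fun x => f x + g x) = av f + av g := by
  simp only [av, Finset.sum_add_distrib, add_div]

theorem av_sub (f g : α → ℝ) : av (fun x => f x - g x) = av f - av g := by
  simp only [av, Finset.sum_sub_distrib, sub_div]

theorem av_mul_left (c : ℝ) (f : α → ℝ) : av (fun x => c * f x) = c * av f := by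
  simp only [av, ← Finset.mul_sum, mul_div_assoc]

theorem av_const [Nonempty α] (c : ℝ) : av (fun _ : α => c) = c := by
  have : (Fintype.card α : ℝ) ≠ 0 := Nat.cast_ne_zero.mpr Fintype.card_ne_zero
  simp only [av, Finset.sum_const, Finset.card_univ, nsmul_eq_mul]
  field_simp

theorem av_const_le {c : ℝ} (hc : 0 ≤ c) : av (fun _ : α => c) ≤ c := by
  rcases isEmpty_or_nonempty α with h | h
  · simp [av, hc]
  · rw [av_const]

theorem av_sum {ι : Type} (s : Finset ι) (f : ι → α → ℝ) :
    av (fun x => ∑ i ∈ s, f i x) = ∑ i ∈ s, av (f i) := by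
  simp only [av]; rw [Finset.sum_comm, Finset.sum_div]

theorem av_equiv (e : α ≃ β) (f : β → ℝ) : av (fun x => f (e x)) = av f := by
  simp only [av]; rw [Equiv.sum_comp e f, Fintype.card_congr e]

theorem av_bij {e : α → β} (he : Function.Bijective e) (f : β → ℝ) :
    av (fun x => f (e x)) = av f := av_equiv (Equiv.ofBijective e he) f

theorem av_prod (f : α × β → ℝ) : av f = av (fun x => av (fun y => f (x, y))) := by
  simp only [av, Fintype.sum_prod_type, Fintype.card_prod, Nat.cast_mul, ← Finset.sum_div]
  rw [div_div, mul_comm]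

theorem av_comm (f : α → β → ℝ) :
    av (fun x => av (fun y => f x y)) = av (fun y => av (fun x => f x y)) := by
  simp only [av, ← Finset.sum_div]
  rw [Finset.sum_comm, div_div, div_div, mul_comm]

theorem av_prod' (f : α × β → ℝ) : av f = av (fun y => av (fun x => f (x, y))) := by
  rw [av_prod, av_comm]

/-- Markov -/
theorem markov {f : α → ℝ} (hf : ∀ x, 0 ≤ f x) {t : ℝ} (ht : 0 < t) :
    av (fun x => ind (t ≤ f x)) ≤ av f / t := by
  have : av f / t = av (fun x => t⁻¹ * f x) := by rw [av_mul_left]; ring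
  rw [this]
  refine av_mono (fun x => ?_)
  by_cases h : t ≤ f x
  · rw [ind_pos h, ← div_eq_inv_mul, le_div_iff₀ ht]; linarith
  · rw [ind_neg h]; exact mul_nonneg (inv_nonneg.mpr ht.le) (hf x)

/-- Chebyshev -/
theorem chebyshev (f : α → ℝ) {t : ℝ} (ht : 0 < t) :
    av (fun x => ind (t ≤ |f x - av f|)) ≤ var f / t ^ 2 := by
  refine le_trans (av_mono (fun x => ind_mono (fun h => ?_)))
    (markov (f := fun x => (f x - av f) ^ 2) (fun x => sq_nonneg _) (pow_pos ht 2))
  rw [← sq_abs (f x - av f)]
  exact pow_le_pow_left₀ ht.le h 2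

theorem av_empty [IsEmpty α] (f : α → ℝ) : av f = 0 := by simp [av]

theorem var_eq_ssd (f : α → ℝ) : var f = ssd f / Fintype.card α := rfl

theorem av_sqrt_le {f : α → ℝ} (hf : ∀ x, 0 ≤ f x) :
    av (fun x => Real.sqrt (f x)) ≤ Real.sqrt (av f) := by
  rcases isEmpty_or_nonempty α with h | h
  · rw [av_empty]; exact Real.sqrt_nonneg _
  have hN : (0 : ℝ) < Fintype.card α := by exact_mod_cast Fintype.card_pos
  apply Real.le_sqrt_of_sq_le
  have h1 := sq_sum_le_card_mul_sum_sq (s := (univ : Finset α)) (f := fun x => Real.sqrt (f x))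
  simp only [Real.sq_sqrt (hf _), card_univ] at h1
  unfold av
  rw [div_pow, div_le_div_iff₀ (by positivity) hN]
  nlinarith [mul_le_mul_of_nonneg_right h1 hN.le]

/-- resampling one coordinate preserves the uniform law -/
theorem av_update {ι : Type} [Fintype ι] [DecidableEq ι] [Nonempty α] (F : (ι → α) → ℝ) (i : ι) :
    av (fun x : ι → α => av (fun a : α => F (Function.update x i a))) = av F := by
  let e : (ι → α) × α ≃ (ι → α) × α :=
    { toFun := fun p => (Function.update p.1 i p.2, p.1 i)
      invFun := fun p => (Function.update p.1 i p.2, p.1 i)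
      left_inv := fun p => by simp
      right_inv := fun p => by simp }
  have h1 := av_equiv e (fun p => F p.1)
  rw [av_prod, av_prod] at h1
  simp only [av_const] at h1
  exact h1

theorem var_nonneg (f : α → ℝ) : 0 ≤ var f := av_nonneg (fun _ => sq_nonneg _)

theorem var_le_pairs (f : α → ℝ) : var f ≤ av (fun a => av (fun b => (f a - f b) ^ 2)) := by
  rcases isEmpty_or_nonempty α with h | h
  · unfold var; rw [av_empty, av_empty]
  have hN : (0 : ℝ) < Fintype.card α := by exact_mod_cast Fintype.card_pos
  have h0 := var_nonneg f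
  have h1 : av (fun a => av (fun b => (f a - f b) ^ 2)) = 2 * var f := by
    rw [var_eq_ssd]
    unfold av
    rw [← Finset.sum_div, ssd_pair]
    field_simp
  linarith

theorem var_prod_le (F : α × β → ℝ) :
    var F ≤ av (fun x => var (fun y => F (x, y))) + av (fun y => var (fun x => F (x, y))) := by
  rcases isEmpty_or_nonempty α with h | h
  · have : var F = 0 := av_empty _
    rw [this]
    exact add_nonneg (av_nonneg fun _ => var_nonneg _) (av_nonneg fun _ => var_nonneg _)
  rcases isEmpty_or_nonempty β with h' | h'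
  · have : var F = 0 := av_empty _
    rw [this]
    exact add_nonneg (av_nonneg fun _ => var_nonneg _) (av_nonneg fun _ => var_nonneg _)
  have ha : (0 : ℝ) < Fintype.card α := by exact_mod_cast Fintype.card_pos
  have hb : (0 : ℝ) < Fintype.card β := by exact_mod_cast Fintype.card_pos
  have h1 := ssd_prod F
  simp only [var_eq_ssd]
  unfold av
  rw [← Finset.sum_div, ← Finset.sum_div, Fintype.card_prod, div_div, div_div, Nat.cast_mul,
    mul_comm (Fintype.card β : ℝ), ← add_div]
  exact div_le_div_of_nonneg_right h1 (by positivity)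

/-- Efron-Stein -/
theorem efron_stein {n : ℕ} (F : (Fin n → α) → ℝ) :
    var F ≤ ∑ i, av (fun x : Fin n → α =>
      av (fun a : α => (F x - F (Function.update x i a)) ^ 2)) := by
  have hnn : 0 ≤ ∑ i, av (fun x : Fin n → α =>
      av (fun a : α => (F x - F (Function.update x i a)) ^ 2)) :=
    Finset.sum_nonneg fun _ _ => av_nonneg fun _ => av_nonneg fun _ => sq_nonneg _
  rcases isEmpty_or_nonempty α with h | h
  · rcases n with _ | n
    · have : var F = 0 := by simp [var, av]
      rw [this]; exact hnn
    · have : var F = 0 := av_empty _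
      rw [this]; exact hnn
  have ha : (0 : ℝ) < Fintype.card α := by exact_mod_cast Fintype.card_pos
  have hb : (0 : ℝ) < Fintype.card (Fin n → α) := by exact_mod_cast Fintype.card_pos
  have h1 := Pool.Agent.Lib.MP_d87a8f_pr.efron_stein n F
  have h0 := var_nonneg F
  rw [var_eq_ssd] at h0 ⊢
  have h2 : ∑ i, av (fun x : Fin n → α =>
      av (fun a : α => (F x - F (Function.update x i a)) ^ 2)) =
      (∑ i : Fin n, ∑ x : Fin n → α, ∑ a : α, (F x - F (Function.update x i a)) ^ 2)
        / (Fintype.card α : ℝ) / (Fintype.card (Fin n → α) : ℝ) := by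
    unfold av
    simp only [← Finset.sum_div]
  rw [h2]
  refine div_le_div_of_nonneg_right ?_ hb.le
  rw [le_div_iff₀ ha]
  have h3 : 0 ≤ ssd F := Finset.sum_nonneg fun _ _ => sq_nonneg _
  nlinarith [mul_nonneg h3 ha.le]

end Pool.Agent.Lib.MP_d87a8f_pr.U
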