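import Mathlib
import Pool.Agent.Lib.MP_d87a8f_pr.U.Defs
import Pool.Agent.Lib.MP_d87a8f_pr.U.Av

/-!
Rearrangements that keep prescribed neighbours adjacent.
-/

namespace Pool.Agent.Lib.MP_d87a8f_pr.U

open Finset

variable {G : Type} [Group G] [DecidableEq G] {k m : ℕ}

/-- ordered product -/
def wp (g : Fin m → G) : G := (List.ofFn g).prod

/-- the steps of the walk -/
def gw (w : Fin m → Fin k) (Z : Fin k → G) : Fin m → G := fun j => Z (w j)

/-- logarithm of the number of product preserving rearrangements -/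
noncomputable def lq (g : Fin m → G) : ℝ := Real.log (rearr g)

/-- `s` extended by a last fixed point -/
def nx (s : Equiv.Perm (Fin m)) (p : Fin (m + 1)) : Fin (m + 1) :=
  if h : p.val < m then (s ⟨p.val, h⟩).castSucc else Fin.last m

/-- the letter following `a` in the arrangement `s` (the last point if there is none) -/
def scc (s : Equiv.Perm (Fin m)) (a : Fin m) : Fin (m + 1) := nx s (s.symm a).succ

/-- product preserving rearrangements that keep `j + 1` right after `j` for all `j` in `E` -/
def rearrE (E : Finset (Fin m)) (g : Fin m → G) : ℕ :=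
  (univ.filter (fun s : Equiv.Perm (Fin m) =>
    (∀ j ∈ E, scc s j = j.succ) ∧ wp (fun j => g (s j)) = wp g)).card

/-- the control sum -/
noncomputable def SS (g : Fin m → G) : ℝ :=
  ∑ E : Finset (Fin m), ((rearr g : ℝ) / rearrE E g) / ((m : ℝ) + 1) ^ (2 * E.card)

theorem rearr_eq (g : Fin m → G) :
    rearr g = (univ.filter (fun s : Equiv.Perm (Fin m) => wp (fun j => g (s j)) = wp g)).card := rfl

theorem nx_mul (s t : Equiv.Perm (Fin m)) (p : Fin (m + 1)) : nx (s * t) p = nx s (nx t p) := by
  unfold nx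
  by_cases h : p.val < m
  · have h2 : ((t ⟨p.val, h⟩).castSucc).val < m := (t ⟨p.val, h⟩).isLt
    rw [dif_pos h, dif_pos h, dif_pos h2]
    rfl
  · have h2 : ¬ (Fin.last m).val < m := by simp
    rw [dif_neg h, dif_neg h, dif_neg h2]

theorem nx_one (p : Fin (m + 1)) : nx (1 : Equiv.Perm (Fin m)) p = p := by
  unfold nx
  by_cases h : p.val < m
  · rw [dif_pos h]
    rfl
  · rw [dif_neg h]
    apply Fin.ext
    have := p.isLt
    simp only [Fin.val_last]
    omega

theorem nx_inj (s : Equiv.Perm (Fin m)) : Function.Injective (nx s) := by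
  intro p q h
  have h2 := congrArg (nx s⁻¹) h
  rw [← nx_mul, ← nx_mul, inv_mul_cancel, nx_one, nx_one] at h2
  exact h2

theorem rearrE_pos (E : Finset (Fin m)) (g : Fin m → G) : 0 < rearrE E g := by
  unfold rearrE
  apply Finset.card_pos.mpr
  refine ⟨1, ?_⟩
  rw [Finset.mem_filter]
  refine ⟨Finset.mem_univ _, ?_, rfl⟩
  intro j _
  unfold scc
  rw [nx_one]
  rfl

theorem rearrE_le (E : Finset (Fin m)) (g : Fin m → G) : rearrE E g ≤ rearr g := by
  rw [rearr_eq]
  unfold rearrE
  apply Finset.card_le_card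
  intro s hs
  rw [Finset.mem_filter] at hs ⊢
  exact ⟨hs.1, hs.2.2⟩

theorem rearr_pos (g : Fin m → G) : 0 < rearr g := lt_of_lt_of_le (rearrE_pos ∅ g) (rearrE_le ∅ g)

theorem lq_nonneg (g : Fin m → G) : 0 ≤ lq g := Real.log_natCast_nonneg _

theorem lq_le (g : Fin m → G) : lq g ≤ m * Real.log m := by
  have h1 : rearr g ≤ m ^ m := by
    rw [rearr_eq]
    refine le_trans (Finset.card_filter_le _ _) ?_
    rw [Finset.card_univ, Fintype.card_perm, Fintype.card_fin]
    exact Nat.factorial_le_pow m
  have h2 : (0 : ℝ) < rearr g := by exact_mod_cast rearr_pos g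
  have h3 : (rearr g : ℝ) ≤ (m : ℝ) ^ m := by exact_mod_cast h1
  unfold lq
  rw [← Real.log_pow]
  exact Real.log_le_log h2 h3

theorem SS_nonneg (g : Fin m → G) : 0 ≤ SS g :=
  Finset.sum_nonneg (fun E _ => by positivity)

theorem nx_castSucc (s : Equiv.Perm (Fin m)) (j : Fin m) : nx s j.castSucc = (s j).castSucc := by
  unfold nx
  have h : (j.castSucc).val < m := j.isLt
  rw [dif_pos h]
  rfl

theorem nx_last (s : Equiv.Perm (Fin m)) : nx s (Fin.last m) = Fin.last m := by
  unfold nx
  have h : ¬ (Fin.last m).val < m := by simp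
  rw [dif_neg h]

omit [DecidableEq G] in
theorem partialProd_last (g : Fin m → G) : Fin.partialProd g (Fin.last m) = wp g := by
  unfold Fin.partialProd wp
  rw [List.take_of_length_le]
  simp

omit [DecidableEq G] in
theorem pp_agree (E : Finset (Fin m)) (g g' : Fin m → G)
    (h : ∀ j, j ∉ E → Fin.partialProd g j.succ = Fin.partialProd g' j.succ)
    (q : Fin (m + 1)) (hq : ∀ j ∈ E, q ≠ j.succ) :
    Fin.partialProd g q = Fin.partialProd g' q := by
  induction q using Fin.cases with
  | zero => simp
  | succ j => exact h j (fun hj => hq j hj rfl)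

omit [DecidableEq G] in
theorem rr_step (g : Fin m → G) (s : Equiv.Perm (Fin m)) (p : Fin m) :
    Fin.partialProd (fun j => g (s j)) p.succ * (Fin.partialProd g (nx s p.succ))⁻¹ =
      (Fin.partialProd (fun j => g (s j)) p.castSucc *
        (Fin.partialProd g (nx s p.castSucc))⁻¹) *
      (Fin.partialProd g (s p).succ * (Fin.partialProd g (nx s p.succ))⁻¹) := by
  rw [nx_castSucc, Fin.partialProd_succ, Fin.partialProd_succ]
  group

omit [DecidableEq G] in
theorem rr_eq (E : Finset (Fin m)) (g g' : Fin m → G)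
    (h : ∀ j, j ∉ E → Fin.partialProd g j.succ = Fin.partialProd g' j.succ)
    (s : Equiv.Perm (Fin m)) (hs : ∀ j ∈ E, scc s j = j.succ) (p : Fin (m + 1)) :
    Fin.partialProd (fun j => g (s j)) p * (Fin.partialProd g (nx s p))⁻¹ =
      Fin.partialProd (fun j => g' (s j)) p * (Fin.partialProd g' (nx s p))⁻¹ := by
  induction p using Fin.induction with
  | zero =>
    have h0 : Fin.partialProd g (nx s 0) = Fin.partialProd g' (nx s 0) := by
      apply pp_agree E g g' h
      intro j hj hc
      have h1 := hs j hj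
      unfold scc at h1
      have h2 := nx_inj s (h1.trans hc.symm)
      exact Fin.succ_ne_zero _ h2
    rw [h0]
    simp
  | succ p ih =>
    rw [rr_step, rr_step, ih]
    congr 1
    by_cases hp : s p ∈ E
    · have h1 := hs _ hp
      unfold scc at h1
      rw [Equiv.symm_apply_apply] at h1
      rw [h1, mul_inv_cancel, mul_inv_cancel]
    · rw [h _ hp]
      congr 2
      apply pp_agree E g g' h
      intro j hj hc
      have h1 := hs j hj
      unfold scc at h1
      have h2 := Fin.succ_injective _ (nx_inj s (h1.trans hc.symm))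
      apply hp
      rw [← h2, Equiv.apply_symm_apply]
      exact hj

/-- (E1): induction on `p` for `partialProd (g o s) p * (partialProd g (nx s p))⁻¹` -/
theorem rearrE_congr (E : Finset (Fin m)) (g g' : Fin m → G)
    (h : ∀ j, j ∉ E → Fin.partialProd g j.succ = Fin.partialProd g' j.succ) :
    rearrE E g = rearrE E g' := by
  unfold rearrE
  congr 1
  apply Finset.filter_congr
  intro s _
  apply and_congr_right
  intro hs
  have h1 := rr_eq E g g' h s hs (Fin.last m)
  rw [nx_last, partialProd_last, partialProd_last, partialProd_last, partialProd_last] at h1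
  rw [← mul_inv_eq_one, h1, mul_inv_eq_one]

theorem term_le_SS (E : Finset (Fin m)) (g : Fin m → G) :
    ((rearr g : ℝ) / rearrE E g) / ((m : ℝ) + 1) ^ (2 * E.card) ≤ SS g := by
  unfold SS
  exact Finset.single_le_sum
    (f := fun E : Finset (Fin m) => ((rearr g : ℝ) / rearrE E g) / ((m : ℝ) + 1) ^ (2 * E.card))
    (fun E _ => by positivity) (Finset.mem_univ E)

theorem one_le_SS (g : Fin m → G) : 1 ≤ SS g := by
  refine le_trans ?_ (term_le_SS ∅ g)
  have h1 : (0 : ℝ) < rearrE ∅ g := by exact_mod_cast rearrE_pos ∅ g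
  have h2 : (rearrE ∅ g : ℝ) ≤ rearr g := by exact_mod_cast rearrE_le ∅ g
  simp only [Finset.card_empty, mul_zero, pow_zero, div_one]
  rw [le_div_iff₀ h1]
  linarith

theorem log_sq_le_four {x : ℝ} (hx : 1 ≤ x) : Real.log x ^ 2 ≤ 4 * x := by
  have h0 : 0 < x := by linarith
  have h1 : 0 < Real.sqrt x := Real.sqrt_pos.mpr h0
  have h2 : Real.log (Real.sqrt x) ≤ Real.sqrt x - 1 := Real.log_le_sub_one_of_pos h1
  rw [Real.log_sqrt h0.le] at h2
  have h3 : 0 ≤ Real.log x := Real.log_nonneg hx
  have h4 : Real.sqrt x ^ 2 = x := Real.sq_sqrt h0.le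
  nlinarith

theorem lq_sub_log (E : Finset (Fin m)) (g : Fin m → G) :
    0 ≤ lq g - Real.log (rearrE E g) ∧
      lq g - Real.log (rearrE E g) ≤
        2 * (E.card : ℝ) * Real.log ((m : ℝ) + 1) + Real.log (SS g) := by
  have h1 : (0 : ℝ) < rearrE E g := by exact_mod_cast rearrE_pos E g
  have h2 : (rearrE E g : ℝ) ≤ rearr g := by exact_mod_cast rearrE_le E g
  have h3 : (0 : ℝ) < rearr g := by linarith
  have h4 : (0 : ℝ) < ((m : ℝ) + 1) ^ (2 * E.card) := by positivity
  unfold lq
  constructor
  · have := Real.log_le_log h1 h2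
    linarith
  · have h5 := Real.log_le_log (by positivity) (term_le_SS E g)
    rw [Real.log_div (by positivity) h4.ne', Real.log_div h3.ne' h1.ne', Real.log_pow] at h5
    push_cast at h5
    linarith

theorem lq_sub_sq (E : Finset (Fin m)) (g g' : Fin m → G)
    (h : ∀ j, j ∉ E → Fin.partialProd g j.succ = Fin.partialProd g' j.succ) :
    (lq g - lq g') ^ 2 ≤
      12 * (E.card : ℝ) ^ 2 * Real.log ((m : ℝ) + 1) ^ 2 + 12 * SS g + 12 * SS g' := by
  obtain ⟨a1, a2⟩ := lq_sub_log E g
  obtain ⟨b1, b2⟩ := lq_sub_log E g'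
  rw [← rearrE_congr E g g' h] at b1 b2
  have s1 := log_sq_le_four (one_le_SS g)
  have s2 := log_sq_le_four (one_le_SS g')
  have l1 : 0 ≤ Real.log (SS g) := Real.log_nonneg (one_le_SS g)
  have l2 : 0 ≤ Real.log (SS g') := Real.log_nonneg (one_le_SS g')
  set A : ℝ := 2 * (E.card : ℝ) * Real.log ((m : ℝ) + 1) with hA
  have hA2 : A ^ 2 = 4 * ((E.card : ℝ) ^ 2 * Real.log ((m : ℝ) + 1) ^ 2) := by
    rw [hA]; ring
  have key : (lq g - lq g') ^ 2 ≤ (A + Real.log (SS g) + Real.log (SS g')) ^ 2 := by
    apply sq_le_sq'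
    · linarith
    · linarith
  nlinarith [sq_nonneg (A - Real.log (SS g)), sq_nonneg (A - Real.log (SS g')),
    sq_nonneg (Real.log (SS g) - Real.log (SS g'))]

omit [DecidableEq G] in
theorem wp_succ (g : Fin (m + 1) → G) :
    wp g = wp (fun j : Fin m => g j.castSucc) * g (Fin.last m) := by
  unfold wp
  rw [List.ofFn_succ_last, List.prod_append]
  simp

/-- rearrangements of `m + 1` letters that keep the last one in place -/
theorem rearrE_last_le (g : Fin (m + 1) → G) :
    rearrE {Fin.last m} g ≤ rearr (fun j : Fin m => g j.castSucc) := by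
  rw [rearr_eq]
  unfold rearrE
  apply Finset.card_le_card_of_surjOn
    (fun t : Equiv.Perm (Fin m) =>
      (Equiv.ofBijective (nx t) (Finite.injective_iff_bijective.mp (nx_inj t)) :
        Equiv.Perm (Fin (m + 1))))
  intro s hs
  rw [Finset.mem_coe, Finset.mem_filter] at hs
  obtain ⟨_, h1, h2⟩ := hs
  have h3 := h1 (Fin.last m) (Finset.mem_singleton_self _)
  unfold scc at h3
  rw [Fin.succ_last] at h3
  have h4 := nx_inj s (h3.trans (nx_last s).symm)
  rw [← Fin.succ_last] at h4
  have h5 : s (Fin.last m) = Fin.last m := by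
    have h6 := Fin.succ_injective _ h4
    exact ((Equiv.symm_apply_eq s).mp h6).symm
  have hne : ∀ j : Fin m, s j.castSucc ≠ Fin.last m := by
    intro j hc
    exact (Fin.castSucc_lt_last j).ne (s.injective (hc.trans h5.symm))
  have hinj : Function.Injective (fun j : Fin m => (s j.castSucc).castPred (hne j)) := by
    intro a b hab
    have h7 := congrArg Fin.castSucc hab
    simp only [Fin.castSucc_castPred] at h7
    exact Fin.castSucc_injective _ (s.injective h7)
  refine ⟨Equiv.ofBijective _ (Finite.injective_iff_bijective.mp hinj), ?_, ?_⟩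
  · rw [Finset.mem_coe, Finset.mem_filter]
    refine ⟨Finset.mem_univ _, ?_⟩
    rw [wp_succ (fun j => g (s j)), wp_succ g, h5] at h2
    have h8 := mul_right_cancel h2
    rw [← h8]
    simp only [Equiv.ofBijective_apply, Fin.castSucc_castPred]
  · apply Equiv.ext
    intro p
    simp only [Equiv.ofBijective_apply]
    induction p using Fin.lastCases with
    | last => rw [nx_last, h5]
    | cast j =>
      rw [nx_castSucc]
      simp only [Equiv.ofBijective_apply, Fin.castSucc_castPred]

end Pool.Agent.Lib.MP_d87a8f_pr.U
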