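import Mathlib
import Pool.Agent.Lib.MP_d87a8f_pr.U.Adj

/-!
Exchangeability: the partition lemma, the mean of the control sum and the drift.
-/

namespace Pool.Agent.Lib.MP_d87a8f_pr.U

open Finset

variable {G : Type} [Group G] [DecidableEq G] {k m : ℕ}

/-- (P) -/
theorem partition_le {P X L : Type} [Fintype P] [DecidableEq X] [Fintype L] [DecidableEq L]
    (x : P → X) (lab : P → L) :
    ∑ p, ((univ.filter (fun q => x q = x p)).card : ℝ) /
        (univ.filter (fun q => lab q = lab p ∧ x q = x p)).card ≤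
      (Fintype.card P : ℝ) * Fintype.card L := by
  have key : ∀ q : P, ∑ p ∈ univ.filter (fun p => x q = x p),
      (1 : ℝ) / (univ.filter (fun r => lab r = lab p ∧ x r = x p)).card ≤ Fintype.card L := by
    intro q
    rw [← Finset.sum_fiberwise (univ.filter (fun p => x q = x p)) lab]
    refine le_trans (Finset.sum_le_sum (g := fun _ => (1 : ℝ)) (fun l _ => ?_)) (by simp)
    have hA : ∀ p ∈ (univ.filter (fun p => x q = x p)).filter (fun p => lab p = l),
        (1 : ℝ) / (univ.filter (fun r => lab r = lab p ∧ x r = x p)).card =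
          1 / ((univ.filter (fun p => x q = x p)).filter (fun p => lab p = l)).card := by
      intro p hp
      simp only [mem_filter, mem_univ, true_and] at hp
      have : univ.filter (fun r => lab r = lab p ∧ x r = x p) =
          (univ.filter (fun p => x q = x p)).filter (fun p => lab p = l) := by
        ext r
        simp only [mem_filter, mem_univ, true_and, hp.1, hp.2]
        exact ⟨fun h => ⟨h.2.symm, h.1⟩, fun h => ⟨h.2, h.1.symm⟩⟩
      rw [this]
    rw [Finset.sum_congr rfl hA, Finset.sum_const, nsmul_eq_mul, mul_one_div]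
    exact div_self_le_one _
  have h1 : ∀ p : P, ((univ.filter (fun q => x q = x p)).card : ℝ) /
        (univ.filter (fun q => lab q = lab p ∧ x q = x p)).card =
      ∑ q, if x q = x p then
        (1 : ℝ) / (univ.filter (fun r => lab r = lab p ∧ x r = x p)).card else 0 := by
    intro p
    rw [← Finset.sum_filter, Finset.sum_const, nsmul_eq_mul, mul_one_div]
  rw [Finset.sum_congr rfl (fun p _ => h1 p), Finset.sum_comm]
  refine le_trans (Finset.sum_le_sum (g := fun _ => (Fintype.card L : ℝ)) (fun q _ => ?_))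
    (by simp)
  rw [← Finset.sum_filter]
  exact key q

theorem rearr_comp (g : Fin m → G) (t : Equiv.Perm (Fin m)) :
    rearr (fun j => g (t j)) = (univ.filter (fun s : Equiv.Perm (Fin m) =>
      wp (fun j => g (s j)) = wp (fun j => g (t j)))).card := by
  rw [rearr_eq]
  refine Finset.card_equiv (Equiv.mulLeft t) (fun s => ?_)
  simp only [mem_filter, mem_univ, true_and, Equiv.coe_mulLeft, Equiv.Perm.coe_mul,
    Function.comp_apply]

theorem rearrE_comp (E : Finset (Fin m)) (g : Fin m → G) (t : Equiv.Perm (Fin m)) :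
    rearrE E (fun j => g (t j)) = (univ.filter (fun s : Equiv.Perm (Fin m) =>
      (∀ a ∈ E.map t.toEmbedding, scc s a = scc t a) ∧
        wp (fun j => g (s j)) = wp (fun j => g (t j)))).card := by
  unfold rearrE
  refine Finset.card_equiv (Equiv.mulLeft t) (fun s => ?_)
  have hs : ∀ j, scc (t * s) (t j) = scc t (t j) ↔ scc s j = j.succ := by
    intro j
    have e1 : (t * s).symm (t j) = s.symm j := by
      rw [Equiv.symm_apply_eq]; simp
    unfold scc
    rw [e1, nx_mul, Equiv.symm_apply_apply]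
    exact (nx_inj t).eq_iff
  simp only [mem_filter, mem_univ, true_and, Equiv.coe_mulLeft, Equiv.Perm.coe_mul,
    Function.comp_apply, Finset.forall_mem_map, Equiv.coe_toEmbedding, hs]

/-- (E2): reindex `E` by its image, labels are the successors on the image -/
theorem sum_perm_SS (g : Fin m → G) :
    ∑ t : Equiv.Perm (Fin m), SS (fun j => g (t j)) ≤ 3 * (m.factorial : ℝ) := by
  have hm : (0 : ℝ) < (m : ℝ) + 1 := by positivity
  have h1 : ∀ t : Equiv.Perm (Fin m), SS (fun j => g (t j)) =
      ∑ F : Finset (Fin m), (((univ.filter (fun s : Equiv.Perm (Fin m) =>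
        wp (fun j => g (s j)) = wp (fun j => g (t j)))).card : ℝ) /
        (univ.filter (fun s : Equiv.Perm (Fin m) =>
          (fun a : F => scc s a) = (fun a : F => scc t a) ∧
            wp (fun j => g (s j)) = wp (fun j => g (t j)))).card) /
        ((m : ℝ) + 1) ^ (2 * F.card) := by
    intro t
    unfold SS
    refine Fintype.sum_equiv (Equiv.finsetCongr t) _ _ (fun E => ?_)
    rw [rearr_comp, rearrE_comp, Equiv.finsetCongr_apply, Finset.card_map]
    simp only [funext_iff, Subtype.forall]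
  rw [Finset.sum_congr rfl (fun t _ => h1 t), Finset.sum_comm]
  have h2 : ∀ F : Finset (Fin m), ∑ t : Equiv.Perm (Fin m),
      (((univ.filter (fun s : Equiv.Perm (Fin m) =>
        wp (fun j => g (s j)) = wp (fun j => g (t j)))).card : ℝ) /
        (univ.filter (fun s : Equiv.Perm (Fin m) =>
          (fun a : F => scc s a) = (fun a : F => scc t a) ∧
            wp (fun j => g (s j)) = wp (fun j => g (t j)))).card) /
        ((m : ℝ) + 1) ^ (2 * F.card) ≤ (m.factorial : ℝ) * (1 / ((m : ℝ) + 1)) ^ F.card := by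
    intro F
    rw [← Finset.sum_div, div_le_iff₀ (by positivity)]
    refine le_trans (partition_le (fun s : Equiv.Perm (Fin m) => wp (fun j => g (s j)))
      (fun s => fun a : F => scc s a)) (le_of_eq ?_)
    rw [Fintype.card_perm, Fintype.card_fin, Fintype.card_fun, Fintype.card_fin,
      Fintype.card_coe, two_mul, pow_add, mul_assoc, ← mul_assoc (_ ^ _), ← mul_pow,
      one_div_mul_cancel hm.ne', one_pow, one_mul]
    push_cast
    rfl
  refine le_trans (Finset.sum_le_sum (fun F _ => h2 F)) ?_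
  rw [← Finset.mul_sum, mul_comm]
  refine mul_le_mul_of_nonneg_right ?_ (Nat.cast_nonneg _)
  have h3 := Fintype.sum_pow_mul_eq_add_pow (Fin m) (1 / ((m : ℝ) + 1)) 1
  simp only [one_pow, mul_one, Fintype.card_fin] at h3
  rw [h3]
  have h4 : (1 / ((m : ℝ) + 1) + 1) ^ m ≤ Real.exp (1 / ((m : ℝ) + 1)) ^ m :=
    pow_le_pow_left₀ (by positivity) (Real.add_one_le_exp _) m
  rw [← Real.exp_nat_mul] at h4
  have h5 : (m : ℝ) * (1 / ((m : ℝ) + 1)) ≤ 1 := by
    rw [mul_one_div, div_le_one hm]; linarith
  have h6 := Real.exp_one_lt_d9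
  linarith [Real.exp_le_exp.mpr h5]

/-- label: the last letter -/
theorem sum_perm_last (g : Fin (m + 1) → G) :
    ∑ t : Equiv.Perm (Fin (m + 1)),
      (rearr (fun j => g (t j)) : ℝ) / rearrE {Fin.last m} (fun j => g (t j)) ≤
      ((m + 1).factorial : ℝ) * (m + 1) := by
  have hl : ∀ s : Equiv.Perm (Fin (m + 1)), nx s (Fin.last m).succ = Fin.last (m + 1) := by
    intro s
    unfold nx
    rw [dif_neg (by simp)]
  have hs : ∀ s t : Equiv.Perm (Fin (m + 1)),
      scc s (t (Fin.last m)) = scc t (t (Fin.last m)) ↔ s (Fin.last m) = t (Fin.last m) := by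
    intro s t
    unfold scc
    rw [Equiv.symm_apply_apply, hl t, ← hl s, (nx_inj s).eq_iff, Fin.succ_inj,
      Equiv.symm_apply_eq, eq_comm]
  have h := partition_le (fun s : Equiv.Perm (Fin (m + 1)) => wp (fun j => g (s j)))
    (fun s => s (Fin.last m))
  rw [Fintype.card_perm, Fintype.card_fin, Nat.cast_succ] at h
  refine le_trans (le_of_eq (Finset.sum_congr rfl (fun t _ => ?_))) h
  rw [rearr_comp, rearrE_comp]
  simp only [Finset.map_singleton, Finset.mem_singleton, forall_eq, Equiv.coe_toEmbedding, hs]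

variable [Fintype G]

/-- the law of the steps is exchangeable -/
theorem av_exch (f : (Fin m → G) → ℝ) (c : ℝ) (hc : 0 ≤ c)
    (h : ∀ g : Fin m → G, ∑ t : Equiv.Perm (Fin m), f (fun j => g (t j)) ≤ (m.factorial : ℝ) * c) :
    av (fun p : (Fin m → Fin k) × (Fin k → G) => f (gw p.1 p.2)) ≤ c := by
  have hm : (0 : ℝ) < m.factorial := by exact_mod_cast m.factorial_pos
  have h1 : ∀ t : Equiv.Perm (Fin m),
      av (fun p : (Fin m → Fin k) × (Fin k → G) => f (fun j => gw p.1 p.2 (t j))) =
        av (fun p : (Fin m → Fin k) × (Fin k → G) => f (gw p.1 p.2)) := fun t =>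
    av_equiv ((Equiv.arrowCongr t.symm (Equiv.refl (Fin k))).prodCongr (Equiv.refl (Fin k → G)))
      (fun p : (Fin m → Fin k) × (Fin k → G) => f (gw p.1 p.2))
  have h2 : (m.factorial : ℝ) * av (fun p : (Fin m → Fin k) × (Fin k → G) => f (gw p.1 p.2)) ≤
      (m.factorial : ℝ) * c := by
    calc _ = ∑ t : Equiv.Perm (Fin m),
          av (fun p : (Fin m → Fin k) × (Fin k → G) => f (fun j => gw p.1 p.2 (t j))) := by
          rw [Finset.sum_congr rfl (fun t _ => h1 t), Finset.sum_const, Finset.card_univ,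
            Fintype.card_perm, Fintype.card_fin, nsmul_eq_mul]
      _ = av (fun p : (Fin m → Fin k) × (Fin k → G) =>
          ∑ t : Equiv.Perm (Fin m), f (fun j => gw p.1 p.2 (t j))) := (av_sum _ _).symm
      _ ≤ _ := (av_mono (fun p => h _)).trans (av_const_le (mul_nonneg hm.le hc))
  exact le_of_mul_le_mul_left h2 hm

theorem av_SS : av (fun p : (Fin m → Fin k) × (Fin k → G) => SS (gw p.1 p.2)) ≤ 3 :=
  av_exch _ 3 (by norm_num) (fun g => by rw [mul_comm]; exact sum_perm_SS g)

theorem meanLog_eq :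
    meanLog G k m = av (fun p : (Fin m → Fin k) × (Fin k → G) => lq (gw p.1 p.2)) := by
  unfold meanLog av
  rw [Fintype.sum_prod_type, Fintype.card_prod, Fintype.card_fun, Fintype.card_fun,
    Fintype.card_fin, Fintype.card_fin]
  push_cast
  rfl

theorem meanLog_nonneg : 0 ≤ meanLog G k m := by
  rw [meanLog_eq]; exact av_nonneg (fun p => lq_nonneg _)

theorem meanLog_le : meanLog G k m ≤ m * Real.log m := by
  rw [meanLog_eq]
  exact (av_mono (fun p => lq_le _)).trans
    (av_const_le (mul_nonneg (Nat.cast_nonneg _) (Real.log_natCast_nonneg _)))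

theorem av_init (hk : 0 < k) (F : (Fin m → Fin k) → ℝ) :
    av (fun w : Fin (m + 1) → Fin k => F (fun j => w j.castSucc)) = av F := by
  haveI : Nonempty (Fin k) := ⟨⟨0, hk⟩⟩
  rw [← av_equiv (Fin.snocEquiv (fun _ => Fin k)), av_prod]
  simp only [Fin.snocEquiv_apply, Fin.snoc_castSucc]
  exact av_const _

omit [Fintype G] in
theorem lq_succ_le (g : Fin (m + 1) → G) :
    lq g ≤ lq (fun j : Fin m => g j.castSucc) + (Real.log ((m : ℝ) + 1) - 1) +
      ((m : ℝ) + 1)⁻¹ * ((rearr g : ℝ) / rearrE {Fin.last m} g) := by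
  have h1 : (0 : ℝ) < rearrE {Fin.last m} g := by exact_mod_cast rearrE_pos _ g
  have h2 : (0 : ℝ) < rearr g := by exact_mod_cast rearr_pos g
  have h3 : (0 : ℝ) < (m : ℝ) + 1 := by positivity
  have h4 : Real.log (rearrE {Fin.last m} g) ≤ lq (fun j : Fin m => g j.castSucc) :=
    Real.log_le_log h1 (by exact_mod_cast rearrE_last_le g)
  have h5 := Real.log_le_sub_one_of_pos
    (mul_pos (inv_pos.mpr h3) (div_pos h2 h1))
  rw [Real.log_mul (inv_pos.mpr h3).ne' (div_pos h2 h1).ne', Real.log_inv,
    Real.log_div h2.ne' h1.ne'] at h5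
  unfold lq at h4 ⊢
  linarith

/-- (D) -/
theorem meanLog_succ (hk : 0 < k) :
    meanLog G k (m + 1) ≤ meanLog G k m + Real.log ((m : ℝ) + 1) := by
  haveI : Nonempty (Fin k) := ⟨⟨0, hk⟩⟩
  have h3 : (0 : ℝ) < (m : ℝ) + 1 := by positivity
  have h1 : av (fun p : (Fin (m + 1) → Fin k) × (Fin k → G) =>
      (rearr (gw p.1 p.2) : ℝ) / rearrE {Fin.last m} (gw p.1 p.2)) ≤ (m : ℝ) + 1 :=
    av_exch (fun g => (rearr g : ℝ) / rearrE {Fin.last m} g) _ h3.le sum_perm_last
  have h2 : av (fun p : (Fin (m + 1) → Fin k) × (Fin k → G) =>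
      lq (fun j : Fin m => gw p.1 p.2 j.castSucc)) = meanLog G k m := by
    rw [meanLog_eq, av_prod', av_prod']
    exact congrArg av (funext fun Z => av_init hk (fun w => lq (gw w Z)))
  rw [meanLog_eq (m := m + 1)]
  refine (av_mono (fun p => lq_succ_le _)).trans ?_
  rw [av_add, av_add, av_mul_left, av_const, h2]
  have h4 := mul_le_mul_of_nonneg_left h1 (inv_pos.mpr h3).le
  rw [inv_mul_cancel₀ h3.ne'] at h4
  linarith

/-- iterated drift -/
theorem meanLog_add (hk : 0 < k) (d : ℕ) :
    meanLog G k (m + d) ≤ meanLog G k m + d * Real.log ((m + d : ℕ) : ℝ) := by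
  induction d with
  | zero => simp
  | succ d ih =>
    have h1 := meanLog_succ (G := G) (m := m + d) hk
    have h2 : Real.log ((m + d : ℕ) : ℝ) ≤ Real.log ((m + (d + 1) : ℕ) : ℝ) := by
      rcases Nat.eq_zero_or_pos (m + d) with h | h
      · rw [h, Nat.cast_zero, Real.log_zero]; exact Real.log_natCast_nonneg _
      · exact Real.log_le_log (by exact_mod_cast h) (by exact_mod_cast (by omega))
    have h3 : (((m + d : ℕ) : ℝ) + 1) = ((m + (d + 1) : ℕ) : ℝ) := by push_cast; ring
    rw [h3] at h1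
    have h4 := mul_le_mul_of_nonneg_left h2 (Nat.cast_nonneg d : (0 : ℝ) ≤ d)
    have h5 : ((d + 1 : ℕ) : ℝ) = (d : ℝ) + 1 := by push_cast; ring
    rw [h5, ← Nat.add_assoc]
    rw [← Nat.add_assoc] at h1 h4
    linarith

end Pool.Agent.Lib.MP_d87a8f_pr.U
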