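import Mathlib
import Pool.Agent.Lib.MP_d87a8f_pr.U.Av

/-!
Random words: multiplicities, collisions, runs of repeated letters.
-/

namespace Pool.Agent.Lib.MP_d87a8f_pr.U

open Finset

variable {k m : ℕ}

/-- number of positions carrying the letter `a` -/
def mult (w : Fin m → Fin k) (a : Fin k) : ℕ := (univ.filter (fun j => w j = a)).card

/-- number of ordered pairs of distinct positions with equal letters -/
def rho (w : Fin m → Fin k) : ℝ := ∑ i, ((mult w (w i) : ℝ) - 1)

/-- the letter at position `j` occurs nowhere else -/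
def single (w : Fin m → Fin k) (j : Fin m) : Prop := ∀ i, w i = w j → i = j

instance (w : Fin m → Fin k) : DecidablePred (single w) := fun j => by
  unfold single; infer_instance

/-- there are `l` consecutive positions none of which is single -/
def Run (w : Fin m → Fin k) (l : ℕ) : Prop :=
  ∃ s : ℕ, s + l ≤ m ∧ ∀ j : Fin m, s ≤ j.val → j.val < s + l → ¬ single w j

theorem one_le_mult (w : Fin m → Fin k) (i : Fin m) : 1 ≤ mult w (w i) :=
  Finset.card_pos.2 ⟨i, by simp⟩

theorem rho_nonneg (w : Fin m → Fin k) : 0 ≤ rho w := by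
  refine Finset.sum_nonneg (fun i _ => ?_)
  have : (1 : ℝ) ≤ mult w (w i) := by exact_mod_cast one_le_mult w i
  linarith

theorem sum_mult_sq (w : Fin m → Fin k) : ∑ a, (mult w a : ℝ) ^ 2 = m + rho w := by
  have h1 : ∑ i, (mult w (w i) : ℝ) = ∑ a, (mult w a : ℝ) ^ 2 := by
    rw [← Finset.sum_fiberwise univ w (fun i => (mult w (w i) : ℝ))]
    refine Finset.sum_congr rfl (fun a _ => ?_)
    rw [Finset.sum_congr rfl (g := fun _ => (mult w a : ℝ))
      (fun i hi => by rw [(Finset.mem_filter.1 hi).2]), Finset.sum_const, nsmul_eq_mul, sq]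
    rfl
  rw [← h1, rho, Finset.sum_sub_distrib]
  simp

theorem card_eq_mul_le {i j : Fin m} (h : j ≠ i) :
    (univ.filter (fun w : Fin m → Fin k => w j = w i)).card * k ≤ k ^ m := by
  have h1 := Finset.card_le_card_of_injOn
    (s := (univ.filter (fun w : Fin m → Fin k => w j = w i)) ×ˢ (univ : Finset (Fin k)))
    (t := (univ : Finset (Fin m → Fin k))) (fun p => Function.update p.1 j p.2)
    (fun _ _ => Finset.mem_coe.2 (Finset.mem_univ _)) (by
      rintro ⟨w, a⟩ hw ⟨w', a'⟩ hw' he
      have hw1 : w j = w i := (Finset.mem_filter.1 (Finset.mem_product.1 hw).1).2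
      have hw2 : w' j = w' i := (Finset.mem_filter.1 (Finset.mem_product.1 hw').1).2
      have he' : ∀ x, Function.update w j a x = Function.update w' j a' x := fun x => congrFun he x
      have hx : ∀ x, x ≠ j → w x = w' x := fun x hx => by
        have := he' x
        rwa [Function.update_of_ne hx, Function.update_of_ne hx] at this
      refine Prod.ext (funext fun x => ?_) ?_
      · by_cases hxj : x = j
        · subst hxj
          exact hw1.trans ((hx i h.symm).trans hw2.symm)
        · exact hx x hxj
      · have := he' j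
        rwa [Function.update_self, Function.update_self] at this)
  simpa using h1

theorem av_rho (hk : 0 < k) : av (fun w : Fin m → Fin k => rho w) ≤ (m : ℝ) ^ 2 / k := by
  have hk' : (0 : ℝ) < k := by exact_mod_cast hk
  have h1 : ∀ w : Fin m → Fin k, rho w = ∑ i, ∑ j ∈ univ.erase i, ind (w j = w i) := by
    intro w
    refine Finset.sum_congr rfl (fun i _ => ?_)
    have h := Finset.add_sum_erase univ (fun j => ind (w j = w i)) (Finset.mem_univ i)
    rw [sum_ind (fun j => w j = w i), ind_pos rfl] at h
    unfold mult
    linarith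
  have h2 : ∑ w : Fin m → Fin k, rho w ≤ (m : ℝ) ^ 2 * ((k : ℝ) ^ m / k) := by
    simp only [h1]
    rw [Finset.sum_comm]
    calc ∑ i : Fin m, ∑ w : Fin m → Fin k, ∑ j ∈ univ.erase i, ind (w j = w i)
        ≤ ∑ _i : Fin m, (m : ℝ) * ((k : ℝ) ^ m / k) := by
          refine Finset.sum_le_sum (fun i _ => ?_)
          rw [Finset.sum_comm]
          calc ∑ j ∈ univ.erase i, ∑ w : Fin m → Fin k, ind (w j = w i)
              ≤ ∑ _j ∈ univ.erase i, (k : ℝ) ^ m / k := by
                refine Finset.sum_le_sum (fun j hj => ?_)
                rw [sum_ind (fun w : Fin m → Fin k => w j = w i), le_div_iff₀ hk']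
                exact_mod_cast card_eq_mul_le (Finset.ne_of_mem_erase hj)
            _ ≤ (m : ℝ) * ((k : ℝ) ^ m / k) := by
                rw [Finset.sum_const, nsmul_eq_mul]
                refine mul_le_mul_of_nonneg_right ?_ (by positivity)
                have : (univ.erase i).card ≤ m := by
                  simpa using Finset.card_le_univ (univ.erase i)
                exact_mod_cast this
      _ = (m : ℝ) ^ 2 * ((k : ℝ) ^ m / k) := by
          rw [Finset.sum_const, nsmul_eq_mul, Finset.card_univ, Fintype.card_fin]; ring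
  have h3 : (Fintype.card (Fin m → Fin k) : ℝ) = (k : ℝ) ^ m := by simp
  unfold av
  rw [h3, div_le_iff₀ (by positivity)]
  calc _ ≤ _ := h2
    _ = (m : ℝ) ^ 2 / k * (k : ℝ) ^ m := by ring

theorem card_not_single_le (w : Fin m → Fin k) :
    ((univ.filter (fun j => ¬ single w j)).card : ℝ) ≤ rho w := by
  rw [← sum_ind]
  refine Finset.sum_le_sum (fun j _ => ?_)
  by_cases h : single w j
  · rw [ind_neg (not_not.2 h)]
    have : (1 : ℝ) ≤ mult w (w j) := by exact_mod_cast one_le_mult w j
    linarith
  · rw [ind_pos h]
    unfold single at h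
    push Not at h
    obtain ⟨i, hi, hij⟩ := h
    have h2 : 1 < mult w (w j) := Finset.one_lt_card.2 ⟨i, by simp [hi], j, by simp, hij⟩
    have : (2 : ℝ) ≤ mult w (w j) := by exact_mod_cast h2
    linarith

/-- a permutation fixing the word sends each position into its class; use `log x ≤ x - 1` -/
theorem stab_le (w : Fin m → Fin k) :
    ((univ.filter (fun s : Equiv.Perm (Fin m) => (fun j => w (s j)) = w)).card : ℝ) ≤
      Real.exp (rho w) := by
  have h1 := Finset.card_le_card_of_injOn
    (s := univ.filter (fun s : Equiv.Perm (Fin m) => (fun j => w (s j)) = w))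
    (t := Fintype.piFinset (fun i => univ.filter (fun j => w j = w i))) (fun s i => s i)
    (fun s hs => Finset.mem_coe.2 (Fintype.mem_piFinset.2 fun i =>
      Finset.mem_filter.2 ⟨Finset.mem_univ _, congrFun (Finset.mem_filter.1 hs).2 i⟩))
    (fun s _ t _ h => Equiv.ext fun i => congrFun h i)
  rw [Fintype.card_piFinset] at h1
  have h2 : ((univ.filter (fun s : Equiv.Perm (Fin m) => (fun j => w (s j)) = w)).card : ℝ) ≤
      ∏ i, (mult w (w i) : ℝ) := by exact_mod_cast h1
  refine h2.trans ?_
  rw [rho, Real.exp_sum]
  refine Finset.prod_le_prod (fun i _ => Nat.cast_nonneg _) (fun i _ => ?_)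
  linarith [Real.add_one_le_exp ((mult w (w i) : ℝ) - 1)]

/-- words in which every position of `P` has a twin of smaller rank: code the word by the letters
off `P` and by pointers on `P` -/
theorem card_twin_le (P : Finset (Fin m)) (φ : Fin m → ℕ) :
    (univ.filter (fun w : Fin m → Fin k => ∀ j ∈ P, ∃ i, φ i < φ j ∧ w i = w j)).card ≤
      k ^ (m - P.card) * m ^ P.card := by
  classical
  let ptr : (Fin m → Fin k) → Fin m → Fin m := fun w j =>
    if h : ∃ i, φ i < φ j ∧ w i = w j then h.choose else j
  have hptr : ∀ (w : Fin m → Fin k) (j : Fin m), (∃ i, φ i < φ j ∧ w i = w j) →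
      φ (ptr w j) < φ j ∧ w (ptr w j) = w j := by
    intro w j h
    have e : ptr w j = h.choose := dif_pos h
    rw [e]; exact h.choose_spec
  let code : (Fin m → Fin k) → ({j // j ∈ Pᶜ} → Fin k) × ({j // j ∈ P} → Fin m) :=
    fun w => (fun j => w j.1, fun j => ptr w j.1)
  have hc : Fintype.card (({j // j ∈ Pᶜ} → Fin k) × ({j // j ∈ P} → Fin m)) =
      k ^ (m - P.card) * m ^ P.card := by
    rw [Fintype.card_prod, Fintype.card_fun, Fintype.card_fun, Fintype.card_coe,
      Fintype.card_coe, Finset.card_compl, Fintype.card_fin, Fintype.card_fin]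
  rw [← hc, ← Finset.card_univ]
  refine Finset.card_le_card_of_injOn code (fun _ _ => Finset.mem_coe.mpr (Finset.mem_univ _)) ?_
  intro w hw w' hw' he
  have hw1 := (Finset.mem_filter.mp (Finset.mem_coe.mp hw)).2
  have hw2 := (Finset.mem_filter.mp (Finset.mem_coe.mp hw')).2
  have h1 : ∀ j, j ∉ P → w j = w' j := fun j hj =>
    congrFun (congrArg Prod.fst he) ⟨j, Finset.mem_compl.mpr hj⟩
  have h2 : ∀ j, j ∈ P → ptr w j = ptr w' j := fun j hj =>
    congrFun (congrArg Prod.snd he) ⟨j, hj⟩
  have key : ∀ n : ℕ, ∀ j, φ j < n → w j = w' j := by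
    intro n
    induction n with
    | zero => intro j hj; omega
    | succ n ih =>
      intro j hj
      by_cases hP : j ∈ P
      · obtain ⟨a1, a2⟩ := hptr w j (hw1 j hP)
        obtain ⟨_, b2⟩ := hptr w' j (hw2 j hP)
        rw [← a2, ← b2, ← h2 j hP]
        exact ih _ (by omega)
      · exact h1 j hP
  exact funext (fun j => key (φ j + 1) j (Nat.lt_succ_self _))

theorem av_twin_le (hk : 0 < k) (hm : 16 * m ≤ k) (P : Finset (Fin m)) (φ : Fin m → ℕ) :
    av (fun w : Fin m → Fin k => ind (∀ j ∈ P, ∃ i, φ i < φ j ∧ w i = w j)) ≤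
      1 / 16 ^ P.card := by
  have hP : P.card ≤ m := by
    have := Finset.card_le_univ P
    rwa [Fintype.card_fin] at this
  have hk' : (0 : ℝ) < k := Nat.cast_pos.mpr hk
  have h1 : k ^ (m - P.card) * m ^ P.card * 16 ^ P.card ≤ k ^ m := by
    have e : k ^ m = k ^ (m - P.card) * k ^ P.card := by
      rw [← pow_add, Nat.sub_add_cancel hP]
    rw [e, mul_assoc, ← mul_pow]
    exact Nat.mul_le_mul_left _ (Nat.pow_le_pow_left (by omega) _)
  have h2 := le_trans (Nat.mul_le_mul_right (16 ^ P.card) (card_twin_le (k := k) P φ)) h1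
  unfold av
  rw [sum_ind, Fintype.card_fun, Fintype.card_fin, Fintype.card_fin,
    div_le_div_iff₀ (by positivity) (by positivity), one_mul]
  exact_mod_cast h2

/-- half of a run has an earlier twin, or half of it has a later twin -/
theorem av_run (hk : 0 < k) (hm : 16 * m ≤ k) (h : ℕ) :
    av (fun w : Fin m → Fin k => ind (Run w (2 * h))) ≤ 2 * ((m : ℝ) + 1) / 4 ^ h := by
  classical
  let I : ℕ → Finset (Fin m) := fun s => univ.filter (fun j => s ≤ j.val ∧ j.val < s + 2 * h)
  have hIle : ∀ s, (I s).card ≤ 2 * h := by
    intro s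
    have : (I s).card ≤ (Finset.Ico s (s + 2 * h)).card := by
      refine Finset.card_le_card_of_injOn (fun j => j.val) (fun j hj => ?_) ?_
      · exact Finset.mem_coe.mpr (Finset.mem_Ico.mpr
          (Finset.mem_filter.mp (Finset.mem_coe.mp hj)).2)
      · intro a _ b _ hab; exact Fin.ext hab
    rw [Nat.card_Ico] at this; omega
  have hIge : ∀ s, s + 2 * h ≤ m → 2 * h ≤ (I s).card := by
    intro s hs
    have : (univ : Finset (Fin (2 * h))).card ≤ (I s).card := by
      refine Finset.card_le_card_of_injOn (fun t => ⟨s + t.val, by omega⟩) (fun t _ => ?_) ?_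
      · refine Finset.mem_coe.mpr (Finset.mem_filter.mpr ⟨Finset.mem_univ _, ?_, ?_⟩)
        · show s ≤ s + t.val
          omega
        · show s + t.val < s + 2 * h
          omega
      · intro a _ b _ hab
        have h3 : s + a.val = s + b.val := congrArg Fin.val hab
        exact Fin.ext (by omega)
    rwa [Finset.card_univ, Fintype.card_fin] at this
  let T : (Fin m → ℕ) → Finset (Fin m) → (Fin m → Fin k) → ℝ := fun φ P w =>
    ind (∀ j ∈ P, ∃ i, φ i < φ j ∧ w i = w j)
  have hT : ∀ φ P w, 0 ≤ T φ P w := fun _ _ _ => ind_nonneg _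
  have hpt : ∀ w : Fin m → Fin k, ind (Run w (2 * h)) ≤
      ∑ s ∈ range (m + 1), ∑ P ∈ powersetCard h (I s),
        (T (fun j => j.val) P w + T (fun j => m - j.val) P w) := by
    intro w
    have hnn : ∀ P, 0 ≤ T (fun j => j.val) P w + T (fun j => m - j.val) P w :=
      fun P => add_nonneg (hT _ _ _) (hT _ _ _)
    by_cases hr : Run w (2 * h)
    · rw [ind_pos hr]
      obtain ⟨s, hs, hrun⟩ := hr
      have hex : ∃ P ∈ powersetCard h (I s),
          1 ≤ T (fun j => j.val) P w + T (fun j => m - j.val) P w := by
        have hsplit := Finset.card_filter_add_card_filter_not (s := I s)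
          (fun j : Fin m => ∃ i : Fin m, i.val < j.val ∧ w i = w j)
        have hge := hIge s hs
        by_cases hA : h ≤ ((I s).filter
            (fun j : Fin m => ∃ i : Fin m, i.val < j.val ∧ w i = w j)).card
        · obtain ⟨P, hP1, hP2⟩ := Finset.exists_subset_card_eq hA
          refine ⟨P, Finset.mem_powersetCard.mpr
            ⟨hP1.trans (Finset.filter_subset _ _), hP2⟩, ?_⟩
          have e : T (fun j => j.val) P w = 1 :=
            ind_pos (fun j hj => (Finset.mem_filter.mp (hP1 hj)).2)
          rw [e]; linarith [hT (fun j => m - j.val) P w]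
        · have hB : h ≤ ((I s).filter
              (fun j : Fin m => ¬ ∃ i : Fin m, i.val < j.val ∧ w i = w j)).card := by omega
          obtain ⟨P, hP1, hP2⟩ := Finset.exists_subset_card_eq hB
          refine ⟨P, Finset.mem_powersetCard.mpr
            ⟨hP1.trans (Finset.filter_subset _ _), hP2⟩, ?_⟩
          have e : T (fun j => m - j.val) P w = 1 := by
            refine ind_pos (fun j hj => ?_)
            obtain ⟨hj1, hj2⟩ := Finset.mem_filter.mp (hP1 hj)
            obtain ⟨hj3, hj4⟩ := (Finset.mem_filter.mp hj1).2
            have hns := hrun j hj3 hj4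
            unfold single at hns
            push Not at hns
            obtain ⟨i, hi1, hi2⟩ := hns
            refine ⟨i, ?_, hi1⟩
            have a1 : ¬ i.val < j.val := fun hlt => hj2 ⟨i, hlt, hi1⟩
            have a2 : i.val ≠ j.val := fun heq => hi2 (Fin.ext heq)
            have a3 := i.isLt
            show m - i.val < m - j.val
            omega
          rw [e]; linarith [hT (fun j => j.val) P w]
      obtain ⟨P, hP, h1⟩ := hex
      refine h1.trans (le_trans (Finset.single_le_sum (f := fun P =>
        T (fun j => j.val) P w + T (fun j => m - j.val) P w) (fun P _ => hnn P) hP) ?_)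
      exact Finset.single_le_sum (f := fun s => ∑ P ∈ powersetCard h (I s),
        (T (fun j => j.val) P w + T (fun j => m - j.val) P w))
        (fun s _ => Finset.sum_nonneg (fun P _ => hnn P)) (Finset.mem_range.mpr (by omega))
    · rw [ind_neg hr]
      exact Finset.sum_nonneg (fun s _ => Finset.sum_nonneg (fun P _ => hnn P))
  refine (av_mono hpt).trans ?_
  rw [av_sum]
  have hs : ∀ s ∈ range (m + 1), av (fun w : Fin m → Fin k => ∑ P ∈ powersetCard h (I s),
      (T (fun j => j.val) P w + T (fun j => m - j.val) P w)) ≤ 2 / 4 ^ h := by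
    intro s _
    rw [av_sum]
    have h1 : ∀ P ∈ powersetCard h (I s), av (fun w : Fin m → Fin k =>
        T (fun j => j.val) P w + T (fun j => m - j.val) P w) ≤ 2 / 16 ^ h := by
      intro P hP
      have hc := (Finset.mem_powersetCard.mp hP).2
      have a1 := av_twin_le hk hm P (fun j => j.val)
      have a2 := av_twin_le hk hm P (fun j => m - j.val)
      rw [hc] at a1 a2
      rw [av_add]
      have e : (2 : ℝ) / 16 ^ h = 1 / 16 ^ h + 1 / 16 ^ h := by ring
      rw [e]; exact add_le_add a1 a2
    refine (Finset.sum_le_card_nsmul _ _ _ h1).trans ?_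
    have h2 : (powersetCard h (I s)).card ≤ 4 ^ h := by
      rw [Finset.card_powersetCard]
      refine (Nat.choose_le_two_pow _ _).trans ?_
      rw [show 4 ^ h = 2 ^ (2 * h) by rw [pow_mul]; norm_num]
      exact Nat.pow_le_pow_right (by norm_num) (hIle s)
    have h3 : ((powersetCard h (I s)).card : ℝ) ≤ 4 ^ h := by exact_mod_cast h2
    rw [nsmul_eq_mul]
    refine (mul_le_mul_of_nonneg_right h3 (by positivity)).trans (le_of_eq ?_)
    rw [show (16 : ℝ) ^ h = 4 ^ h * 4 ^ h by rw [← mul_pow]; norm_num]
    field_simp
  refine (Finset.sum_le_card_nsmul _ _ _ hs).trans (le_of_eq ?_)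
  rw [Finset.card_range, nsmul_eq_mul]
  push_cast
  ring

theorem card_single_le (w : Fin m → Fin k) (a : Fin k) :
    (univ.filter (fun j => single w j ∧ w j = a)).card ≤ 1 := by
  refine Finset.card_le_one.2 fun x hx y hy => ?_
  have hx' := (Finset.mem_filter.1 hx).2
  have hy' := (Finset.mem_filter.1 hy).2
  exact hy'.1 x (hx'.2.trans hy'.2.symm)

/-- changing one letter changes the letter or the status of at most three positions -/
theorem card_aff_le (w : Fin m → Fin k) (i : Fin m) (a : Fin k) :
    (univ.filter (fun j => ¬ (w j = Function.update w i a j ∧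
      (single w j ↔ single (Function.update w i a) j)))).card ≤ 3 := by
  have hsub : univ.filter (fun j => ¬ (w j = Function.update w i a j ∧
      (single w j ↔ single (Function.update w i a) j))) ⊆
      insert i ((univ.filter (fun j => single w j ∧ w j = a)) ∪
        univ.filter (fun j => single (Function.update w i a) j ∧ Function.update w i a j = w i)) := by
    intro j hj
    have hj' := (Finset.mem_filter.1 hj).2
    by_cases hji : j = i
    · rw [hji]; exact Finset.mem_insert_self _ _
    refine Finset.mem_insert_of_mem ?_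
    have e : Function.update w i a j = w j := Function.update_of_ne hji _ _
    by_cases h1 : single w j
    · refine Finset.mem_union_left _ (Finset.mem_filter.2 ⟨Finset.mem_univ _, h1, ?_⟩)
      by_contra ha
      refine hj' ⟨e.symm, iff_of_true h1 fun x hx => ?_⟩
      by_cases hxi : x = i
      · rw [hxi, Function.update_self, e] at hx
        exact absurd hx.symm ha
      · rw [Function.update_of_ne hxi, e] at hx
        exact h1 x hx
    · have h2 : single (Function.update w i a) j := by
        by_contra h2
        exact hj' ⟨e.symm, iff_of_false h1 h2⟩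
      refine Finset.mem_union_right _ (Finset.mem_filter.2 ⟨Finset.mem_univ _, h2, ?_⟩)
      by_contra ha
      refine h1 fun x hx => ?_
      by_cases hxi : x = i
      · rw [hxi] at hx
        exact absurd (e.trans hx.symm) ha
      · exact h2 x (by rw [Function.update_of_ne hxi, e]; exact hx)
  have h1 := card_single_le w a
  have h2 := card_single_le (Function.update w i a) (w i)
  have h3 := Finset.card_le_card hsub
  have h4 := Finset.card_insert_le i ((univ.filter (fun j => single w j ∧ w j = a)) ∪
        univ.filter (fun j => single (Function.update w i a) j ∧ Function.update w i a j = w i))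
  have h5 := Finset.card_union_le (univ.filter (fun j => single w j ∧ w j = a))
        (univ.filter (fun j => single (Function.update w i a) j ∧ Function.update w i a j = w i))
  omega

end Pool.Agent.Lib.MP_d87a8f_pr.U
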