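import Mathlib
import Pool.Agent.Lib.MP_d87a8f_pr.U.Adj
import Pool.Agent.Lib.MP_d87a8f_pr.U.Words

/-!
Coordinates in which the running product at each single position is a free variable.
-/

namespace Pool.Agent.Lib.MP_d87a8f_pr.U

open Finset

variable {G : Type} [Group G] {k m : ℕ}

/-- running products in the new coordinates -/
def cc (w : Fin m → Fin k) (U : Fin k → G) : ℕ → G
  | 0 => 1
  | j + 1 => if h : j < m then
      (if single w ⟨j, h⟩ then U (w ⟨j, h⟩) else cc w U j * U (w ⟨j, h⟩)) else cc w U j

open Classical in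
/-- the generators in the new coordinates -/
noncomputable def zz (w : Fin m → Fin k) (U : Fin k → G) : Fin k → G := fun a =>
  if h : ∃ j, w j = a ∧ single w j then (cc w U (Classical.choose h).val)⁻¹ * U a else U a

theorem cc_succ_single (w : Fin m → Fin k) (U : Fin k → G) (j : Fin m) (h : single w j) :
    cc w U (j.val + 1) = U (w j) := by
  rw [cc, dif_pos j.isLt, if_pos h]

theorem cc_succ_not (w : Fin m → Fin k) (U : Fin k → G) (j : Fin m) (h : ¬ single w j) :
    cc w U (j.val + 1) = cc w U j.val * U (w j) := by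
  rw [cc, dif_pos j.isLt, if_neg h]

theorem zz_single (w : Fin m → Fin k) (U : Fin k → G) (j : Fin m) (h : single w j) :
    zz w U (w j) = (cc w U j.val)⁻¹ * U (w j) := by
  have he : ∃ i, w i = w j ∧ single w i := ⟨j, rfl, h⟩
  have hc : Classical.choose he = j := h _ (Classical.choose_spec he).1
  unfold zz
  rw [dif_pos he, hc]

theorem zz_not (w : Fin m → Fin k) (U : Fin k → G) (j : Fin m) (h : ¬ single w j) :
    zz w U (w j) = U (w j) := by
  have he : ¬ ∃ i, w i = w j ∧ single w i := by
    rintro ⟨i, hi, hs⟩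
    have hji : j = i := hs j hi.symm
    exact h (hji ▸ hs)
  unfold zz
  rw [dif_neg he]

theorem pre_zz (w : Fin m → Fin k) (U : Fin k → G) (j : Fin (m + 1)) :
    Fin.partialProd (gw w (zz w U)) j = cc w U j.val := by
  induction j using Fin.induction with
  | zero => rw [Fin.partialProd_zero]; rfl
  | succ j ih =>
    rw [Fin.partialProd_succ, ih, Fin.val_succ, Fin.val_castSucc]
    unfold gw
    by_cases h : single w j
    · rw [zz_single w U j h, cc_succ_single w U j h, mul_inv_cancel_left]
    · rw [zz_not w U j h, cc_succ_not w U j h]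

theorem zz_bij [Fintype G] (w : Fin m → Fin k) :
    Function.Bijective (zz w : (Fin k → G) → (Fin k → G)) := by
  classical
  refine Finite.injective_iff_bijective.mp (fun U U' hU => ?_)
  have hcc : ∀ j : Fin m, cc w U j.val = cc w U' j.val := fun j => by
    have h1 := pre_zz w U j.castSucc
    have h2 := pre_zz w U' j.castSucc
    rw [Fin.val_castSucc] at h1 h2
    rw [← h1, ← h2, hU]
  funext a
  have ha := congrFun hU a
  by_cases h : ∃ j, w j = a ∧ single w j
  · obtain ⟨j, rfl, hj⟩ := h
    rw [zz_single w U j hj, zz_single w U' j hj, hcc j] at ha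
    exact mul_left_cancel ha
  · unfold zz at ha
    rw [dif_neg h, dif_neg h] at ha
    exact ha

theorem diff_start (w w' : Fin m → Fin k) (U U' : Fin k → G) (B : Finset (Fin m))
    (hB : ∀ j, j ∉ B → w j = w' j ∧ (single w j ↔ single w' j) ∧ U (w j) = U' (w j))
    (n : ℕ) (hn : n ≤ m) (hne : cc w U n ≠ cc w' U' n) :
    ∃ b ∈ B, b.val < n ∧ ∀ i : Fin m, b.val < i.val → i.val < n → ¬ single w i := by
  induction n with
  | zero => exact absurd rfl hne
  | succ n ih =>
    have hlt : n < m := hn
    by_cases hb : (⟨n, hlt⟩ : Fin m) ∈ B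
    · refine ⟨⟨n, hlt⟩, hb, Nat.lt_succ_self n, fun i h1 h2 => ?_⟩
      exact absurd h1 (not_lt.mpr (Nat.lt_succ_iff.mp h2))
    · obtain ⟨h1, h2, h3⟩ := hB _ hb
      by_cases hs : single w ⟨n, hlt⟩
      · exfalso
        apply hne
        have e1 := cc_succ_single w U ⟨n, hlt⟩ hs
        have e2 := cc_succ_single w' U' ⟨n, hlt⟩ (h2.mp hs)
        exact e1.trans (h3.trans ((congrArg U' h1).trans e2.symm))
      · have e1 := cc_succ_not w U ⟨n, hlt⟩ hs
        have e2 := cc_succ_not w' U' ⟨n, hlt⟩ (fun h => hs (h2.mpr h))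
        have hne' : cc w U n ≠ cc w' U' n := by
          intro he
          apply hne
          refine e1.trans (Eq.trans ?_ e2.symm)
          show cc w U n * U (w ⟨n, hlt⟩) = cc w' U' n * U' (w' ⟨n, hlt⟩)
          rw [he, h3, h1]
        obtain ⟨b, hbB, hbn, hall⟩ := ih hlt.le hne'
        refine ⟨b, hbB, Nat.lt_succ_of_lt hbn, fun i hi1 hi2 => ?_⟩
        rcases Nat.lt_succ_iff_lt_or_eq.mp hi2 with h | h
        · exact hall i hi1 h
        · have : i = ⟨n, hlt⟩ := Fin.ext h
          rw [this]
          exact hs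

/-- a difference of running products starts at an affected position and survives only along
positions that are not single -/
theorem card_diff_le [DecidableEq G] (w w' : Fin m → Fin k) (U U' : Fin k → G)
    (B : Finset (Fin m))
    (hB : ∀ j, j ∉ B → w j = w' j ∧ (single w j ↔ single w' j) ∧ U (w j) = U' (w j))
    (l : ℕ) (hl : ¬ Run w l) :
    (univ.filter (fun j : Fin m => cc w U (j.val + 1) ≠ cc w' U' (j.val + 1))).card ≤
      B.card * l := by
  have hsub : univ.filter (fun j : Fin m => cc w U (j.val + 1) ≠ cc w' U' (j.val + 1)) ⊆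
      B.biUnion (fun b => univ.filter (fun j : Fin m => b.val ≤ j.val ∧ j.val < b.val + l)) := by
    intro j hj
    obtain ⟨b, hbB, hbn, hall⟩ :=
      diff_start w w' U U' B hB (j.val + 1) j.isLt (Finset.mem_filter.mp hj).2
    refine Finset.mem_biUnion.mpr ⟨b, hbB, Finset.mem_filter.mpr ⟨Finset.mem_univ _,
      Nat.lt_succ_iff.mp hbn, ?_⟩⟩
    by_contra hcon
    apply hl
    have hj' := j.isLt
    refine ⟨b.val + 1, by omega, fun i h1 h2 => hall i (by omega) (by omega)⟩
  refine le_trans (Finset.card_le_card hsub) (Finset.card_biUnion_le_card_mul _ _ _ (fun b _ => ?_))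
  calc (univ.filter (fun j : Fin m => b.val ≤ j.val ∧ j.val < b.val + l)).card
      ≤ (Finset.Ico b.val (b.val + l)).card := by
        refine Finset.card_le_card_of_injOn (fun j => j.val) (fun j hj => ?_)
          (fun i _ j _ h => Fin.ext h)
        have := (Finset.mem_filter.mp (Finset.mem_coe.mp hj)).2
        exact Finset.mem_coe.mpr (Finset.mem_Ico.mpr this)
    _ = l := by rw [Nat.card_Ico]; omega

end Pool.Agent.Lib.MP_d87a8f_pr.U
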