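import Mathlib
import Pool.Agent.Lib.MP_d87a8f_pr.U.Exch
import Pool.Agent.Lib.MP_d87a8f_pr.U.Repar

/-!
The variance of the logarithm of the rearrangement count.
-/

namespace Pool.Agent.Lib.MP_d87a8f_pr.U

open Finset

variable {G : Type} [Group G] [DecidableEq G] [Fintype G] {k m : ℕ}

/-- the statistic in the new coordinates -/
noncomputable def FF (w : Fin m → Fin k) (U : Fin k → G) : ℝ := lq (gw w (zz w U))

/-- the control sum in the new coordinates -/
noncomputable def SF (w : Fin m → Fin k) (U : Fin k → G) : ℝ := SS (gw w (zz w U))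

theorem av_zz (f : (Fin m → Fin k) → (Fin k → G) → ℝ) :
    av (fun p : (Fin m → Fin k) × (Fin k → G) => f p.1 (zz p.1 p.2)) =
      av (fun p : (Fin m → Fin k) × (Fin k → G) => f p.1 p.2) := by
  rw [av_prod, av_prod]
  exact congrArg av (funext fun w => av_bij (zz_bij w) (f w))

theorem av_SF : av (fun p : (Fin m → Fin k) × (Fin k → G) => SF p.1 p.2) ≤ 3 := by
  unfold SF
  rw [av_zz (fun w Z => SS (gw w Z))]
  exact av_SS

omit [Fintype G] in
theorem SF_nonneg (w : Fin m → Fin k) (U : Fin k → G) : 0 ≤ SF w U := SS_nonneg _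

omit [Fintype G] in
theorem step_gen (w w' : Fin m → Fin k) (U U' : Fin k → G) (B : Finset (Fin m))
    (hB : ∀ j, j ∉ B → w j = w' j ∧ (single w j ↔ single w' j) ∧ U (w j) = U' (w j)) (l : ℕ) :
    (FF w U - FF w' U') ^ 2 ≤
      12 * ((B.card : ℝ) ^ 2 * (l : ℝ) ^ 2 + (m : ℝ) ^ 2 * ind (Run w l)) *
        Real.log ((m : ℝ) + 1) ^ 2 + 12 * SF w U + 12 * SF w' U' := by
  set E := univ.filter (fun j : Fin m => cc w U (j.val + 1) ≠ cc w' U' (j.val + 1)) with hE
  have h1 := lq_sub_sq E (gw w (zz w U)) (gw w' (zz w' U')) fun j hj => by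
    rw [pre_zz, pre_zz]
    simpa [hE] using hj
  have h2 : (E.card : ℝ) ^ 2 ≤ (B.card : ℝ) ^ 2 * (l : ℝ) ^ 2 + (m : ℝ) ^ 2 * ind (Run w l) := by
    by_cases hl : Run w l
    · have : (E.card : ℝ) ≤ m := by exact_mod_cast (card_le_univ E).trans_eq (Fintype.card_fin m)
      have := pow_le_pow_left₀ (Nat.cast_nonneg _) this 2
      rw [ind_pos hl]
      nlinarith [mul_nonneg (sq_nonneg (B.card : ℝ)) (sq_nonneg (l : ℝ))]
    · have : (E.card : ℝ) ≤ B.card * l := by exact_mod_cast card_diff_le w w' U U' B hB l hl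
      have := pow_le_pow_left₀ (Nat.cast_nonneg _) this 2
      rw [ind_neg hl]
      nlinarith
  have := mul_le_mul_of_nonneg_right h2 (sq_nonneg (Real.log ((m : ℝ) + 1)))
  unfold FF SF
  nlinarith

omit [Fintype G] in
theorem FF_congr (w : Fin m → Fin k) (U U' : Fin k → G) (h : ∀ j, U (w j) = U' (w j)) :
    FF w U = FF w U' := by
  have hc : ∀ j, cc w U j = cc w U' j := fun j => by
    induction j with
    | zero => rfl
    | succ j ih => simp only [cc, ih, h]
  unfold FF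
  congr 1
  funext j
  simp only [gw, zz, hc, h]

theorem run_term (hk : 0 < k) (hm : 16 * m ≤ k) (h : ℕ) (hh : (m + 1) ^ 4 ≤ 4 ^ h) :
    (m : ℝ) * ((m : ℝ) ^ 2 * av (fun w : Fin m → Fin k => ind (Run w (2 * h)))) ≤ 2 := by
  have h1 := av_run hk hm h
  have h2 : ((m : ℝ) + 1) ^ 4 ≤ 4 ^ h := by exact_mod_cast hh
  have h3 : (m : ℝ) ^ 3 ≤ ((m : ℝ) + 1) ^ 3 := by gcongr; linarith
  have h4 : (m : ℝ) ^ 3 * (2 * ((m : ℝ) + 1) / 4 ^ h) ≤ 2 := by
    rw [← mul_div_assoc, div_le_iff₀ (by positivity)]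
    nlinarith [mul_le_mul_of_nonneg_right h3 (show (0 : ℝ) ≤ m + 1 by positivity)]
  nlinarith [mul_le_mul_of_nonneg_left h1 (show (0 : ℝ) ≤ (m : ℝ) ^ 3 by positivity)]

/-- one changed letter -/
theorem step_w (w : Fin m → Fin k) (U : Fin k → G) (i : Fin m) (a : Fin k) (l : ℕ) :
    (FF w U - FF (Function.update w i a) U) ^ 2 ≤
      12 * (9 * (l : ℝ) ^ 2 + (m : ℝ) ^ 2 * ind (Run w l)) * Real.log ((m : ℝ) + 1) ^ 2 +
        12 * SF w U + 12 * SF (Function.update w i a) U := by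
  classical
  have h1 := step_gen w (Function.update w i a) U U (univ.filter (fun j => ¬ (w j =
    Function.update w i a j ∧ (single w j ↔ single (Function.update w i a) j))))
    (fun j hj => by
      simp only [mem_filter, mem_univ, true_and, not_not] at hj
      exact ⟨hj.1, hj.2, rfl⟩) l
  have h2 : ((univ.filter (fun j => ¬ (w j = Function.update w i a j ∧
      (single w j ↔ single (Function.update w i a) j)))).card : ℝ) ≤ 3 := by
    exact_mod_cast card_aff_le w i a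
  have h3 := pow_le_pow_left₀ (Nat.cast_nonneg _) h2 2
  refine h1.trans ?_
  gcongr
  linarith

/-- one changed generator; nothing moves when the letter is not used -/
theorem step_U (w : Fin m → Fin k) (U : Fin k → G) (a : Fin k) (u : G) (l : ℕ) :
    (FF w U - FF w (Function.update U a u)) ^ 2 ≤
      (mult w a : ℝ) ^ 2 * (12 * (l : ℝ) ^ 2 * Real.log ((m : ℝ) + 1) ^ 2) +
        (mult w a : ℝ) * (12 * ((m : ℝ) ^ 2 * ind (Run w l)) * Real.log ((m : ℝ) + 1) ^ 2 +
          12 * SF w U + 12 * SF w (Function.update U a u)) := by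
  have h0 : ∀ j, w j ≠ a → U (w j) = Function.update U a u (w j) := fun j hj => by
    rw [Function.update_of_ne hj]
  rcases Nat.eq_zero_or_pos (mult w a) with hz | hz
  · rw [FF_congr w U (Function.update U a u) fun j => h0 j fun hj => ?_, hz]
    · simp
    · exact (card_pos.2 ⟨j, by simp [hj]⟩).ne' hz
  have h1 := step_gen w w U (Function.update U a u) (univ.filter (fun j => w j = a))
    (fun j hj => ⟨rfl, Iff.rfl, h0 j (by simpa using hj)⟩) l
  have h2 : (1 : ℝ) ≤ mult w a := by exact_mod_cast hz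
  have h3 : 0 ≤ 12 * ((m : ℝ) ^ 2 * ind (Run w l)) * Real.log ((m : ℝ) + 1) ^ 2 +
      12 * SF w U + 12 * SF w (Function.update U a u) := by
    have := ind_nonneg (Run w l)
    have := SF_nonneg w U
    have := SF_nonneg w (Function.update U a u)
    positivity
  have h4 := mul_le_mul_of_nonneg_right h2 h3
  change _ ≤ 12 * ((mult w a : ℝ) ^ 2 * _ + _) * _ + _ + _ at h1
  nlinarith

theorem sum_mult (w : Fin m → Fin k) : ∑ a, (mult w a : ℝ) = m := by
  have := card_eq_sum_card_fiberwise (f := w) (s := univ) (t := univ) fun _ _ => mem_univ _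
  rw [card_univ, Fintype.card_fin] at this
  exact_mod_cast this.symm

theorem var_w (hk : 0 < k) (hm : 16 * m ≤ k) (h : ℕ) (hh : (m + 1) ^ 4 ≤ 4 ^ h) :
    av (fun U : Fin k → G => var (fun w : Fin m → Fin k => FF w U)) ≤
      12 * (36 * (h : ℝ) ^ 2 * m + 2) * Real.log ((m : ℝ) + 1) ^ 2 + 72 * m := by
  have : Nonempty (Fin k) := ⟨⟨0, hk⟩⟩
  set L := Real.log ((m : ℝ) + 1) ^ 2 with hL
  set r := av (fun w : Fin m → Fin k => ind (Run w (2 * h))) with hr
  have h1 : ∀ U : Fin k → G, var (fun w : Fin m → Fin k => FF w U) ≤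
      m * (12 * (36 * (h : ℝ) ^ 2 + (m : ℝ) ^ 2 * r) * L) +
        24 * m * av (fun w : Fin m → Fin k => SF w U) := fun U => by
    refine (efron_stein _).trans ((sum_le_card_nsmul _ _ (12 * (36 * (h : ℝ) ^ 2 +
      (m : ℝ) ^ 2 * r) * L + 24 * av (fun w : Fin m → Fin k => SF w U)) fun i _ => ?_).trans_eq ?_)
    · refine (av_mono fun w => av_mono fun a => step_w w U i a (2 * h)).trans_eq ?_
      have e : ∀ w : Fin m → Fin k, 12 * (9 * ((2 * h : ℕ) : ℝ) ^ 2 +
          (m : ℝ) ^ 2 * ind (Run w (2 * h))) * L =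
          432 * (h : ℝ) ^ 2 * L + 12 * (m : ℝ) ^ 2 * L * ind (Run w (2 * h)) := fun w => by
        push_cast; ring
      simp only [← hL, e, av_add, av_mul_left, av_const]
      rw [av_update (fun w : Fin m → Fin k => SF w U) i]
      ring
    · rw [card_univ, Fintype.card_fin, nsmul_eq_mul]; ring
  refine (av_mono h1).trans ?_
  rw [av_add, av_mul_left (24 * m), av_const]
  have h2 := av_SF (G := G) (k := k) (m := m)
  rw [av_prod'] at h2
  have h3 := run_term hk hm h hh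
  have h4 : 0 ≤ L := sq_nonneg _
  nlinarith [mul_le_mul_of_nonneg_right h3 h4,
    mul_le_mul_of_nonneg_left h2 (Nat.cast_nonneg (α := ℝ) m)]

theorem var_U (hk : 0 < k) (hm : 16 * m ≤ k) (h : ℕ) (hh : (m + 1) ^ 4 ≤ 4 ^ h) :
    av (fun w : Fin m → Fin k => var (fun U : Fin k → G => FF w U)) ≤
      12 * (8 * (h : ℝ) ^ 2 * m + 2) * Real.log ((m : ℝ) + 1) ^ 2 + 72 * m := by
  have : Nonempty (Fin k) := ⟨⟨0, hk⟩⟩
  set L := Real.log ((m : ℝ) + 1) ^ 2 with hL
  have h1 : ∀ w : Fin m → Fin k, var (fun U : Fin k → G => FF w U) ≤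
      48 * (h : ℝ) ^ 2 * L * m + 48 * (h : ℝ) ^ 2 * L * rho w +
        12 * m * (m : ℝ) ^ 2 * L * ind (Run w (2 * h)) +
        24 * m * av (fun U : Fin k → G => SF w U) := fun w => by
    refine (efron_stein _).trans ((sum_le_sum (g := fun a => (mult w a : ℝ) ^ 2 *
      (48 * (h : ℝ) ^ 2 * L) + (mult w a : ℝ) * (12 * ((m : ℝ) ^ 2 * ind (Run w (2 * h))) * L +
        24 * av (fun U : Fin k → G => SF w U))) fun a _ => ?_).trans_eq ?_)
    · refine (av_mono fun U => av_mono fun u => step_U w U a u (2 * h)).trans_eq ?_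
      simp only [← hL, av_add, av_mul_left, av_const]
      rw [av_update (fun U : Fin k → G => SF w U) a]
      push_cast
      ring
    · rw [sum_add_distrib, ← sum_mul, ← sum_mul, sum_mult, sum_mult_sq]; ring
  refine (av_mono h1).trans ?_
  simp only [av_add, av_mul_left, av_const]
  have h2 := av_SF (G := G) (k := k) (m := m)
  rw [av_prod] at h2
  have h3 := run_term hk hm h hh
  have h4 : 0 ≤ L := sq_nonneg _
  have h5 : av (fun w : Fin m → Fin k => rho w) ≤ m := by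
    refine (av_rho hk).trans ?_
    have : 16 * (m : ℝ) ≤ k := by exact_mod_cast hm
    rw [div_le_iff₀ (by exact_mod_cast hk)]
    nlinarith [Nat.cast_nonneg (α := ℝ) m]
  nlinarith [mul_le_mul_of_nonneg_right h3 h4,
    mul_le_mul_of_nonneg_left h2 (Nat.cast_nonneg (α := ℝ) m),
    mul_le_mul_of_nonneg_left h5 (mul_nonneg (sq_nonneg (h : ℝ)) h4)]

theorem var_small (δ : ℝ) (hδ : 0 < δ) : ∃ M : ℕ, ∀ m : ℕ, M ≤ m → ∃ h : ℕ, (m + 1) ^ 4 ≤ 4 ^ h ∧
    12 * (44 * (h : ℝ) ^ 2 * m + 4) * Real.log ((m : ℝ) + 1) ^ 2 + 144 * m ≤ δ * (m : ℝ) ^ 2 := by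
  have ht := (Real.tendsto_pow_log_div_mul_add_atTop 1 (-1) 4 one_ne_zero).comp
    (Filter.tendsto_atTop_add_const_right _ 1 (tendsto_natCast_atTop_atTop (R := ℝ)))
  obtain ⟨M, hM⟩ := Filter.eventually_atTop.1
    (ht.eventually (gt_mem_nhds (show (0 : ℝ) < δ / 13392 by positivity)))
  refine ⟨max M 2, fun m hm => ⟨2 * (Nat.log 2 (m + 1) + 1), ?_, ?_⟩⟩
  · have := Nat.pow_le_pow_left (Nat.lt_pow_succ_log_self (b := 2) (by norm_num) (m + 1)).le 4
    refine this.trans_eq ?_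
    rw [← pow_mul, show (4 : ℕ) ^ (2 * (Nat.log 2 (m + 1) + 1)) =
      (2 ^ 2) ^ (2 * (Nat.log 2 (m + 1) + 1)) by norm_num, ← pow_mul]
    congr 1
    simp only [Nat.succ_eq_add_one]
    ring
  · have h1 := hM m (le_of_max_le_left hm)
    have h2 : (2 : ℝ) ≤ m := by exact_mod_cast le_of_max_le_right hm
    simp only [Function.comp, one_mul, add_neg_cancel_right] at h1
    rw [div_lt_div_iff₀ (by linarith) (by norm_num)] at h1
    set L := Real.log ((m : ℝ) + 1) with hL
    have h3 : 1 ≤ L := by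
      rw [hL, Real.le_log_iff_exp_le (by linarith)]
      linarith [Real.exp_one_lt_d9]
    have h4 : (Nat.log 2 (m + 1) : ℝ) * Real.log 2 ≤ L := by
      rw [← Real.log_pow]
      refine Real.log_le_log (by positivity) ?_
      exact_mod_cast Nat.pow_log_le_self 2 (Nat.succ_ne_zero m)
    have h5 : ((2 * (Nat.log 2 (m + 1) + 1) : ℕ) : ℝ) ≤ 5 * L := by
      push_cast
      nlinarith [Real.log_two_gt_d9, Nat.cast_nonneg (α := ℝ) (Nat.log 2 (m + 1))]
    have h6 := pow_le_pow_left₀ (Nat.cast_nonneg _) h5 2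
    have h7 : 1 ≤ L ^ 2 := one_le_pow₀ h3
    have h8 : L ^ 2 ≤ L ^ 4 := by nlinarith
    have h9 : 0 ≤ (m : ℝ) * L ^ 2 := by positivity
    nlinarith [mul_le_mul_of_nonneg_right h6 h9, mul_le_mul_of_nonneg_left h8 (by linarith : (0 : ℝ) ≤ m),
      mul_le_mul_of_nonneg_left h7 (by linarith : (0 : ℝ) ≤ m),
      mul_le_mul_of_nonneg_left h1.le (by linarith : (0 : ℝ) ≤ m),
      mul_le_mul_of_nonneg_right h2 (by linarith : (0 : ℝ) ≤ L ^ 2)]

omit [Group G] [DecidableEq G] [Fintype G] in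
/-- (C) -/
theorem conc (δ : ℝ) (hδ : 0 < δ) : ∃ M : ℕ, ∀ (G : Type) [Group G] [DecidableEq G] [Fintype G]
    (k m : ℕ), M ≤ m → 0 < k → 16 * m ≤ k → ∀ t : ℝ, 0 < t →
    av (fun p : (Fin m → Fin k) × (Fin k → G) =>
      ind (t ≤ |lq (gw p.1 p.2) - meanLog G k m|)) ≤ δ * (m : ℝ) ^ 2 / t ^ 2 := by
  obtain ⟨M, hM⟩ := var_small δ hδ
  refine ⟨M, fun G _ _ _ k m hm hk hkm t ht => ?_⟩
  obtain ⟨h, hh, hb⟩ := hM m hm
  rw [meanLog_eq]
  refine (chebyshev _ ht).trans (div_le_div_of_nonneg_right ?_ (sq_nonneg t))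
  have e : var (fun p : (Fin m → Fin k) × (Fin k → G) => lq (gw p.1 p.2)) =
      var (fun p : (Fin m → Fin k) × (Fin k → G) => FF p.1 p.2) := by
    unfold var FF
    rw [av_zz (fun w Z => lq (gw w Z))]
    exact (av_zz (fun w Z => (lq (gw w Z) -
      av (fun p : (Fin m → Fin k) × (Fin k → G) => lq (gw p.1 p.2))) ^ 2)).symm
  rw [e]
  refine (var_prod_le _).trans ?_
  have h1 := var_w (G := G) hk hkm h hh
  have h2 := var_U (G := G) hk hkm h hh
  nlinarith [h1, h2, hb]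

end Pool.Agent.Lib.MP_d87a8f_pr.U
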