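import Mathlib
import Pool.Agent.Lib.MP_d87a8f_pr.U.Adj

/-!
The walk after a fixed number of steps.
-/

namespace Pool.Agent.Lib.MP_d87a8f_pr.U

open Finset

variable {G : Type} [Group G] [DecidableEq G] {k : ℕ}

/-- law of the position after `l` steps -/
noncomputable def mu (Z : Fin k → G) (l : ℕ) (x : G) : ℝ :=
  ((univ.filter (fun w : Fin l → Fin k => wp (gw w Z) = x)).card : ℝ) / (k : ℝ) ^ l

theorem mu_nonneg (Z : Fin k → G) (l : ℕ) (x : G) : 0 ≤ mu Z l x := by
  unfold mu; positivity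

theorem mu_eq_av (Z : Fin k → G) (l : ℕ) (x : G) :
    mu Z l x = av (fun w : Fin l → Fin k => ind (wp (gw w Z) = x)) := by
  unfold mu av
  rw [sum_ind]; simp

omit [DecidableEq G] in
theorem wp_snoc (Z : Fin k → G) {l : ℕ} (w : Fin l → Fin k) (i : Fin k) :
    wp (gw (Fin.snoc w i : Fin (l + 1) → Fin k) Z) = wp (gw w Z) * Z i := by
  unfold wp gw
  rw [List.ofFn_succ', List.prod_concat]
  simp only [Fin.snoc_castSucc, Fin.snoc_last]

/-- split off the last letter -/
theorem mu_succ (Z : Fin k → G) (l : ℕ) (x : G) :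
    mu Z (l + 1) x = (∑ i, mu Z l (x * (Z i)⁻¹)) / k := by
  have h : ∑ w : Fin (l + 1) → Fin k, ind (wp (gw w Z) = x) =
      ∑ i, ∑ w : Fin l → Fin k, ind (wp (gw w Z) = x * (Z i)⁻¹) := by
    rw [← Equiv.sum_comp (Fin.snocEquiv (fun _ : Fin (l + 1) => Fin k)), Fintype.sum_prod_type]
    refine Finset.sum_congr rfl fun i _ => Finset.sum_congr rfl fun w _ => ?_
    have e : (Fin.snocEquiv (fun _ : Fin (l + 1) => Fin k)) (i, w) = Fin.snoc w i := rfl
    rw [e, wp_snoc, eq_mul_inv_iff_mul_eq]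
  unfold mu
  rw [← sum_ind, h, ← Finset.sum_div, div_div, pow_succ]
  simp only [sum_ind]

variable [Fintype G]

/-- total variation distance to the uniform law -/
noncomputable def tv (p : G → ℝ) : ℝ := (1 / 2) * ∑ g : G, |p g - 1 / (Fintype.card G : ℝ)|

theorem mu_sum (hk : 0 < k) (Z : Fin k → G) (l : ℕ) : ∑ x, mu Z l x = 1 := by
  have hk' : (0 : ℝ) < k := Nat.cast_pos.2 hk
  have h := Finset.card_eq_sum_card_fiberwise (s := (univ : Finset (Fin l → Fin k)))
    (t := (univ : Finset G)) (f := fun w => wp (gw w Z)) (fun _ _ => Finset.mem_univ _)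
  rw [Finset.card_univ, Fintype.card_fun, Fintype.card_fin, Fintype.card_fin] at h
  unfold mu
  rw [← Finset.sum_div, ← Nat.cast_sum, ← h, Nat.cast_pow]
  exact div_self (by positivity)

omit [DecidableEq G] in
theorem tv_le_one (p : G → ℝ) (h0 : ∀ x, 0 ≤ p x) (h1 : ∑ x, p x = 1) : tv p ≤ 1 := by
  have hN : (0 : ℝ) < Fintype.card G := Nat.cast_pos.2 Fintype.card_pos
  have h2 : ∑ g : G, |p g - 1 / (Fintype.card G : ℝ)| ≤
      ∑ g : G, (p g + 1 / (Fintype.card G : ℝ)) :=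
    Finset.sum_le_sum fun g _ => by
      have := h0 g
      have h3 : (0 : ℝ) ≤ 1 / (Fintype.card G : ℝ) := by positivity
      exact abs_le.2 ⟨by linarith, by linarith⟩
  rw [Finset.sum_add_distrib, h1, Finset.sum_const, Finset.card_univ, nsmul_eq_mul,
    mul_one_div_cancel hN.ne'] at h2
  unfold tv
  linarith

omit [DecidableEq G] in
theorem le_tv (p : G → ℝ) (h1 : ∑ x, p x = 1) (B : Finset G) :
    ∑ x ∈ B, p x - (B.card : ℝ) / Fintype.card G ≤ tv p := by
  classical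
  have hN : (0 : ℝ) < Fintype.card G := Nat.cast_pos.2 Fintype.card_pos
  have h0 : ∑ g : G, (p g - 1 / (Fintype.card G : ℝ)) = 0 := by
    rw [Finset.sum_sub_distrib, h1, Finset.sum_const, Finset.card_univ, nsmul_eq_mul,
      mul_one_div_cancel hN.ne', sub_self]
  have hB : ∑ g ∈ B, (p g - 1 / (Fintype.card G : ℝ)) =
      ∑ x ∈ B, p x - (B.card : ℝ) / Fintype.card G := by
    rw [Finset.sum_sub_distrib, Finset.sum_const, nsmul_eq_mul, mul_one_div]
  have h2 := Finset.sum_add_sum_compl B (fun g => p g - 1 / (Fintype.card G : ℝ))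
  have h3 := Finset.sum_add_sum_compl B (fun g => |p g - 1 / (Fintype.card G : ℝ)|)
  have h4 : ∑ g ∈ B, (p g - 1 / (Fintype.card G : ℝ)) ≤
      ∑ g ∈ B, |p g - 1 / (Fintype.card G : ℝ)| := Finset.sum_le_sum fun g _ => le_abs_self _
  have h5 : -∑ g ∈ Bᶜ, (p g - 1 / (Fintype.card G : ℝ)) ≤
      ∑ g ∈ Bᶜ, |p g - 1 / (Fintype.card G : ℝ)| := by
    rw [← Finset.sum_neg_distrib]
    exact Finset.sum_le_sum fun g _ => neg_le_abs _
  unfold tv
  linarith

theorem tv_mu_anti (hk : 0 < k) (Z : Fin k → G) {l l' : ℕ} (h : l ≤ l') :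
    tv (mu Z l') ≤ tv (mu Z l) := by
  have hk' : (0 : ℝ) < k := Nat.cast_pos.2 hk
  induction l', h using Nat.le_induction with
  | base => exact le_rfl
  | succ n _ ih =>
    refine le_trans ?_ ih
    have h1 : ∀ x : G, |mu Z (n + 1) x - 1 / (Fintype.card G : ℝ)| ≤
        (∑ i, |mu Z n (x * (Z i)⁻¹) - 1 / (Fintype.card G : ℝ)|) / k := fun x => by
      have e : mu Z (n + 1) x - 1 / (Fintype.card G : ℝ) =
          (∑ i, (mu Z n (x * (Z i)⁻¹) - 1 / (Fintype.card G : ℝ))) / k := by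
        rw [mu_succ, Finset.sum_sub_distrib, Finset.sum_const, Finset.card_univ, Fintype.card_fin,
          nsmul_eq_mul, sub_div, mul_div_cancel_left₀ _ hk'.ne']
      rw [e, abs_div, abs_of_pos hk']
      exact div_le_div_of_nonneg_right (Finset.abs_sum_le_sum_abs _ _) hk'.le
    have h2 : ∑ x : G, (∑ i, |mu Z n (x * (Z i)⁻¹) - 1 / (Fintype.card G : ℝ)|) / k =
        ∑ x : G, |mu Z n x - 1 / (Fintype.card G : ℝ)| := by
      have h3 : ∀ i, ∑ x : G, |mu Z n (x * (Z i)⁻¹) - 1 / (Fintype.card G : ℝ)| =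
          ∑ x : G, |mu Z n x - 1 / (Fintype.card G : ℝ)| := fun i =>
        Equiv.sum_comp (Equiv.mulRight (Z i)⁻¹) (fun x => |mu Z n x - 1 / (Fintype.card G : ℝ)|)
      rw [← Finset.sum_div, Finset.sum_comm, Finset.sum_congr rfl (fun i _ => h3 i),
        Finset.sum_const, Finset.card_univ, Fintype.card_fin, nsmul_eq_mul,
        mul_div_cancel_left₀ _ hk'.ne']
    unfold tv
    rw [← h2]
    exact mul_le_mul_of_nonneg_left (Finset.sum_le_sum fun x _ => h1 x) (by norm_num)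

omit [Fintype G] in
/-- some translate of `A` has at least as much mass at an earlier time -/
theorem exists_translate (hk : 0 < k) (Z : Fin k → G) {l l' : ℕ} (h : l ≤ l') (A : Finset G) :
    ∃ A' : Finset G, A'.card = A.card ∧ ∑ x ∈ A, mu Z l' x ≤ ∑ x ∈ A', mu Z l x := by
  have hk' : (0 : ℝ) < k := Nat.cast_pos.2 hk
  induction l', h using Nat.le_induction generalizing A with
  | base => exact ⟨A, rfl, le_rfl⟩
  | succ n _ ih =>
    obtain ⟨i, -, hi⟩ := Finset.exists_max_image (univ : Finset (Fin k))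
      (fun i => ∑ x ∈ A, mu Z n (x * (Z i)⁻¹)) ⟨⟨0, hk⟩, Finset.mem_univ _⟩
    obtain ⟨A', h1, h2⟩ := ih (A.map (Equiv.mulRight (Z i)⁻¹).toEmbedding)
    refine ⟨A', by rw [h1, Finset.card_map], le_trans ?_ h2⟩
    rw [Finset.sum_map]
    simp only [mu_succ]
    rw [← Finset.sum_div, Finset.sum_comm, div_le_iff₀ hk']
    refine (Finset.sum_le_card_nsmul _ _ _ hi).trans (le_of_eq ?_)
    rw [Finset.card_univ, Fintype.card_fin, nsmul_eq_mul, mul_comm]
    rfl

end Pool.Agent.Lib.MP_d87a8f_pr.U
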