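import Mathlib
import Pool.Agent.Lib.MP_d87a8f_pr.U.Walk
import Pool.Agent.Lib.MP_d87a8f_pr.U.Words

/-!
The lower bound after a fixed number of steps.
-/

namespace Pool.Agent.Lib.MP_d87a8f_pr.U

open Finset

variable {G : Type} [Group G] [DecidableEq G] {k m : ℕ}

/-- the fibres of `s ↦ w o s` are cosets of the stabiliser -/
theorem orbit_le (w : Fin m → Fin k) (Z : Fin k → G) :
    (rearr (gw w Z) : ℝ) ≤ Real.exp (rho w) *
      (univ.filter (fun w' : Fin m → Fin k => wp (gw w' Z) = wp (gw w Z))).card := by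
  have hc := Finset.card_eq_sum_card_fiberwise
    (s := univ.filter (fun s : Equiv.Perm (Fin m) => wp (fun j => gw w Z (s j)) = wp (gw w Z)))
    (t := univ.filter (fun w' : Fin m → Fin k => wp (gw w' Z) = wp (gw w Z)))
    (f := fun s j => w (s j))
    (fun s hs => Finset.mem_coe.2 (Finset.mem_filter.2
      ⟨Finset.mem_univ _, (Finset.mem_filter.1 (Finset.mem_coe.1 hs)).2⟩))
  rw [rearr_eq, hc, Nat.cast_sum, mul_comm, ← nsmul_eq_mul]
  refine Finset.sum_le_card_nsmul _ _ _ fun w' _ => le_trans ?_ (stab_le w)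
  refine Nat.cast_le.2 ?_
  rcases ((univ.filter (fun s : Equiv.Perm (Fin m) =>
    wp (fun j => gw w Z (s j)) = wp (gw w Z))).filter
      (fun s => (fun j => w (s j)) = w')).eq_empty_or_nonempty with h | ⟨t, ht⟩
  · rw [h]; exact Nat.zero_le _
  · have ht' := (Finset.mem_filter.1 ht).2
    refine Finset.card_le_card_of_injOn (fun s => s * t⁻¹) (fun s hs => ?_)
      (fun a _ b _ hab => mul_right_cancel hab)
    have hs' := (Finset.mem_filter.1 (Finset.mem_coe.1 hs)).2
    refine Finset.mem_coe.2 (Finset.mem_filter.2 ⟨Finset.mem_univ _, funext fun j => ?_⟩)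
    have h1 := congrFun (hs'.trans ht'.symm) (t⁻¹ j)
    simpa using h1

variable [Fintype G]

/-- the points of large mass -/
noncomputable def heavy (Z : Fin k → G) (m : ℕ) (s : ℝ) : Finset G :=
  univ.filter (fun x => Real.exp s ≤ (Fintype.card G : ℝ) * mu Z m x)

theorem heavy_card (hk : 0 < k) (Z : Fin k → G) (s : ℝ) :
    ((heavy Z m s).card : ℝ) ≤ Fintype.card G * Real.exp (-s) := by
  have h1 : ((heavy Z m s).card : ℝ) * Real.exp s ≤
      ∑ x ∈ heavy Z m s, (Fintype.card G : ℝ) * mu Z m x := by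
    rw [← nsmul_eq_mul]
    exact Finset.card_nsmul_le_sum _ _ _ fun x hx => (Finset.mem_filter.1 hx).2
  have h2 : ∑ x ∈ heavy Z m s, (Fintype.card G : ℝ) * mu Z m x ≤
      ∑ x, (Fintype.card G : ℝ) * mu Z m x :=
    Finset.sum_le_sum_of_subset_of_nonneg (Finset.subset_univ _)
      fun x _ _ => mul_nonneg (Nat.cast_nonneg _) (mu_nonneg Z m x)
  rw [← Finset.mul_sum univ, mu_sum hk, mul_one] at h2
  rw [Real.exp_neg, ← div_eq_mul_inv, le_div_iff₀ (Real.exp_pos s)]
  exact h1.trans h2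

theorem heavy_mass (hk : 0 < k) (Z : Fin k → G) (s : ℝ) :
    1 - ∑ x ∈ heavy Z m s, mu Z m x ≤ av (fun w : Fin m → Fin k =>
      ind (Real.log (Fintype.card G) - m * Real.log k + lq (gw w Z) - rho w < s)) := by
  have hk' : (0 : ℝ) < k := Nat.cast_pos.2 hk
  have hN : (0 : ℝ) < Fintype.card G := Nat.cast_pos.2 Fintype.card_pos
  have h1 : 1 - ∑ x ∈ heavy Z m s, mu Z m x = ∑ x ∈ (heavy Z m s)ᶜ, mu Z m x := by
    rw [← mu_sum hk Z m, ← Finset.sum_add_sum_compl (heavy Z m s), add_sub_cancel_left]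
  rw [h1]
  simp only [mu_eq_av]
  rw [← av_sum]
  refine av_mono fun w => ?_
  by_cases hw : wp (gw w Z) ∈ (heavy Z m s)ᶜ
  · rw [Finset.sum_eq_single_of_mem _ hw (fun x _ hx => ind_neg fun h => hx h.symm)]
    refine ind_mono fun _ => ?_
    have h2 : (Fintype.card G : ℝ) * mu Z m (wp (gw w Z)) < Real.exp s :=
      not_le.1 fun h => Finset.mem_compl.1 hw (Finset.mem_filter.2 ⟨Finset.mem_univ _, h⟩)
    have h3 := orbit_le w Z
    have h4 : (0 : ℝ) < rearr (gw w Z) := Nat.cast_pos.2 (rearr_pos _)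
    rw [← Real.exp_lt_exp]
    refine lt_of_le_of_lt ?_ h2
    unfold lq mu
    rw [Real.exp_sub, Real.exp_add, Real.exp_sub, Real.exp_log hN, Real.exp_log h4,
      ← Real.log_pow, Real.exp_log (by positivity), div_le_iff₀ (Real.exp_pos _)]
    calc (Fintype.card G : ℝ) / (k : ℝ) ^ m * rearr (gw w Z)
        ≤ (Fintype.card G : ℝ) / (k : ℝ) ^ m * (Real.exp (rho w) *
          (univ.filter (fun w' : Fin m → Fin k => wp (gw w' Z) = wp (gw w Z))).card) :=
          mul_le_mul_of_nonneg_left h3 (by positivity)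
      _ = _ := by ring
  · rw [Finset.sum_eq_zero (fun x hx => ind_neg fun h : wp (gw w Z) = x => hw (h ▸ hx))]
    exact ind_nonneg _

end Pool.Agent.Lib.MP_d87a8f_pr.U
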