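import Mathlib
import Pool.Agent.Lib.MP_d87a8f_pr.U.Walk

/-!
From a fixed number of steps to continuous time.
-/

namespace Pool.Agent.Lib.MP_d87a8f_pr.U

open Finset

theorem poisson_nonneg {t : ℝ} (ht : 0 ≤ t) (l : ℕ) : 0 ≤ poisson t l := by
  unfold poisson; positivity

theorem poisson_hasSum (t : ℝ) : HasSum (poisson t) 1 := by
  have h : HasSum (fun n : ℕ => t ^ n / (n.factorial : ℝ)) (Real.exp t) := by
    rw [Real.exp_eq_exp_ℝ]
    exact NormedSpace.expSeries_div_hasSum_exp t
  have h2 := h.mul_left (Real.exp (-t))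
  rw [← Real.exp_add, neg_add_cancel, Real.exp_zero] at h2
  have e : poisson t = fun n : ℕ => Real.exp (-t) * (t ^ n / (n.factorial : ℝ)) := by
    funext n; unfold poisson; ring
  rw [e]; exact h2

theorem poisson_succ (t : ℝ) (l : ℕ) : poisson t (l + 1) * ((l : ℝ) + 1) = t * poisson t l := by
  unfold poisson
  have h1 : (l.factorial : ℝ) ≠ 0 := Nat.cast_ne_zero.mpr (Nat.factorial_ne_zero l)
  have h2 : (l : ℝ) + 1 ≠ 0 := by positivity
  rw [Nat.factorial_succ, pow_succ]; push_cast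
  field_simp

theorem poisson_mean (t : ℝ) : HasSum (fun l : ℕ => poisson t l * (l : ℝ)) t := by
  refine (hasSum_nat_add_iff' 1).mp ?_
  have h := (poisson_hasSum t).mul_left t
  have e : (fun n : ℕ => poisson t (n + 1) * ((n + 1 : ℕ) : ℝ)) = fun n => t * poisson t n := by
    funext n; push_cast; exact poisson_succ t n
  rw [e]; simpa using h

theorem poisson_fact2 (t : ℝ) :
    HasSum (fun l : ℕ => poisson t l * (l : ℝ) * ((l : ℝ) - 1)) (t ^ 2) := by
  refine (hasSum_nat_add_iff' 1).mp ?_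
  have h := (poisson_mean t).mul_left t
  have e : (fun n : ℕ => poisson t (n + 1) * ((n + 1 : ℕ) : ℝ) * (((n + 1 : ℕ) : ℝ) - 1)) =
      fun n => t * (poisson t n * (n : ℝ)) := by
    funext n; push_cast; rw [poisson_succ t n]; ring
  rw [e]; simpa [sq] using h

theorem poisson_var (t : ℝ) : HasSum (fun l : ℕ => poisson t l * ((l : ℝ) - t) ^ 2) t := by
  have h := ((poisson_fact2 t).add ((poisson_mean t).mul_left (1 - 2 * t))).add
    ((poisson_hasSum t).mul_left (t ^ 2))
  have e : (fun l : ℕ => poisson t l * ((l : ℝ) - t) ^ 2) = fun l : ℕ =>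
      poisson t l * (l : ℝ) * ((l : ℝ) - 1) + (1 - 2 * t) * (poisson t l * (l : ℝ)) +
        t ^ 2 * poisson t l := by
    funext l; ring
  have e2 : t ^ 2 + (1 - 2 * t) * t + t ^ 2 * 1 = t := by ring
  rw [e2] at h
  rw [e]; exact h

theorem pois_low {t : ℝ} {m : ℕ} (h : (m : ℝ) < t) :
    ∑ l ∈ range m, poisson t l ≤ t / (t - m) ^ 2 := by
  have ht : 0 ≤ t := le_trans (Nat.cast_nonneg m) h.le
  have hd : 0 < t - m := by linarith
  rw [le_div_iff₀ (pow_pos hd 2), Finset.sum_mul]
  refine le_trans (Finset.sum_le_sum (fun l hl => ?_)) (sum_le_hasSum (range m)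
    (fun l _ => mul_nonneg (poisson_nonneg ht l) (sq_nonneg _)) (poisson_var t))
  have hl' : (l : ℝ) ≤ m := Nat.cast_le.mpr (Finset.mem_range.mp hl).le
  refine mul_le_mul_of_nonneg_left ?_ (poisson_nonneg ht l)
  nlinarith

theorem pois_high {t : ℝ} {m : ℕ} (ht : 0 ≤ t) (h : t < m) :
    1 - ∑ l ∈ range (m + 1), poisson t l ≤ t / (m - t) ^ 2 := by
  have hd : 0 < (m : ℝ) - t := by linarith
  have h1 := ((hasSum_nat_add_iff' (m + 1)).mpr (poisson_hasSum t)).mul_right (((m : ℝ) - t) ^ 2)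
  have h2 := (hasSum_nat_add_iff' (m + 1)).mpr (poisson_var t)
  have h3 := hasSum_le (fun l : ℕ => by
    have hl : (m : ℝ) ≤ ((l + (m + 1) : ℕ) : ℝ) := Nat.cast_le.mpr (by omega)
    refine mul_le_mul_of_nonneg_left ?_ (poisson_nonneg ht _)
    nlinarith) h1 h2
  have h4 : 0 ≤ ∑ l ∈ range (m + 1), poisson t l * ((l : ℝ) - t) ^ 2 :=
    Finset.sum_nonneg (fun l _ => mul_nonneg (poisson_nonneg ht l) (sq_nonneg _))
  rw [le_div_iff₀ (pow_pos hd 2)]
  linarith

variable {G : Type} [Group G] [DecidableEq G] {k : ℕ}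

theorem walkLaw_eq (Z : Fin k → G) (t : ℝ) (g : G) :
    walkLaw Z t g = ∑' l : ℕ, poisson t l * mu Z l g := rfl

variable [Fintype G]

theorem tvDist_eq (Z : Fin k → G) (t : ℝ) : tvDist Z t = tv (walkLaw Z t) := rfl

theorem mu_le_one (hk : 0 < k) (Z : Fin k → G) (l : ℕ) (g : G) : mu Z l g ≤ 1 := by
  rw [← mu_sum hk Z l]
  exact Finset.single_le_sum (f := fun x => mu Z l x) (fun x _ => mu_nonneg Z l x)
    (Finset.mem_univ g)

theorem walkLaw_hasSum (hk : 0 < k) (Z : Fin k → G) {t : ℝ} (ht : 0 ≤ t) (g : G) :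
    HasSum (fun l : ℕ => poisson t l * mu Z l g) (walkLaw Z t g) := by
  rw [walkLaw_eq]
  refine Summable.hasSum (Summable.of_nonneg_of_le
    (fun l => mul_nonneg (poisson_nonneg ht l) (mu_nonneg Z l g)) (fun l => ?_)
    (poisson_hasSum t).summable)
  exact mul_le_of_le_one_right (poisson_nonneg ht l) (mu_le_one hk Z l g)

theorem walkLaw_set (hk : 0 < k) (Z : Fin k → G) {t : ℝ} (ht : 0 ≤ t) (B : Finset G) :
    HasSum (fun l : ℕ => poisson t l * ∑ x ∈ B, mu Z l x) (∑ x ∈ B, walkLaw Z t x) := by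
  have h := hasSum_sum (s := B) (fun x _ => walkLaw_hasSum hk Z ht x)
  simp only [Finset.mul_sum]
  exact h

theorem walkLaw_sum (hk : 0 < k) (Z : Fin k → G) {t : ℝ} (ht : 0 ≤ t) :
    ∑ x, walkLaw Z t x = 1 := by
  have h := walkLaw_set hk Z ht univ
  simp only [mu_sum hk Z, mul_one] at h
  exact h.unique (poisson_hasSum t)

omit [Group G] [DecidableEq G] in
theorem tv_nonneg' (p : G → ℝ) : 0 ≤ tv p := by
  unfold tv; positivity

theorem tvDist_nonneg (Z : Fin k → G) (t : ℝ) : 0 ≤ tvDist Z t := by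
  unfold tvDist; positivity

/-- convexity of the distance, `tv_le_one` before `m` and `tv_mu_anti` from `m` on -/
theorem tvDist_le (hk : 0 < k) (Z : Fin k → G) {t : ℝ} (ht : 0 ≤ t) (m : ℕ) :
    tvDist Z t ≤ ∑ l ∈ range m, poisson t l + tv (mu Z m) := by
  set c : ℝ := 1 / (Fintype.card G : ℝ) with hc
  have hc0 : 0 ≤ c := by rw [hc]; positivity
  have hsm : ∀ g : G, Summable (fun l : ℕ => poisson t l * |mu Z l g - c|) := by
    intro g
    refine Summable.of_nonneg_of_le
      (fun l => mul_nonneg (poisson_nonneg ht l) (abs_nonneg _)) (fun l => ?_)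
      ((poisson_hasSum t).summable.mul_right (1 + c))
    refine mul_le_mul_of_nonneg_left ?_ (poisson_nonneg ht l)
    have a1 := mu_nonneg Z l g
    have a2 := mu_le_one hk Z l g
    rw [abs_le]; constructor <;> linarith
  have hg : ∀ g : G, |walkLaw Z t g - c| ≤ ∑' l : ℕ, poisson t l * |mu Z l g - c| := by
    intro g
    have h1 := (walkLaw_hasSum hk Z ht g).sub ((poisson_hasSum t).mul_right c)
    rw [one_mul] at h1
    have h2 := (hsm g).hasSum
    rw [abs_le]
    constructor
    · refine hasSum_le (fun l => ?_) h2.neg h1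
      have := mul_le_mul_of_nonneg_left (neg_abs_le (mu Z l g - c)) (poisson_nonneg ht l)
      linarith
    · refine hasSum_le (fun l => ?_) h1 h2
      have := mul_le_mul_of_nonneg_left (le_abs_self (mu Z l g - c)) (poisson_nonneg ht l)
      linarith
  have h3 : HasSum (fun l : ℕ => poisson t l * tv (mu Z l))
      ((1 / 2) * ∑ g : G, ∑' l : ℕ, poisson t l * |mu Z l g - c|) := by
    have h := (hasSum_sum (s := (univ : Finset G)) (fun g _ => (hsm g).hasSum)).mul_left (1 / 2)
    have e : (fun l : ℕ => poisson t l * tv (mu Z l)) =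
        fun l : ℕ => (1 / 2) * ∑ g : G, poisson t l * |mu Z l g - c| := by
      funext l; unfold tv; rw [← Finset.mul_sum, ← hc]; ring
    rw [e]; exact h
  have h4 : HasSum (fun l : ℕ => (if l ∈ range m then poisson t l else 0) +
      poisson t l * tv (mu Z m)) (∑ l ∈ range m, poisson t l + tv (mu Z m)) := by
    have a1 := (poisson_hasSum t).mul_right (tv (mu Z m))
    rw [one_mul] at a1
    refine HasSum.add ?_ a1
    have a2 : HasSum (fun l : ℕ => if l ∈ range m then poisson t l else 0)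
        (∑ l ∈ range m, if l ∈ range m then poisson t l else 0) :=
      hasSum_sum_of_ne_finset_zero (fun l hl => if_neg hl)
    rwa [Finset.sum_congr rfl (fun l hl => if_pos hl)] at a2
  have h5 := hasSum_le (fun l => by
    have p0 := poisson_nonneg ht l
    by_cases hl : l ∈ range m
    · rw [if_pos hl]
      have b1 := mul_le_of_le_one_right p0 (tv_le_one _ (mu_nonneg Z l) (mu_sum hk Z l))
      have b2 := mul_nonneg p0 (tv_nonneg' (mu Z m))
      linarith
    · rw [if_neg hl, zero_add]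
      exact mul_le_mul_of_nonneg_left
        (tv_mu_anti hk Z (not_lt.mp (fun h => hl (Finset.mem_range.mpr h)))) p0) h3 h4
  refine le_trans ?_ h5
  unfold tvDist
  rw [← hc]
  exact mul_le_mul_of_nonneg_left (Finset.sum_le_sum (fun g _ => hg g)) (by norm_num)

theorem tvDist_le_one (hk : 0 < k) (Z : Fin k → G) {t : ℝ} (ht : 0 ≤ t) : tvDist Z t ≤ 1 := by
  have h := tvDist_le hk Z ht 0
  rw [Finset.range_zero, Finset.sum_empty, zero_add] at h
  exact h.trans (tv_le_one _ (mu_nonneg Z 0) (mu_sum hk Z 0))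

/-- test on the union of the translates of `A` given by `exists_translate` -/
theorem tvDist_ge (hk : 0 < k) (Z : Fin k → G) {t : ℝ} (ht : 0 ≤ t) (m : ℕ) (A : Finset G) :
    (∑ l ∈ range (m + 1), poisson t l) * ∑ x ∈ A, mu Z m x -
      ((m : ℝ) + 1) * A.card / Fintype.card G ≤ tvDist Z t := by
  have hex : ∀ l : ℕ, ∃ A' : Finset G, A'.card = A.card ∧
      (l ≤ m → ∑ x ∈ A, mu Z m x ≤ ∑ x ∈ A', mu Z l x) := by
    intro l
    by_cases hl : l ≤ m
    · obtain ⟨A', h1, h2⟩ := exists_translate hk Z hl A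
      exact ⟨A', h1, fun _ => h2⟩
    · exact ⟨A, rfl, fun h => absurd h hl⟩
  choose T hT1 hT2 using hex
  set B : Finset G := (range (m + 1)).biUnion T with hB
  have hcard : (B.card : ℝ) ≤ ((m : ℝ) + 1) * A.card := by
    have h1 : B.card ≤ ∑ l ∈ range (m + 1), (T l).card := Finset.card_biUnion_le
    rw [Finset.sum_congr rfl (fun l _ => hT1 l), Finset.sum_const, Finset.card_range,
      smul_eq_mul] at h1
    exact_mod_cast h1
  have h2 := le_tv (walkLaw Z t) (walkLaw_sum hk Z ht) B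
  have h3 := sum_le_hasSum (range (m + 1)) (fun l _ => mul_nonneg (poisson_nonneg ht l)
    (Finset.sum_nonneg (fun x _ => mu_nonneg Z l x))) (walkLaw_set hk Z ht B)
  have h4 : (∑ l ∈ range (m + 1), poisson t l) * ∑ x ∈ A, mu Z m x ≤
      ∑ l ∈ range (m + 1), poisson t l * ∑ x ∈ B, mu Z l x := by
    rw [Finset.sum_mul]
    refine Finset.sum_le_sum (fun l hl => ?_)
    refine mul_le_mul_of_nonneg_left ?_ (poisson_nonneg ht l)
    refine (hT2 l (Nat.lt_succ_iff.mp (Finset.mem_range.mp hl))).trans ?_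
    exact Finset.sum_le_sum_of_subset_of_nonneg
      (Finset.subset_biUnion_of_mem T hl) (fun x _ _ => mu_nonneg Z l x)
  have h5 : (B.card : ℝ) / Fintype.card G ≤ ((m : ℝ) + 1) * A.card / Fintype.card G :=
    div_le_div_of_nonneg_right hcard (Nat.cast_nonneg _)
  rw [tvDist_eq]
  linarith

end Pool.Agent.Lib.MP_d87a8f_pr.U
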