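import Mathlib
import Pool.Agent.Lib.MP_d87a8f_pr.U.Walk
import Pool.Agent.Lib.MP_d87a8f_pr.U.Words

/-!
The upper bound after a fixed number of steps: a truncated second moment.
-/

namespace Pool.Agent.Lib.MP_d87a8f_pr.U

open Finset

variable {G : Type} [Group G] [DecidableEq G] {k m : ℕ}

/-- typical pairs -/
def typ (r : ℕ) (a : ℝ) (w : Fin m → Fin k) (Z : Fin k → G) : Prop :=
  rho w ≤ r ∧ lq (gw w Z) ≤ a

/-- some single letter of `w` does not occur in `w'` -/
def free (w w' : Fin m → Fin k) : Prop := ∃ j, single w j ∧ ∀ i, w' i ≠ w j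

/-- the typical part of the law -/
noncomputable def nu (r : ℕ) (a : ℝ) (m : ℕ) (Z : Fin k → G) (x : G) : ℝ :=
  av (fun w : Fin m → Fin k => ind (typ r a w Z ∧ wp (gw w Z) = x))

theorem exists_perm_of_map_eq {w v : Fin m → Fin k} (h : univ.val.map w = univ.val.map v) :
    ∃ s : Equiv.Perm (Fin m), w = fun j => v (s j) := by
  have hc : ∀ a, Fintype.card {j // w j = a} = Fintype.card {j // v j = a} := fun a => by
    have := congrArg (Multiset.count a) h
    rw [Multiset.count_map, Multiset.count_map] at this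
    simp only [eq_comm (a := a)] at this
    rw [Fintype.card_subtype, Fintype.card_subtype]
    exact this
  exact ⟨Equiv.ofFiberEquiv fun a => Fintype.equivOfCardEq (hc a),
    funext fun j => (Equiv.ofFiberEquiv_map _ j).symm⟩

open Classical in
/-- words with the same letters as a typical one and the same product are rearrangements of it -/
theorem card_same_le (Z : Fin k → G) (x : G) (a : ℝ) (M : Multiset (Fin k)) :
    ((univ.filter (fun w : Fin m → Fin k =>
      univ.val.map w = M ∧ lq (gw w Z) ≤ a ∧ wp (gw w Z) = x)).card : ℝ) ≤ Real.exp a := by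
  rcases (univ.filter (fun w : Fin m → Fin k =>
      univ.val.map w = M ∧ lq (gw w Z) ≤ a ∧ wp (gw w Z) = x)).eq_empty_or_nonempty with h | ⟨v, hv⟩
  · rw [h, card_empty, Nat.cast_zero]; exact (Real.exp_pos a).le
  obtain ⟨-, h1, h2, h3⟩ := mem_filter.1 hv
  have h4 : (rearr (gw v Z) : ℝ) ≤ Real.exp a :=
    (Real.log_le_iff_le_exp (by exact_mod_cast rearr_pos _)).1 h2
  refine le_trans ?_ h4
  rw [rearr_eq, Nat.cast_le]
  refine card_le_card_of_surjOn (fun s j => v (s j)) fun w hw => ?_
  obtain ⟨-, e1, -, e3⟩ := mem_filter.1 (mem_coe.1 hw)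
  obtain ⟨s, rfl⟩ := exists_perm_of_map_eq (e1.trans h1.symm)
  exact ⟨s, mem_coe.2 (mem_filter.2 ⟨mem_univ _, e3.trans h3.symm⟩), rfl⟩

open Classical in
/-- the multiset of `w'` is the set of single letters of `w` plus at most `r` letters -/
theorem card_multi_le (w : Fin m → Fin k) (r : ℕ) (hr : rho w ≤ r) :
    ((univ.filter (fun w' : Fin m → Fin k => ¬ free w w')).image
      (fun w' : Fin m → Fin k => univ.val.map w')).card ≤ (k + r).choose r := by
  set S := (univ.filter (single w)).image w with hS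
  set t := (univ.filter (fun j => ¬ single w j)).card with ht
  have htr : t ≤ r := by exact_mod_cast (card_not_single_le w).trans hr
  have hc : S.card + t = m := by
    rw [hS, card_image_of_injOn fun i _ j hj e =>
      (show single w j from (mem_filter.1 (mem_coe.1 hj)).2) i e,
      card_filter_add_card_filter_not, card_univ, Fintype.card_fin]
  calc _ ≤ ((univ : Finset (Sym (Fin k) t)).image fun σ => S.val + σ.1).card := by
        refine card_le_card fun M hM => ?_
        obtain ⟨v, hv, rfl⟩ := mem_image.1 hM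
        have hle : S.val ≤ univ.val.map v := by
          refine (Multiset.le_iff_subset S.nodup).2 fun b hb => ?_
          obtain ⟨j, hj, rfl⟩ := mem_image.1 (show b ∈ S from hb)
          by_contra hn
          exact (mem_filter.1 hv).2 ⟨j, (mem_filter.1 hj).2, fun i e =>
            hn (Multiset.mem_map.2 ⟨i, mem_univ i, e⟩)⟩
        obtain ⟨u, hu⟩ := Multiset.le_iff_exists_add.1 hle
        have := congrArg Multiset.card hu
        rw [Multiset.card_map, Multiset.card_add, card_val, card_val, card_univ,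
          Fintype.card_fin] at this
        exact mem_image.2 ⟨⟨u, by omega⟩, mem_univ _, hu.symm⟩
    _ ≤ (k + t - 1).choose t := by
        refine card_image_le.trans ?_
        rw [card_univ, Sym.card_sym_eq_choose, Fintype.card_fin]
    _ ≤ (k + t).choose t := Nat.choose_le_choose _ (Nat.sub_le _ _)
    _ ≤ _ := by
        rw [← Nat.choose_symm_add, ← Nat.choose_symm_add (b := r)]
        exact Nat.choose_le_choose _ (by omega)

theorem av_not_free_le (w : Fin m → Fin k) (Z : Fin k → G) (x : G) (r : ℕ) (a : ℝ)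
    (hr : rho w ≤ r) :
    av (fun w' : Fin m → Fin k => ind (¬ free w w' ∧ lq (gw w' Z) ≤ a ∧ wp (gw w' Z) = x)) ≤
      Real.exp a * ((k + r).choose r : ℝ) / (k : ℝ) ^ m := by
  classical
  unfold av
  rw [sum_ind, Fintype.card_fun, Fintype.card_fin, Fintype.card_fin, Nat.cast_pow]
  refine div_le_div_of_nonneg_right ?_ (by positivity)
  rw [card_eq_sum_card_fiberwise (f := fun w' : Fin m → Fin k => univ.val.map w')
    (t := (univ.filter (fun w' : Fin m → Fin k => ¬ free w w')).image
      (fun w' : Fin m → Fin k => univ.val.map w')) fun v hv => mem_coe.2 (mem_image_of_mem _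
        (mem_filter.2 ⟨mem_univ _, (mem_filter.1 (mem_coe.1 hv)).2.1⟩)), Nat.cast_sum]
  refine (sum_le_card_nsmul _ _ (Real.exp a) fun M _ =>
    le_trans ?_ (card_same_le (m := m) Z x a M)).trans ?_
  · refine Nat.cast_le.2 (card_le_card fun v hv => ?_)
    obtain ⟨h1, h2⟩ := mem_filter.1 hv
    exact mem_filter.2 ⟨mem_univ _, h2, (mem_filter.1 h1).2.2⟩
  · rw [nsmul_eq_mul, mul_comm]
    exact mul_le_mul_of_nonneg_left (Nat.cast_le.2 (card_multi_le w r hr)) (Real.exp_pos a).le

variable [Fintype G]

/-- resample the generator of the free letter -/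
theorem av_free (w w' : Fin m → Fin k) (h : free w w') :
    av (fun Z : Fin k → G => ind (wp (gw w Z) = wp (gw w' Z))) = 1 / Fintype.card G := by
  obtain ⟨j, hj, hw⟩ := h
  rw [← av_update _ (w j), ← av_const (α := Fin k → G) (1 / (Fintype.card G : ℝ))]
  congr 1
  funext Z
  have e1 : ∀ a, gw w' (Function.update Z (w j) a) = gw w' Z := fun a =>
    funext fun i => Function.update_of_ne (hw i) _ _
  have e2 : ∀ a, List.ofFn (gw w (Function.update Z (w j) a)) = (List.ofFn (gw w Z)).set j a :=
    fun a => by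
      refine List.ext_getElem (by simp) fun i h1 h2 => ?_
      rw [List.getElem_set, List.getElem_ofFn, List.getElem_ofFn]
      split_ifs with hi
      · subst hi; exact Function.update_self ..
      · exact Function.update_of_ne (fun e => hi (congrArg Fin.val (hj _ e)).symm) _ _
  have e3 : ∀ A B C a : G, A * a * B = C ↔ a = A⁻¹ * (C * B⁻¹) := fun A B C a => by
    rw [eq_inv_mul_iff_mul_eq, eq_mul_inv_iff_mul_eq]
  simp only [e1, wp, e2, List.prod_set, List.length_ofFn, j.isLt, if_true, e3]
  unfold av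
  rw [sum_ind, filter_eq', if_pos (mem_univ _), card_singleton, Nat.cast_one]

omit [Group G] [DecidableEq G] in
theorem up_sum_ind (p : Prop) (y : G) (f : G → ℝ) :
    ∑ x, f x * ind (p ∧ y = x) = f y * ind p := by
  rw [Finset.sum_eq_single y (fun x _ h => by rw [ind_neg fun e => h e.2.symm, mul_zero])
    (fun h => absurd (mem_univ y) h)]
  simp

theorem up_sum_mul_nu (r : ℕ) (a : ℝ) (Z : Fin k → G) (f : G → ℝ) :
    ∑ x, f x * nu r a m Z x =
      av (fun w : Fin m → Fin k => f (wp (gw w Z)) * ind (typ r a w Z)) := by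
  simp only [nu, ← av_mul_left]
  rw [← av_sum]
  exact congrArg av (funext fun w => up_sum_ind _ _ f)

theorem second_moment (hk : 0 < k) (r : ℕ) (a : ℝ) :
    av (fun Z : Fin k → G => (Fintype.card G : ℝ) * ∑ x, nu r a m Z x ^ 2) ≤
      1 + Real.exp (Real.log (Fintype.card G) - m * Real.log k + a) * ((k + r).choose r : ℝ) := by
  have hN : (0 : ℝ) < Fintype.card G := by exact_mod_cast Fintype.card_pos
  have hk' : (0 : ℝ) < k := by exact_mod_cast hk
  set c : ℝ := Real.exp a * ((k + r).choose r : ℝ) / (k : ℝ) ^ m with hc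
  have hc0 : 0 ≤ c := by positivity
  have h1 : ∀ Z : Fin k → G, ∑ x, nu r a m Z x ^ 2 ≤ av (fun w : Fin m → Fin k =>
      av (fun w' : Fin m → Fin k => ind (free w w' ∧ wp (gw w Z) = wp (gw w' Z)))) + c := by
    intro Z
    simp only [sq]
    rw [up_sum_mul_nu]
    refine le_trans (av_mono fun w => ?_) ((av_add _ fun _ => c).le.trans
      (add_le_add le_rfl (av_const_le hc0)))
    by_cases h : typ r a w Z
    · rw [ind_pos h, mul_one]
      refine le_trans (av_mono fun w' => ?_) ((av_add _ _).le.trans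
        (add_le_add le_rfl (av_not_free_le w Z (wp (gw w Z)) r a h.1)))
      refine le_trans (ind_mono fun e => ?_) (ind_or_le _ _)
      by_cases hf : free w w'
      · exact Or.inl ⟨hf, e.2.symm⟩
      · exact Or.inr ⟨hf, e.1.2, e.2⟩
    · rw [ind_neg h, mul_zero]
      exact add_nonneg (av_nonneg fun _ => ind_nonneg _) hc0
  have h2 : av (fun Z : Fin k → G => av (fun w : Fin m → Fin k => av (fun w' : Fin m → Fin k =>
      ind (free w w' ∧ wp (gw w Z) = wp (gw w' Z))))) ≤ 1 / Fintype.card G := by
    rw [av_comm]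
    refine le_trans (av_mono fun w => ?_) (av_const_le (by positivity))
    rw [av_comm]
    refine le_trans (av_mono fun w' => ?_) (av_const_le (by positivity))
    by_cases hf : free w w'
    · exact (av_mono fun Z => ind_mono And.right).trans (av_free w w' hf).le
    · exact (av_mono fun Z => (ind_neg fun e => hf e.1).le.trans (by positivity)).trans
        (av_const_le (by positivity))
  have h3 := (av_mono h1).trans ((av_add _ fun _ => c).le.trans (add_le_add h2 (av_const_le hc0)))
  rw [av_mul_left, Real.exp_add, Real.exp_sub, Real.exp_log hN, Real.exp_nat_mul,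
    Real.exp_log hk']
  refine (mul_le_mul_of_nonneg_left h3 hN.le).trans (le_of_eq ?_)
  rw [hc]; field_simp

/-- triangle inequality through `nu` and Cauchy-Schwarz -/
theorem tv_le_nu (hk : 0 < k) (r : ℕ) (a : ℝ) (Z : Fin k → G) :
    0 ≤ (Fintype.card G : ℝ) * ∑ x, nu r a m Z x ^ 2 - 1 +
        2 * av (fun w : Fin m → Fin k => ind (¬ typ r a w Z)) ∧
    tv (mu Z m) ≤ av (fun w : Fin m → Fin k => ind (¬ typ r a w Z)) / 2 +
      Real.sqrt ((Fintype.card G : ℝ) * ∑ x, nu r a m Z x ^ 2 - 1 +
        2 * av (fun w : Fin m → Fin k => ind (¬ typ r a w Z))) / 2 := by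
  have : Nonempty (Fin k) := ⟨⟨0, hk⟩⟩
  have hN : (0 : ℝ) < Fintype.card G := by exact_mod_cast Fintype.card_pos
  set N : ℝ := (Fintype.card G : ℝ) with hNd
  set b := av (fun w : Fin m → Fin k => ind (¬ typ r a w Z)) with hb
  have h1 : ∑ x, nu r a m Z x = 1 - b := by
    have := up_sum_mul_nu (m := m) r a Z fun _ => 1
    simp only [one_mul] at this
    rw [this, hb, ← av_const (α := Fin m → Fin k) 1, ← av_sub]
    refine congrArg av (funext fun w => ?_)
    by_cases h : typ r a w Z
    · rw [ind_pos h, ind_neg (not_not.2 h), sub_zero]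
    · rw [ind_neg h, ind_pos h, sub_self]
  have h2 : N * ∑ x, (nu r a m Z x - 1 / N) ^ 2 = N * ∑ x, nu r a m Z x ^ 2 - 1 + 2 * b := by
    simp only [sub_sq, Finset.sum_add_distrib, Finset.sum_sub_distrib, ← Finset.sum_mul,
      ← Finset.mul_sum, h1, Finset.sum_const, card_univ, nsmul_eq_mul, ← hNd]
    field_simp
    ring
  have h3 : ∀ x, nu r a m Z x ≤ mu Z m x := fun x => by
    rw [mu_eq_av]; exact av_mono fun w => ind_mono And.right
  have h4 : ∑ x, |nu r a m Z x - 1 / N| ≤ Real.sqrt (N * ∑ x, (nu r a m Z x - 1 / N) ^ 2) := by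
    have := sq_sum_le_card_mul_sum_sq (s := (univ : Finset G))
      (f := fun x => |nu r a m Z x - 1 / N|)
    simp only [sq_abs, card_univ] at this
    exact Real.le_sqrt_of_sq_le this
  have h5 : ∑ x, |mu Z m x - 1 / N| ≤
      ∑ x, ((mu Z m x - nu r a m Z x) + |nu r a m Z x - 1 / N|) :=
    Finset.sum_le_sum fun x _ => (abs_sub_le _ (nu r a m Z x) _).trans
      (by rw [abs_of_nonneg (sub_nonneg.2 (h3 x))])
  rw [Finset.sum_add_distrib, Finset.sum_sub_distrib, mu_sum hk, h1] at h5
  rw [← h2]
  refine ⟨by positivity, ?_⟩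
  unfold tv
  linarith

theorem up_core (hk : 0 < k) (r : ℕ) (a : ℝ) (η : ℝ)
    (hη : av (fun p : (Fin m → Fin k) × (Fin k → G) => ind (¬ typ r a p.1 p.2)) ≤ η) :
    av (fun Z : Fin k → G => tv (mu Z m)) ≤ η / 2 + Real.sqrt
      (Real.exp (Real.log (Fintype.card G) - m * Real.log k + a) * ((k + r).choose r : ℝ) +
        2 * η) / 2 := by
  rw [av_prod'] at hη
  have h1 := av_mono fun Z : Fin k → G => (tv_le_nu (m := m) hk r a Z).2
  have h2 := av_sqrt_le fun Z : Fin k → G => (tv_le_nu (m := m) hk r a Z).1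
  have h3 := second_moment (G := G) (m := m) hk r a
  simp only [div_eq_inv_mul _ (2 : ℝ)] at h1 ⊢
  rw [av_add, av_mul_left, av_mul_left] at h1
  rw [av_add, av_sub, av_const, av_mul_left 2] at h2
  have h4 := h2.trans (Real.sqrt_le_sqrt (show _ ≤ Real.exp (Real.log (Fintype.card G) -
    m * Real.log k + a) * ((k + r).choose r : ℝ) + 2 * η by linarith))
  linarith

theorem choose_le_exp (n r : ℕ) {x : ℝ} (hx : 0 < x) :
    (n.choose r : ℝ) ≤ Real.exp (x * n - r * Real.log x) := by
  rw [Real.exp_sub, Real.exp_nat_mul, Real.exp_log hx, le_div_iff₀ (by positivity), mul_comm x,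
    Real.exp_nat_mul]
  refine le_trans ?_ (pow_le_pow_left₀ (by positivity) (Real.add_one_le_exp x) n)
  rcases le_or_gt r n with h | h
  · rw [add_pow]
    refine le_trans (le_of_eq ?_) (single_le_sum (f := fun i => x ^ i * 1 ^ (n - i) * (n.choose i : ℝ))
      (fun i _ => by positivity) (mem_range.2 (Nat.lt_succ_of_le h)))
    rw [one_pow, mul_one, mul_comm]
  · rw [Nat.choose_eq_zero_of_lt h, Nat.cast_zero, zero_mul]; positivity

end Pool.Agent.Lib.MP_d87a8f_pr.U
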