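import Mathlib
import Pool.Agent.Lib.MP_d87a8f_pr.U.Conc
import Pool.Agent.Lib.MP_d87a8f_pr.U.Pois
import Pool.Agent.Lib.MP_d87a8f_pr.U.Low
import Pool.Agent.Lib.MP_d87a8f_pr.U.Up

/-!
Uniform finite forms of the two bounds.
-/

namespace Pool.Agent.Lib.MP_d87a8f_pr.U

open Finset

/-- the entropy deficit after `m` steps -/
noncomputable def psi (G : Type) [Group G] [Fintype G] [DecidableEq G] (k m : ℕ) : ℝ :=
  Real.log (Fintype.card G) + meanLog G k m - m * Real.log k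

theorem psi_add {G : Type} [Group G] [Fintype G] [DecidableEq G] {k m : ℕ} (hk : 0 < k) (d : ℕ)
    (hm : 0 < m + d) :
    psi G k (m + d) ≤ psi G k m - d * Real.log ((k : ℝ) / ((m + d : ℕ) : ℝ)) := by
  have h := meanLog_add (G := G) (m := m) hk d
  have hk' : (k : ℝ) ≠ 0 := by positivity
  have hm' : ((m + d : ℕ) : ℝ) ≠ 0 := by positivity
  rw [Real.log_div hk' hm']
  unfold psi
  have : ((m + d : ℕ) : ℝ) * Real.log k = m * Real.log k + d * Real.log k := by push_cast; ring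
  rw [this]
  linarith

theorem av_rho_tail {G : Type} [Group G] [Fintype G] {k m : ℕ} (hk : 0 < k) {t : ℝ} (ht : 0 < t) :
    av (fun p : (Fin m → Fin k) × (Fin k → G) => ind (t ≤ rho p.1)) ≤ (m : ℝ) ^ 2 / k / t := by
  rw [av_prod]
  have e : (fun x : Fin m → Fin k => av (fun _ : Fin k → G => ind (t ≤ rho x))) =
      fun x => ind (t ≤ rho x) := funext fun x => av_const _
  refine (le_of_eq (congrArg av e)).trans ((markov rho_nonneg ht).trans ?_)
  exact div_le_div_of_nonneg_right (av_rho hk) ht.le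

theorem up_expo {ε L m k r : ℝ} (hε : 0 < ε) (hε1 : ε < 1) (hm : 0 < m) (hk : m ≤ k)
    (hr0 : 0 ≤ r) (hr : r ≤ ε * m / 8) (hl : 32 / ε ≤ Real.log (k / m))
    (hL : L ≤ -(ε / 4 * m * Real.log (k / m))) :
    L + m + (m / k * (k + r) - r * Real.log (m / k)) ≤ -m := by
  have hk0 : 0 < k := hm.trans_le hk
  have e1 : Real.log (m / k) = -Real.log (k / m) := by
    rw [← Real.log_inv, inv_div]
  have e2 : m / k * (k + r) = m + m / k * r := by field_simp
  have h1 : m / k * r ≤ r := mul_le_of_le_one_left hr0 ((div_le_one hk0).mpr hk)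
  have h2 : 32 ≤ Real.log (k / m) * ε := (div_le_iff₀ hε).mp hl
  have h3 : 0 ≤ Real.log (k / m) := le_trans (by positivity) hl
  have h4 : r * Real.log (k / m) ≤ ε * m / 8 * Real.log (k / m) :=
    mul_le_mul_of_nonneg_right hr h3
  have h5 : 32 * m ≤ Real.log (k / m) * ε * m := mul_le_mul_of_nonneg_right h2 hm.le
  have h6 : ε * m ≤ 1 * m := mul_le_mul_of_nonneg_right hε1.le hm.le
  rw [e1, e2]
  nlinarith

/-- `up_core` with `r = ceil (ε m / 16)`, `a = meanLog + m`, `choose_le_exp` at `x = m / k`;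
the exponent is at most `- m` once `log (k / m) ≥ 32 / ε` -/
theorem up_disc (ε η : ℝ) (hε : 0 < ε) (hε1 : ε < 1) (hη : 0 < η) :
    ∃ M K : ℕ, ∀ (G : Type) [Group G] [Fintype G] [DecidableEq G] (k m : ℕ),
      M ≤ m → K * m ≤ k → psi G k m ≤ -(ε / 4 * m * Real.log ((k : ℝ) / m)) →
      av (fun Z : Fin k → G => tv (mu Z m)) ≤ η := by
  obtain ⟨e, he0, he1, heη⟩ : ∃ e : ℝ, 0 < e ∧ e ≤ 1 ∧ e ≤ η :=
    ⟨min 1 η, lt_min one_pos hη, min_le_left _ _, min_le_right _ _⟩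
  obtain ⟨M0, hM0⟩ := conc (e ^ 2 / 8) (by positivity)
  obtain ⟨M1, hM1⟩ := exists_nat_ge (16 / ε)
  obtain ⟨M2, hM2⟩ := exists_nat_ge (2 / e ^ 2)
  obtain ⟨K1, hK1⟩ := exists_nat_ge (Real.exp (32 / ε))
  obtain ⟨K2, hK2⟩ := exists_nat_ge (128 / (ε * e ^ 2))
  refine ⟨M0 + M1 + M2 + 1, K1 + K2 + 16, fun G _ _ _ k m hm hk hpsi => ?_⟩
  have hm0 : 0 < m := by omega
  have hk16 : 16 * m ≤ k := le_trans (Nat.mul_le_mul_right m (by omega)) hk
  have hk0 : 0 < k := by omega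
  have hmR : (0 : ℝ) < m := by exact_mod_cast hm0
  have hkR : (0 : ℝ) < k := by exact_mod_cast hk0
  have hmk : (m : ℝ) ≤ k := by exact_mod_cast (by omega : m ≤ k)
  have a1 : 16 / ε ≤ (m : ℝ) := hM1.trans (by exact_mod_cast (by omega : M1 ≤ m))
  have a2 : 2 / e ^ 2 ≤ (m : ℝ) := hM2.trans (by exact_mod_cast (by omega : M2 ≤ m))
  have a3 : (K1 : ℝ) * m ≤ k := by
    exact_mod_cast le_trans (Nat.mul_le_mul_right m (by omega : K1 ≤ K1 + K2 + 16)) hk
  have a4 : (K2 : ℝ) * m ≤ k := by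
    exact_mod_cast le_trans (Nat.mul_le_mul_right m (by omega : K2 ≤ K1 + K2 + 16)) hk
  have hl : 32 / ε ≤ Real.log ((k : ℝ) / m) := by
    rw [Real.le_log_iff_exp_le (by positivity)]
    exact hK1.trans ((le_div_iff₀ hmR).mpr a3)
  obtain ⟨r, hr1, hr2⟩ : ∃ r : ℕ, ε * m / 16 ≤ r ∧ (r : ℝ) ≤ ε * m / 8 := by
    refine ⟨⌈ε * m / 16⌉₊, Nat.le_ceil _, ?_⟩
    have h1 := Nat.ceil_lt_add_one (a := ε * m / 16) (by positivity)
    have h2 : 16 ≤ (m : ℝ) * ε := (div_le_iff₀ hε).mp a1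
    linarith
  have hrpos : (0 : ℝ) < r := lt_of_lt_of_le (by positivity) hr1
  have hty : av (fun p : (Fin m → Fin k) × (Fin k → G) =>
      ind (¬ typ r (meanLog G k m + m) p.1 p.2)) ≤ e ^ 2 / 4 := by
    have h1 : ∀ p : (Fin m → Fin k) × (Fin k → G), ind (¬ typ r (meanLog G k m + m) p.1 p.2) ≤
        ind ((r : ℝ) ≤ rho p.1) + ind ((m : ℝ) ≤ |lq (gw p.1 p.2) - meanLog G k m|) := fun p => by
      refine (ind_mono fun h => ?_).trans (ind_or_le _ _)
      by_contra h2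
      rw [not_or, not_le, not_le] at h2
      refine h ⟨h2.1.le, ?_⟩
      have h3 := (abs_lt.mp h2.2).2
      linarith
    refine (av_mono h1).trans ?_
    rw [av_add]
    have h2 := av_rho_tail (G := G) (m := m) hk0 hrpos
    have h3 := hM0 G k m (by omega) hk0 hk16 m hmR
    have h4 : e ^ 2 / 8 * (m : ℝ) ^ 2 / (m : ℝ) ^ 2 = e ^ 2 / 8 := by field_simp
    have h5 : (m : ℝ) ^ 2 / k / r ≤ e ^ 2 / 8 := by
      rw [div_div, div_le_iff₀ (by positivity)]
      have h6 : 128 ≤ (K2 : ℝ) * (ε * e ^ 2) := (div_le_iff₀ (by positivity)).mp hK2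
      have h7 : (K2 : ℝ) * m * (ε * m / 16) ≤ k * r :=
        mul_le_mul a4 hr1 (by positivity) hkR.le
      have h8 : 128 * (m : ℝ) ^ 2 ≤ (K2 : ℝ) * (ε * e ^ 2) * (m : ℝ) ^ 2 :=
        mul_le_mul_of_nonneg_right h6 (by positivity)
      have h9 : e ^ 2 / 8 * ((K2 : ℝ) * m * (ε * m / 16)) ≤ e ^ 2 / 8 * (k * r) :=
        mul_le_mul_of_nonneg_left h7 (by positivity)
      nlinarith
    rw [h4] at h3
    linarith
  refine (up_core hk0 r _ _ hty).trans ?_
  have hex : Real.exp (Real.log (Fintype.card G) - m * Real.log k + (meanLog G k m + m)) *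
      ((k + r).choose r : ℝ) ≤ e ^ 2 / 2 := by
    have h1 := choose_le_exp (k + r) r (x := (m : ℝ) / k) (by positivity)
    have h2 := up_expo hε hε1 hmR hmk hrpos.le hr2 hl hpsi
    refine (mul_le_mul_of_nonneg_left h1 (Real.exp_pos _).le).trans ?_
    rw [← Real.exp_add]
    have h3 : Real.log (Fintype.card G) - m * Real.log k + (meanLog G k m + m) +
        ((m : ℝ) / k * ((k + r : ℕ) : ℝ) - r * Real.log ((m : ℝ) / k)) ≤ -m := by
      unfold psi at h2
      push_cast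
      linarith
    refine (Real.exp_le_exp.mpr h3).trans ?_
    have h4 : (m : ℝ) ≤ Real.exp m := by linarith [Real.add_one_le_exp (m : ℝ)]
    rw [Real.exp_neg, inv_le_comm₀ (Real.exp_pos _) (by positivity), inv_div]
    exact a2.trans h4
  have hs : Real.sqrt (Real.exp (Real.log (Fintype.card G) - m * Real.log k +
      (meanLog G k m + m)) * ((k + r).choose r : ℝ) + 2 * (e ^ 2 / 4)) ≤ e :=
    Real.sqrt_le_iff.mpr ⟨he0.le, by linarith⟩
  nlinarith

/-- `heavy` with `s = psi - 2 m`, `conc` at `t = m`, Markov for `rho` -/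
theorem low_disc (η : ℝ) (hη : 0 < η) :
    ∃ M K : ℕ, ∀ (G : Type) [Group G] [Fintype G] [DecidableEq G] (k m : ℕ),
      M ≤ m → K * m ≤ k → 3 * (m : ℝ) ≤ psi G k m →
      ∃ A : (Fin k → G) → Finset G,
        (∀ Z, ((m : ℝ) + 1) * (A Z).card / Fintype.card G ≤ η) ∧
        av (fun Z : Fin k → G => 1 - ∑ x ∈ A Z, mu Z m x) ≤ η := by
  obtain ⟨M0, hM0⟩ := conc (η / 2) (by positivity)
  obtain ⟨M1, hM1⟩ := exists_nat_ge (2 / η)
  refine ⟨M0 + M1 + 1, M1 + 16, fun G _ _ _ k m hm hk hpsi => ?_⟩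
  have hm0 : 0 < m := by omega
  have hk16 : 16 * m ≤ k := le_trans (Nat.mul_le_mul_right m (by omega)) hk
  have hk0 : 0 < k := by omega
  have hmR : (0 : ℝ) < m := by exact_mod_cast hm0
  have hkR : (0 : ℝ) < k := by exact_mod_cast hk0
  have hG : (0 : ℝ) < Fintype.card G := by exact_mod_cast Fintype.card_pos
  have a0 : 2 ≤ (M1 : ℝ) * η := (div_le_iff₀ hη).mp hM1
  have a1 : (M1 : ℝ) ≤ m := by exact_mod_cast (by omega : M1 ≤ m)
  have a2 : (M1 : ℝ) * m ≤ k := by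
    exact_mod_cast le_trans (Nat.mul_le_mul_right m (by omega : M1 ≤ M1 + 16)) hk
  refine ⟨fun Z => heavy Z m (psi G k m - 2 * m), fun Z => ?_, ?_⟩
  · have h1 := heavy_card (m := m) hk0 Z (psi G k m - 2 * m)
    have h2 : Real.exp (-(psi G k m - 2 * m)) ≤ Real.exp (-(m : ℝ)) :=
      Real.exp_le_exp.mpr (by linarith)
    have h3 : ((m : ℝ) + 1) * Real.exp (-(m : ℝ)) ≤ η := by
      have h4 := Real.quadratic_le_exp_of_nonneg hmR.le
      rw [Real.exp_neg, ← div_eq_mul_inv, div_le_iff₀ (Real.exp_pos _)]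
      have h5 : 2 ≤ (m : ℝ) * η := a0.trans (mul_le_mul_of_nonneg_right a1 hη.le)
      have h6 : η * (1 + m + (m : ℝ) ^ 2 / 2) ≤ η * Real.exp m :=
        mul_le_mul_of_nonneg_left h4 hη.le
      have h7 : 2 * (m : ℝ) ≤ m * η * m := mul_le_mul_of_nonneg_right h5 hmR.le
      nlinarith
    rw [div_le_iff₀ hG]
    calc ((m : ℝ) + 1) * ((heavy Z m (psi G k m - 2 * m)).card : ℝ)
        ≤ ((m : ℝ) + 1) * (Fintype.card G * Real.exp (-(m : ℝ))) :=
          mul_le_mul_of_nonneg_left (h1.trans (mul_le_mul_of_nonneg_left h2 hG.le))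
            (by positivity)
      _ = ((m : ℝ) + 1) * Real.exp (-(m : ℝ)) * Fintype.card G := by ring
      _ ≤ η * Fintype.card G := mul_le_mul_of_nonneg_right h3 hG.le
  · have h1 : ∀ Z : Fin k → G, 1 - ∑ x ∈ heavy Z m (psi G k m - 2 * m), mu Z m x ≤
        av (fun w : Fin m → Fin k => ind ((m : ℝ) ≤ rho w) +
          ind ((m : ℝ) ≤ |lq (gw w Z) - meanLog G k m|)) := fun Z => by
      refine (heavy_mass hk0 Z _).trans (av_mono fun w => ?_)
      refine (ind_mono fun h => ?_).trans (ind_or_le _ _)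
      by_contra h2
      rw [not_or, not_le, not_le] at h2
      have h3 := (abs_lt.mp h2.2).1
      have h4 := h2.1
      unfold psi at h
      linarith
    refine (av_mono h1).trans ?_
    have h2 := av_prod' (fun p : (Fin m → Fin k) × (Fin k → G) => ind ((m : ℝ) ≤ rho p.1) +
      ind ((m : ℝ) ≤ |lq (gw p.1 p.2) - meanLog G k m|))
    refine (le_of_eq h2.symm).trans ?_
    rw [av_add]
    have h3 := av_rho_tail (G := G) (m := m) hk0 hmR
    have h4 := hM0 G k m (by omega) hk0 hk16 m hmR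
    have h5 : η / 2 * (m : ℝ) ^ 2 / (m : ℝ) ^ 2 = η / 2 := by field_simp
    have h6 : (m : ℝ) ^ 2 / k / m ≤ η / 2 := by
      rw [div_div, div_le_iff₀ (by positivity)]
      have h7 : (M1 : ℝ) * m * m ≤ k * m := mul_le_mul_of_nonneg_right a2 hmR.le
      have h8 : η / 2 * ((M1 : ℝ) * m * m) ≤ η / 2 * (k * m) :=
        mul_le_mul_of_nonneg_left h7 (by positivity)
      have h9 : 2 * (m : ℝ) ^ 2 ≤ (M1 : ℝ) * η * (m : ℝ) ^ 2 :=
        mul_le_mul_of_nonneg_right a0 (by positivity)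
      nlinarith
    rw [h5] at h4
    linarith

/-- `m = T + ceil (ε T / 2)` -/
theorem fin_up (ε η : ℝ) (hε : 0 < ε) (hε1 : ε < 1) (hη : 0 < η) :
    ∃ M K : ℕ, ∀ (G : Type) [Group G] [Fintype G] [DecidableEq G] (k T : ℕ),
      M ≤ T → K * T ≤ k → psi G k T ≤ 0 → ∀ t : ℝ, (1 + ε) * T ≤ t →
      av (fun Z : Fin k → G => tvDist Z t) ≤ η := by
  obtain ⟨M, K, hMK⟩ := up_disc ε (η / 2) hε hε1 (by positivity)
  obtain ⟨M', hM'⟩ := exists_nat_ge (4 / ε + 128 / (ε ^ 2 * η))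
  refine ⟨max M M', 2 * K + 2, fun G _ _ _ k T hT hk hpsi t ht => ?_⟩
  have hTM : M ≤ T := le_trans (le_max_left _ _) hT
  have hTM' : (M' : ℝ) ≤ T := by exact_mod_cast le_trans (le_max_right _ _) hT
  have hp1 : 0 < 4 / ε := by positivity
  have hp2 : 0 < 128 / (ε ^ 2 * η) := by positivity
  have hT4 : 4 ≤ ε * T := by
    have : 4 / ε ≤ T := by linarith
    rw [div_le_iff₀ hε] at this; linarith
  have hT128 : 128 ≤ T * (ε ^ 2 * η) := by
    have : 128 / (ε ^ 2 * η) ≤ T := by linarith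
    rwa [div_le_iff₀ (by positivity)] at this
  have hT0 : (0 : ℝ) < T := by linarith
  have hT0' : 0 < T := by exact_mod_cast hT0
  set d : ℕ := ⌈ε * T / 2⌉₊ with hd
  have hd1 : ε * T / 2 ≤ d := Nat.le_ceil _
  have hd2 : (d : ℝ) ≤ 3 * (ε * T) / 4 := by
    have := Nat.ceil_lt_add_one (show 0 ≤ ε * T / 2 by positivity)
    linarith
  have hεT : ε * T ≤ T := by nlinarith
  have hdT : d ≤ T := by
    have : (d : ℝ) ≤ T := by linarith
    exact_mod_cast this
  have hk0 : 0 < k := lt_of_lt_of_le (by positivity) hk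
  have hkm : K * (T + d) ≤ k := by nlinarith
  have hkm' : T + d ≤ k := by nlinarith
  have hm0 : (0 : ℝ) < ((T + d : ℕ) : ℝ) := by push_cast; positivity
  have hlog : 0 ≤ Real.log ((k : ℝ) / ((T + d : ℕ) : ℝ)) := by
    apply Real.log_nonneg
    rw [le_div_iff₀ hm0, one_mul]
    exact_mod_cast hkm'
  have hps := psi_add (G := G) (m := T) hk0 d (by omega)
  have hdm : ε / 4 * ((T + d : ℕ) : ℝ) ≤ d := by
    have : (d : ℝ) ≤ T := by exact_mod_cast hdT
    push_cast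
    nlinarith
  have hdisc := hMK G k (T + d) (by omega) hkm (by nlinarith [mul_le_mul_of_nonneg_right hdm hlog])
  have htT : (T : ℝ) ≤ t := by nlinarith
  have ht0 : 0 < t := by linarith
  have hgap : ε * t / 8 ≤ t - ((T + d : ℕ) : ℝ) := by
    push_cast
    have h1 : (T : ℝ) + d ≤ (1 + 3 * ε / 4) * T := by linarith
    have h2 : (1 + 3 * ε / 4) * T ≤ (1 - ε / 8) * ((1 + ε) * T) := by
      have : 0 ≤ ε * (1 - ε) * T := by
        have : 0 ≤ 1 - ε := by linarith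
        positivity
      nlinarith
    have h3 : (1 - ε / 8) * ((1 + ε) * T) ≤ (1 - ε / 8) * t :=
      mul_le_mul_of_nonneg_left ht (by linarith)
    linarith
  have hgap0 : 0 < ε * t / 8 := by positivity
  have htail : ∑ l ∈ range (T + d), poisson t l ≤ η / 2 := by
    refine (pois_low (by linarith)).trans ?_
    rw [div_le_iff₀ (pow_pos (by linarith) 2)]
    have h1 : (ε * t / 8) ^ 2 ≤ (t - ((T + d : ℕ) : ℝ)) ^ 2 := pow_le_pow_left₀ hgap0.le hgap 2
    have h2 : 128 ≤ t * (ε ^ 2 * η) :=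
      hT128.trans (mul_le_mul_of_nonneg_right htT (by positivity))
    have h3 : t ≤ η / 2 * (ε * t / 8) ^ 2 := by
      have : η / 2 * (ε * t / 8) ^ 2 = t * (t * (ε ^ 2 * η)) / 128 := by ring
      rw [this]; nlinarith
    exact h3.trans (mul_le_mul_of_nonneg_left h1 (by positivity))
  calc av (fun Z : Fin k → G => tvDist Z t)
      ≤ av (fun Z : Fin k → G => η / 2 + tv (mu Z (T + d))) :=
        av_mono (fun Z => (tvDist_le hk0 Z ht0.le (T + d)).trans (by linarith))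
    _ ≤ η := by
        rw [av_add, av_const]; linarith

/-- `m = T - ceil (ε T / 2)` -/
theorem fin_low (ε η : ℝ) (hε : 0 < ε) (hε1 : ε < 1) (hη : 0 < η) :
    ∃ M K : ℕ, ∀ (G : Type) [Group G] [Fintype G] [DecidableEq G] (k T : ℕ),
      M ≤ T → K * T ≤ k → 0 ≤ psi G k (T - 1) → ∀ t : ℝ, 0 ≤ t → t ≤ (1 - ε) * T →
      av (fun Z : Fin k → G => 1 - tvDist Z t) ≤ η := by
  obtain ⟨M, K, hMK⟩ := low_disc (η / 3) (by positivity)
  obtain ⟨M', hM'⟩ := exists_nat_ge (4 / ε + 48 / (ε ^ 2 * η))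
  obtain ⟨K', hK'⟩ := exists_nat_ge (Real.exp (12 / ε))
  refine ⟨max (4 * M) M', max K K' + 1, fun G _ _ _ k T hT hk hpsi t ht0 ht => ?_⟩
  have hTM : 4 * M ≤ T := le_trans (le_max_left _ _) hT
  have hTM' : (M' : ℝ) ≤ T := by exact_mod_cast le_trans (le_max_right _ _) hT
  have hp1 : 0 < 4 / ε := by positivity
  have hp2 : 0 < 48 / (ε ^ 2 * η) := by positivity
  have hT4 : 4 ≤ ε * T := by
    have : 4 / ε ≤ T := by linarith
    rw [div_le_iff₀ hε] at this; linarith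
  have hT48 : 48 ≤ T * (ε ^ 2 * η) := by
    have : 48 / (ε ^ 2 * η) ≤ T := by linarith
    rwa [div_le_iff₀ (by positivity)] at this
  have hT0 : (0 : ℝ) < T := by linarith
  have hT0' : 0 < T := by exact_mod_cast hT0
  set d : ℕ := ⌈ε * T / 2⌉₊ with hd
  have hd1 : ε * T / 2 ≤ d := Nat.le_ceil _
  have hd2 : (d : ℝ) ≤ 3 * (ε * T) / 4 := by
    have := Nat.ceil_lt_add_one (show 0 ≤ ε * T / 2 by positivity)
    linarith
  have hεT : ε * T ≤ T := by nlinarith
  have hdT : 4 * d ≤ 3 * T := by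
    have : (4 * d : ℝ) ≤ 3 * T := by linarith
    exact_mod_cast this
  have hd2' : 2 ≤ d := by
    have : (2 : ℝ) ≤ d := by linarith
    exact_mod_cast this
  obtain ⟨m, hm⟩ : ∃ m, T = m + d := ⟨T - d, by omega⟩
  obtain ⟨e, he⟩ : ∃ e, d = e + 1 := ⟨d - 1, by omega⟩
  have hmT : (T : ℝ) = m + d := by exact_mod_cast hm
  have hde : (d : ℝ) = e + 1 := by exact_mod_cast he
  have hk0 : 0 < k := lt_of_lt_of_le (by positivity) hk
  have hKT : K * T ≤ k := le_trans (Nat.mul_le_mul_right _ (by omega)) hk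
  have hKT' : K' * T ≤ k := le_trans (Nat.mul_le_mul_right _ (by omega)) hk
  have hkm : K * m ≤ k := le_trans (Nat.mul_le_mul_left _ (by omega)) hKT
  have hme : T - 1 = m + e := by omega
  have hme0 : (0 : ℝ) < ((m + e : ℕ) : ℝ) := by
    have : 0 < m + e := by omega
    exact_mod_cast this
  have hlog : 12 / ε ≤ Real.log ((k : ℝ) / ((m + e : ℕ) : ℝ)) := by
    rw [Real.le_log_iff_exp_le (by positivity), le_div_iff₀ hme0]
    have h1 : ((m + e : ℕ) : ℝ) ≤ T := by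
      have : m + e ≤ T := by omega
      exact_mod_cast this
    have h2 : (K' : ℝ) * T ≤ k := by exact_mod_cast hKT'
    exact (mul_le_mul hK' h1 hme0.le (Nat.cast_nonneg _)).trans h2
  have hps := psi_add (G := G) (m := m) hk0 e (by omega)
  rw [hme] at hpsi
  have h3m : 3 * (m : ℝ) ≤ psi G k m := by
    have h1 : ε * T / 4 ≤ e := by linarith
    have h2 : ε * T / 4 * (12 / ε) ≤ e * Real.log ((k : ℝ) / ((m + e : ℕ) : ℝ)) :=
      mul_le_mul h1 hlog (by positivity) (Nat.cast_nonneg _)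
    have h3 : ε * T / 4 * (12 / ε) = 3 * T := by field_simp; ring
    have h4 : (0 : ℝ) ≤ d := Nat.cast_nonneg _
    linarith
  obtain ⟨A, hA1, hA2⟩ := hMK G k m (by omega) hkm h3m
  have hgap : ε * T / 4 ≤ m - t := by nlinarith
  have hgap0 : 0 < ε * T / 4 := by positivity
  have htail : 1 - ∑ l ∈ range (m + 1), poisson t l ≤ η / 3 := by
    refine (pois_high ht0 (by linarith)).trans ?_
    rw [div_le_iff₀ (pow_pos (by linarith) 2)]
    have h1 : (ε * T / 4) ^ 2 ≤ ((m : ℝ) - t) ^ 2 := pow_le_pow_left₀ hgap0.le hgap 2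
    have h2 : t ≤ T := by nlinarith
    have h3 : (T : ℝ) ≤ η / 3 * (ε * T / 4) ^ 2 := by
      have : η / 3 * (ε * T / 4) ^ 2 = T * (T * (ε ^ 2 * η)) / 48 := by ring
      rw [this]; nlinarith
    exact h2.trans (h3.trans (mul_le_mul_of_nonneg_left h1 (by positivity)))
  have hP1 : ∑ l ∈ range (m + 1), poisson t l ≤ 1 :=
    sum_le_hasSum _ (fun l _ => poisson_nonneg ht0 l) (poisson_hasSum t)
  calc av (fun Z : Fin k → G => 1 - tvDist Z t)
      ≤ av (fun Z : Fin k → G => 2 * η / 3 + (1 - ∑ x ∈ A Z, mu Z m x)) := by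
        refine av_mono (fun Z => ?_)
        have h1 := tvDist_ge hk0 Z ht0 m (A Z)
        have h2 := hA1 Z
        have h3 : ∑ x ∈ A Z, mu Z m x ≤ 1 := by
          rw [← mu_sum hk0 Z m]
          exact Finset.sum_le_sum_of_subset_of_nonneg (Finset.subset_univ _)
            (fun x _ _ => mu_nonneg Z m x)
        nlinarith [mul_nonneg (sub_nonneg.mpr hP1) (sub_nonneg.mpr h3)]
    _ ≤ η := by
        rw [av_add, av_const]; linarith

end Pool.Agent.Lib.MP_d87a8f_pr.U
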