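import Mathlib
import Pool.Agent.Lib.MP_d87a8f_pr.U.Fin

/-!
Universal cutoff.
-/

namespace Pool.Agent.Lib.MP_d87a8f_pr.U

open Finset Filter Topology

theorem prob_eq_av {G : Type} [Fintype G] {k : ℕ} (p : (Fin k → G) → Prop) :
    prob p = av (fun Z => ind (p Z)) := by
  classical
  unfold prob av
  rw [sum_ind, Set.ncard_eq_toFinset_card']
  simp

/-- position of the cutoff time -/
theorem cutTime_spec (G : Type) [Group G] [Fintype G] [DecidableEq G] (k : ℕ)
    (hL : 1 ≤ Real.log (Fintype.card G)) (hk : 6 * Real.log (Fintype.card G) ≤ k) :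
    psi G k (cutTime G k) ≤ 0 ∧ 0 ≤ psi G k (cutTime G k - 1) ∧
      (cutTime G k : ℝ) ≤ 2 * Real.log (Fintype.card G) ∧
      Real.log (Fintype.card G) ≤ cutTime G k * Real.log k := by
  set L := Real.log (Fintype.card G) with hLdef
  set S : Set ℕ := {m : ℕ | L + meanLog G k m ≤ m * Real.log k} with hS
  have hT : cutTime G k = sInf S := rfl
  have hc1 : L ≤ (⌈L⌉₊ : ℝ) := Nat.le_ceil _
  have hc2 : (⌈L⌉₊ : ℝ) ≤ 2 * L := by
    have := Nat.ceil_lt_add_one (show 0 ≤ L by linarith)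
    linarith
  have hc0 : (0 : ℝ) < ⌈L⌉₊ := by linarith
  have hmem : ⌈L⌉₊ ∈ S := by
    have h1 := meanLog_le (G := G) (k := k) (m := ⌈L⌉₊)
    have h2 : Real.log (3 * (⌈L⌉₊ : ℝ)) ≤ Real.log k :=
      Real.log_le_log (by positivity) (by linarith)
    rw [Real.log_mul (by norm_num) hc0.ne'] at h2
    have h3 : 1 ≤ Real.log 3 := by
      rw [Real.le_log_iff_exp_le (by norm_num)]
      exact (Real.exp_one_lt_d9.le).trans (by norm_num)
    show L + meanLog G k ⌈L⌉₊ ≤ (⌈L⌉₊ : ℝ) * Real.log k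
    nlinarith
  have hin : cutTime G k ∈ S := Nat.sInf_mem ⟨_, hmem⟩
  have hle : cutTime G k ≤ ⌈L⌉₊ := Nat.sInf_le hmem
  have hin' : L + meanLog G k (cutTime G k) ≤ cutTime G k * Real.log k := hin
  have hnn := meanLog_nonneg (G := G) (k := k) (m := cutTime G k)
  have hpos : 0 < cutTime G k := by
    rcases Nat.eq_zero_or_pos (cutTime G k) with h | h
    · have : ((cutTime G k : ℕ) : ℝ) = 0 := by exact_mod_cast h
      rw [this] at hin'
      linarith
    · exact h
  have hnot : cutTime G k - 1 ∉ S := Nat.notMem_of_lt_sInf (by rw [← hT]; omega)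
  refine ⟨by unfold psi; linarith, ?_, ?_, by linarith⟩
  · have : ¬ (L + meanLog G k (cutTime G k - 1) ≤ ((cutTime G k - 1 : ℕ) : ℝ) * Real.log k) :=
      hnot
    unfold psi; linarith
  · have : ((cutTime G k : ℕ) : ℝ) ≤ ⌈L⌉₊ := by exact_mod_cast hle
    linarith

variable (G : ℕ → Type) [∀ n, Group (G n)] [∀ n, Fintype (G n)] [∀ n, DecidableEq (G n)]
  (k : ℕ → ℕ)

theorem ev_spec
    (h1 : Tendsto (fun n => (k n : ℝ) / Real.log (Fintype.card (G n))) atTop atTop)
    (h2 : Tendsto (fun n => Real.log (k n) / Real.log (Fintype.card (G n))) atTop (𝓝 0))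
    (M K : ℕ) : ∀ᶠ n in atTop, 0 < k n ∧ M ≤ cutTime (G n) (k n) ∧
      K * cutTime (G n) (k n) ≤ k n ∧ psi (G n) (k n) (cutTime (G n) (k n)) ≤ 0 ∧
      0 ≤ psi (G n) (k n) (cutTime (G n) (k n) - 1) := by
  have hlog2 : (1 : ℝ) / 2 ≤ Real.log 2 := by
    have := Real.log_two_gt_d9; linarith
  have e1 := h1.eventually_ge_atTop (6 + 2 * (K : ℝ))
  have e2 := h2.eventually (gt_mem_nhds (show (0 : ℝ) < 1 / ((M : ℝ) + 1) by positivity))
  filter_upwards [e1, e2] with n a1 a2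
  set L := Real.log (Fintype.card (G n)) with hL
  have hK0 : (0 : ℝ) ≤ K := Nat.cast_nonneg _
  have hM0 : (0 : ℝ) ≤ M := Nat.cast_nonneg _
  have hL0 : 0 ≤ L := Real.log_natCast_nonneg _
  have hLpos : 0 < L := by
    rcases hL0.eq_or_lt with h | h
    · rw [← h, div_zero] at a1; linarith
    · exact h
  have hc2 : 2 ≤ Fintype.card (G n) := by
    by_contra h
    have h0 : 0 < Fintype.card (G n) := Fintype.card_pos
    have h1' : Fintype.card (G n) = 1 := by omega
    rw [hL, h1'] at hLpos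
    simp at hLpos
  have hL2 : 1 / 2 ≤ L := hlog2.trans (Real.log_le_log (by norm_num) (by exact_mod_cast hc2))
  rw [le_div_iff₀ hLpos] at a1
  rw [div_lt_div_iff₀ hLpos (by positivity), one_mul] at a2
  have hk3 : (3 : ℝ) ≤ k n := by nlinarith
  have hlk : 1 ≤ Real.log (k n) := by
    rw [Real.le_log_iff_exp_le (by linarith)]
    exact (Real.exp_one_lt_d9.le).trans (by linarith)
  have hL1 : 1 ≤ L := by nlinarith
  obtain ⟨b1, b2, b3, b4⟩ := cutTime_spec (G n) (k n) hL1 (by nlinarith)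
  refine ⟨by exact_mod_cast (show (0 : ℝ) < k n by linarith), ?_, ?_, b1, b2⟩
  · have : (M : ℝ) ≤ cutTime (G n) (k n) := by
      by_contra h
      push Not at h
      nlinarith
    exact_mod_cast this
  · have : (K : ℝ) * cutTime (G n) (k n) ≤ k n := by nlinarith
    exact_mod_cast this

theorem ev_up
    (h1 : Tendsto (fun n => (k n : ℝ) / Real.log (Fintype.card (G n))) atTop atTop)
    (h2 : Tendsto (fun n => Real.log (k n) / Real.log (Fintype.card (G n))) atTop (𝓝 0))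
    (ε δ η : ℝ) (hε : 0 < ε) (hε1 : ε < 1) (hδ : 0 < δ) (hη : 0 < η) :
    ∀ᶠ n in atTop, ∀ t : ℝ, (1 + ε) * cutTime (G n) (k n) ≤ t →
      prob (fun Z : Fin (k n) → G n => δ < |tvDist Z t|) ≤ η := by
  obtain ⟨M, K, hMK⟩ := fin_up ε (η * δ) hε hε1 (by positivity)
  filter_upwards [ev_spec G k h1 h2 M K] with n ⟨a0, a1, a2, a3, _⟩ t ht
  have h := hMK (G n) (k n) _ a1 a2 a3 t ht
  rw [prob_eq_av]
  refine le_trans (av_mono (fun Z => ind_mono (fun hZ => ?_)))
    ((markov (f := fun Z : Fin (k n) → G n => tvDist Z t) (fun Z => tvDist_nonneg Z t) hδ).trans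
      (by rw [div_le_iff₀ hδ]; exact h))
  rw [abs_of_nonneg (tvDist_nonneg Z t)] at hZ
  exact hZ.le

theorem ev_low
    (h1 : Tendsto (fun n => (k n : ℝ) / Real.log (Fintype.card (G n))) atTop atTop)
    (h2 : Tendsto (fun n => Real.log (k n) / Real.log (Fintype.card (G n))) atTop (𝓝 0))
    (ε δ η : ℝ) (hε : 0 < ε) (hε1 : ε < 1) (hδ : 0 < δ) (hη : 0 < η) :
    ∀ᶠ n in atTop, ∀ t : ℝ, 0 ≤ t → t ≤ (1 - ε) * cutTime (G n) (k n) →
      prob (fun Z : Fin (k n) → G n => δ < |tvDist Z t - 1|) ≤ η := by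
  obtain ⟨M, K, hMK⟩ := fin_low ε (η * δ) hε hε1 (by positivity)
  filter_upwards [ev_spec G k h1 h2 M K] with n ⟨a0, a1, a2, _, a3⟩ t ht0 ht
  have h := hMK (G n) (k n) _ a1 a2 a3 t ht0 ht
  rw [prob_eq_av]
  refine le_trans (av_mono (fun Z => ind_mono (fun hZ => ?_)))
    ((markov (f := fun Z : Fin (k n) → G n => 1 - tvDist Z t)
      (fun Z => sub_nonneg.mpr (tvDist_le_one a0 Z ht0)) hδ).trans
      (by rw [div_le_iff₀ hδ]; exact h))
  rw [abs_sub_comm, abs_of_nonneg (sub_nonneg.mpr (tvDist_le_one a0 Z ht0))] at hZ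
  exact hZ.le

omit [∀ n, Group (G n)] [∀ n, DecidableEq (G n)] in
theorem tendsto_prob (p : ∀ n, (Fin (k n) → G n) → Prop)
    (h : ∀ η : ℝ, 0 < η → ∀ᶠ n in atTop, prob (p n) ≤ η) :
    Tendsto (fun n => prob (p n)) atTop (𝓝 0) := by
  rw [tendsto_order]
  refine ⟨fun a ha => Eventually.of_forall (fun n => lt_of_lt_of_le ha ?_), fun a ha => ?_⟩
  · rw [prob_eq_av]; exact av_nonneg (fun Z => ind_nonneg _)
  · filter_upwards [h (a / 2) (by positivity)] with n hn
    linarith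

/-- the distance cannot be close to both `0` and `1` -/
theorem not_both {H : Type} [Group H] [Fintype H] [DecidableEq H] {j : ℕ} (t : ℝ)
    (a : prob (fun Z : Fin j → H => 1 / 3 < |tvDist Z t|) ≤ 1 / 3)
    (b : prob (fun Z : Fin j → H => 1 / 3 < |tvDist Z t - 1|) ≤ 1 / 3) : False := by
  rw [prob_eq_av] at a b
  have h : av (fun _ : Fin j → H => (1 : ℝ)) ≤
      av (fun Z : Fin j → H => ind (1 / 3 < |tvDist Z t|) + ind (1 / 3 < |tvDist Z t - 1|)) := by
    refine av_mono (fun Z => le_trans (le_of_eq (ind_pos ?_).symm) (ind_or_le _ _))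
    by_contra hc
    push Not at hc
    have h1 := (abs_le.mp hc.1).2
    have h2 := (abs_le.mp hc.2).1
    linarith
  rw [av_add, av_const] at h
  linarith

theorem cutoff_of_tendsto
    (h1 : Tendsto (fun n => (k n : ℝ) / Real.log (Fintype.card (G n))) atTop atTop)
    (h2 : Tendsto (fun n => Real.log (k n) / Real.log (Fintype.card (G n))) atTop (𝓝 0))
    (τ : ℕ → ℝ) (hτ : ∀ᶠ n in atTop, 0 < τ n)
    (h : Tendsto (fun n => (cutTime (G n) (k n) : ℝ) / τ n) atTop (𝓝 1)) : CutoffAt G k τ := by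
  intro ε δ hε hε1 hδ
  have e1 := h.eventually (gt_mem_nhds (show (1 : ℝ) < 1 + ε / 4 by linarith))
  have e2 := h.eventually (lt_mem_nhds (show 1 - ε / 2 < (1 : ℝ) by linarith))
  constructor
  · refine tendsto_prob G k _ (fun η hη => ?_)
    filter_upwards [hτ, e2, ev_low G k h1 h2 (ε / 2) δ η (by positivity) (by linarith) hδ hη]
      with n a0 a1 a2
    rw [lt_div_iff₀ a0] at a1
    refine a2 _ (mul_nonneg (by linarith) a0.le) ?_
    have h3 : (1 - ε / 2) * ((1 - ε / 2) * τ n) ≤ (1 - ε / 2) * cutTime (G n) (k n) :=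
      mul_le_mul_of_nonneg_left a1.le (by linarith)
    nlinarith [mul_nonneg (sq_nonneg ε) a0.le]
  · refine tendsto_prob G k _ (fun η hη => ?_)
    filter_upwards [hτ, e1, ev_up G k h1 h2 (ε / 2) δ η (by positivity) (by linarith) hδ hη]
      with n a0 a1 a2
    rw [div_lt_iff₀ a0] at a1
    refine a2 _ ?_
    have h3 : (1 + ε / 2) * cutTime (G n) (k n) ≤ (1 + ε / 2) * ((1 + ε / 4) * τ n) :=
      mul_le_mul_of_nonneg_left a1.le (by linarith)
    have h4 : 0 ≤ ε * (1 - ε) * τ n := by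
      have : 0 ≤ 1 - ε := by linarith
      positivity
    nlinarith [mul_nonneg hε.le a0.le]

theorem tendsto_of_cutoff
    (h1 : Tendsto (fun n => (k n : ℝ) / Real.log (Fintype.card (G n))) atTop atTop)
    (h2 : Tendsto (fun n => Real.log (k n) / Real.log (Fintype.card (G n))) atTop (𝓝 0))
    (τ : ℕ → ℝ) (hτ : ∀ᶠ n in atTop, 0 < τ n) (h : CutoffAt G k τ) :
    Tendsto (fun n => (cutTime (G n) (k n) : ℝ) / τ n) atTop (𝓝 1) := by
  have third : (0 : ℝ) < 1 / 3 := by norm_num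
  rw [tendsto_order]
  constructor
  · intro a ha
    obtain ⟨ε, hε, hε1, hεa⟩ : ∃ ε : ℝ, 0 < ε ∧ ε < 1 / 2 ∧ a ≤ 1 - 2 * ε :=
      ⟨min ((1 - a) / 2) (1 / 4), lt_min (by linarith) (by norm_num),
        lt_of_le_of_lt (min_le_right _ _) (by norm_num),
        by linarith [min_le_left ((1 - a) / 2) (1 / 4)]⟩
    have c := ((h ε (1 / 3) hε (by linarith) third).1).eventually (ge_mem_nhds third)
    filter_upwards [hτ, c, ev_up G k h1 h2 ε (1 / 3) (1 / 3) hε (by linarith) third third]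
      with n a0 a1 a2
    by_contra hc
    push Not at hc
    rw [div_le_iff₀ a0] at hc
    refine not_both _ (a2 _ ?_) a1
    have h3 : (cutTime (G n) (k n) : ℝ) ≤ (1 - 2 * ε) * τ n :=
      hc.trans (mul_le_mul_of_nonneg_right hεa a0.le)
    have h4 : (1 + ε) * cutTime (G n) (k n) ≤ (1 + ε) * ((1 - 2 * ε) * τ n) :=
      mul_le_mul_of_nonneg_left h3 (by linarith)
    nlinarith [mul_nonneg (sq_nonneg ε) a0.le]
  · intro a ha
    obtain ⟨ε, hε, hε1, hεa⟩ : ∃ ε : ℝ, 0 < ε ∧ ε ≤ 1 / 4 ∧ 1 + 3 * ε ≤ a :=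
      ⟨min ((a - 1) / 3) (1 / 4), lt_min (by linarith) (by norm_num), min_le_right _ _,
        by linarith [min_le_left ((a - 1) / 3) (1 / 4)]⟩
    have c := ((h ε (1 / 3) hε (by linarith) third).2).eventually (ge_mem_nhds third)
    filter_upwards [hτ, c, ev_low G k h1 h2 ε (1 / 3) (1 / 3) hε (by linarith) third third]
      with n a0 a1 a2
    by_contra hc
    push Not at hc
    rw [le_div_iff₀ a0] at hc
    refine not_both _ a1 (a2 _ (mul_nonneg (by linarith) a0.le) ?_)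
    have h3 : (1 + 3 * ε) * τ n ≤ cutTime (G n) (k n) :=
      (mul_le_mul_of_nonneg_right hεa a0.le).trans hc
    have h4 : (1 - ε) * ((1 + 3 * ε) * τ n) ≤ (1 - ε) * cutTime (G n) (k n) :=
      mul_le_mul_of_nonneg_left h3 (by linarith)
    have h5 : 0 ≤ ε * (1 - 3 * ε) * τ n := by
      have : 0 ≤ 1 - 3 * ε := by linarith
      positivity
    nlinarith

theorem main
    (h1 : Tendsto (fun n => (k n : ℝ) / Real.log (Fintype.card (G n))) atTop atTop)
    (h2 : Tendsto (fun n => Real.log (k n) / Real.log (Fintype.card (G n))) atTop (𝓝 0)) :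
    CutoffAt G k (fun n => (cutTime (G n) (k n) : ℝ)) ∧
      ∀ τ : ℕ → ℝ, (∀ᶠ n in atTop, 0 < τ n) →
        (CutoffAt G k τ ↔ Tendsto (fun n => (cutTime (G n) (k n) : ℝ) / τ n) atTop (𝓝 1)) := by
  refine ⟨?_, fun τ hτ => ⟨tendsto_of_cutoff G k h1 h2 τ hτ, cutoff_of_tendsto G k h1 h2 τ hτ⟩⟩
  have hp : ∀ᶠ n in atTop, (0 : ℝ) < cutTime (G n) (k n) := by
    filter_upwards [ev_spec G k h1 h2 1 0] with n hn
    exact_mod_cast hn.2.1
  refine cutoff_of_tendsto G k h1 h2 _ hp (tendsto_const_nhds.congr' ?_)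
  filter_upwards [hp] with n hn
  exact (div_self hn.ne').symm

/-- the cutoff times are exactly the sequences equivalent to `cutTime` -/
theorem universal_cutoff
    (h1 : Tendsto (fun n => (k n : ℝ) / Real.log (Fintype.card (G n))) atTop atTop)
    (h2 : Tendsto (fun n => Real.log (k n) / Real.log (Fintype.card (G n))) atTop (𝓝 0))
    (τ : ℕ → ℝ) (hτ : ∀ n, 0 ≤ τ n) :
    CutoffAt G k τ ↔
      Asymptotics.IsEquivalent atTop τ (fun n => (cutTime (G n) (k n) : ℝ)) := by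
  have third : (0 : ℝ) < 1 / 3 := by norm_num
  have half : (0 : ℝ) < 1 / 2 := by norm_num
  have half' : (1 : ℝ) / 2 < 1 := by norm_num
  have hp : ∀ᶠ n in atTop, (0 : ℝ) < cutTime (G n) (k n) := by
    filter_upwards [ev_spec G k h1 h2 1 0] with n hn
    exact_mod_cast hn.2.1
  constructor
  · intro h
    have hτ' : ∀ᶠ n in atTop, 0 < τ n := by
      have c := ((h (1 / 2) (1 / 3) half half' third).2).eventually (ge_mem_nhds third)
      filter_upwards [c, ev_low G k h1 h2 (1 / 2) (1 / 3) (1 / 3) half half' third third]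
        with n a1 a2
      rcases (hτ n).eq_or_lt with h0 | h0
      · exfalso
        refine not_both _ a1 (a2 _ ?_ ?_)
        · rw [← h0]; norm_num
        · rw [← h0, mul_zero]; positivity
      · exact h0
    exact ((Asymptotics.isEquivalent_iff_tendsto_one
      (hτ'.mono (fun n hn => hn.ne'))).mpr (tendsto_of_cutoff G k h1 h2 τ hτ' h)).symm
  · intro h
    have h3 := (Asymptotics.isEquivalent_iff_tendsto_one (hp.mono (fun n hn => hn.ne'))).mp h
    have hτ' : ∀ᶠ n in atTop, 0 < τ n := by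
      filter_upwards [hp, h3.eventually (lt_mem_nhds half')] with n a0 a1
      have a2 : 1 / 2 < τ n / (cutTime (G n) (k n) : ℝ) := a1
      rw [lt_div_iff₀ a0] at a2
      linarith
    exact cutoff_of_tendsto G k h1 h2 τ hτ'
      ((Asymptotics.isEquivalent_iff_tendsto_one (hτ'.mono (fun n hn => hn.ne'))).mp h.symm)

end Pool.Agent.Lib.MP_d87a8f_pr.U
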